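import Pool.Agent.SF4.Defs

/-!
# Module CONT: containers for sum-free sets, general dilates

Proof: as `SF2.containers` (end of Pool/Agent/SF2/Cont.lean), by strong induction on `C.card`: a set that is not `Poor4` has a
`d ∈ Q` with `ε * N * N < prs (secd N C d) N N`; `secd N C d = sec (d : ℤ) N C 1` (`pow_one`); apply `SF2.children` with
`L = d`, `T = fun _ => N`, `i = 1`, `l = k = 0`, then `SF2.branch`.
-/

namespace SF4

open Finset SFree SF2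

theorem containers4 (N : ℕ) (Q : Finset ℕ) (hQ : ∀ d ∈ Q, 0 < d) (h₀ β : ℕ) (ε τ : ℝ)
    (hh₀ : 0 < h₀) (hh₀N : h₀ + 1 ≤ N) (hε : 0 < ε) (hτ : 0 < τ) (hβ : (β : ℝ) ≤ h₀ * ε / 4)
    (hKW : Real.exp (-(τ / 2)) + Real.exp (-(τ / 2) * β) ≤ 1)
    (hbig : (N : ℝ) ^ (h₀ + 1) * Real.exp (-τ * (ε * N / 16 - h₀)) ≤ 1 / 2) (C : Finset ℤ) :
    ∃ 𝒞 : Finset (Finset ℤ), (∀ B ⊆ C, SumFree (B : Set ℤ) → ∃ C' ∈ 𝒞, B ⊆ C') ∧
      (∀ C' ∈ 𝒞, C' ⊆ C ∧ Poor4 N Q ε C') ∧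
      ∑ C' ∈ 𝒞, Real.exp (-τ * ((C \ C').card : ℝ)) ≤ 1 := by
  classical
  induction hn : C.card using Nat.strong_induction_on generalizing C with
  | _ n ih =>
  by_cases hP : Poor4 N Q ε C
  · exact ⟨{C}, fun B hB _ => ⟨C, mem_singleton_self _, hB⟩, by simpa using hP, by simp⟩
  have hP' := hP
  unfold Poor4 at hP'
  push Not at hP'
  obtain ⟨d, hd, hrich⟩ := hP'
  have hsec : secd N C d = sec (d : ℤ) N C 1 := by
    ext x
    simp [secd, sec]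
  rw [hsec] at hrich
  obtain ⟨𝒟, h1, h2, h3⟩ := children (d : ℤ) (by exact_mod_cast hQ d hd) N (fun _ => N) h₀ β ε τ
    (fun _ _ _ => le_rfl) (l := 0) (k := 0) (i := 1) le_rfl le_rfl hh₀ hh₀N hε hτ hβ hKW
    hbig C hrich
  refine branch (Poor4 N Q ε) (fun B => SumFree (B : Set ℤ)) τ C 𝒟
    (fun D hD => (h1 D hD).1) h2 h3 (fun D hD => ?_)
  exact ih D.card (by rw [← hn]; exact card_lt_card (h1 D hD)) D rfl

end SF4
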