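import Pool.Agent.SF4.Av

/-!
# Module WEIGHT: the weights (compare Pool/Agent/SF2/Weight.lean, SF3/Weight.lean)
-/

namespace SF4

open Finset SFree SF2

theorem Weight_mem_UU4 {N : ℕ} {Q : Finset ℕ} {a : ℤ} :
    a ∈ UU4 N Q ↔ ∃ d ∈ Q, ∃ n : ℤ, 1 ≤ n ∧ n ≤ N ∧ (d : ℤ) * n = a := by
  unfold UU4
  rw [mem_biUnion]
  constructor
  · rintro ⟨d, hd, h⟩
    rw [mem_image] at h
    obtain ⟨n, hn, rfl⟩ := h
    rw [mem_Icc] at hn
    exact ⟨d, hd, n, hn.1, hn.2, rfl⟩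
  · rintro ⟨d, hd, n, h1, h2, rfl⟩
    exact ⟨d, hd, mem_image.2 ⟨n, mem_Icc.2 ⟨h1, h2⟩, rfl⟩⟩

theorem card_UU4 (N : ℕ) (Q : Finset ℕ) : (UU4 N Q).card ≤ Q.card * N := by
  unfold UU4
  refine card_biUnion_le.trans ?_
  calc ∑ d ∈ Q, ((Icc (1 : ℤ) N).image (fun n => (d : ℤ) * n)).card
      ≤ ∑ d ∈ Q, N := by
        apply sum_le_sum
        intro i _
        refine card_image_le.trans ?_
        rw [Int.card_Icc]
        simp
    _ = Q.card * N := by rw [sum_const, smul_eq_mul]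

theorem UU4_pos {N : ℕ} {Q : Finset ℕ} (hQ : ∀ d ∈ Q, 0 < d) {a : ℤ} (ha : a ∈ UU4 N Q) :
    0 < a := by
  obtain ⟨d, hd, n, h1, _, rfl⟩ := Weight_mem_UU4.1 ha
  have h := hQ d hd
  have h2 : (0 : ℤ) < d := by exact_mod_cast h
  exact mul_pos h2 (by omega)

theorem wt4_nonneg (X κ K : ℕ) (T : ℕ → ℕ) {u g : ℕ → ℝ} (hu : ∀ i, 0 ≤ u i)
    (hg : ∀ k, 0 ≤ g k) (a : ℤ) : 0 ≤ wt4 X κ K T u g a := by
  unfold wt4
  apply sum_nonneg
  intro i _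
  apply mul_nonneg (hu i)
  apply av_nonneg
  intro d _
  apply sum_nonneg
  intro k _
  split_ifs
  · exact div_nonneg (hg k) (Nat.cast_nonneg _)
  · exact le_refl _

theorem wt4_le {X : ℕ} (hX : 0 < X) (κ K : ℕ) (T : ℕ → ℕ) {u g : ℕ → ℝ} (hu : ∀ i, 0 ≤ u i)
    (hg : ∀ k, 0 ≤ g k) (a : ℤ) :
    wt4 X κ K T u g a ≤ (∑ i ∈ range κ, u i) * ∑ k ∈ range K, g k / T k := by
  unfold wt4
  rw [sum_mul]
  apply sum_le_sum
  intro i _
  apply mul_le_mul_of_nonneg_left _ (hu i)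
  rw [← av_const hX i (∑ k ∈ range K, g k / T k)]
  apply av_mono
  intro d _
  apply sum_le_sum
  intro k _
  split_ifs
  · exact le_refl _
  · exact div_nonneg (hg k) (Nat.cast_nonneg _)

/-- The number of points of a set in a node. -/
theorem Weight_card_node {X : ℕ} {T : ℕ → ℕ} {N κ : ℕ} (C : Finset ℤ) {i d k : ℕ} (hi : i < κ)
    (hd : d ∈ Dil X i) (hk : T k ≤ N) :
    ((UU4 N (AllDil X κ) ∩ C).filter (· ∈ nod4 d (T k))).card =
      (lev (secd N C d) (T k)).card := by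
  have hd0 : (0 : ℤ) < d := by exact_mod_cast Dil_pos hd
  have hdA : d ∈ AllDil X κ := mem_biUnion.2 ⟨i, mem_range.2 hi, hd⟩
  symm
  apply card_bij (fun n _ => (d : ℤ) * n)
  · intro n hn
    rw [mem_lev] at hn
    obtain ⟨h1, h2⟩ := hn
    unfold secd at h1
    rw [mem_filter, mem_Icc] at h1
    obtain ⟨⟨h3, h4⟩, h5⟩ := h1
    rw [mem_filter, mem_inter]
    refine ⟨⟨Weight_mem_UU4.2 ⟨d, hdA, n, h3, h4, rfl⟩, h5⟩, ?_⟩
    unfold nod4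
    exact mem_image.2 ⟨n, mem_Icc.2 ⟨h3, h2⟩, rfl⟩
  · intro n _ n' _ h
    exact mul_left_cancel₀ hd0.ne' h
  · intro a ha
    rw [mem_filter, mem_inter] at ha
    obtain ⟨⟨_, h2⟩, h3⟩ := ha
    unfold nod4 at h3
    rw [mem_image] at h3
    obtain ⟨n, hn, rfl⟩ := h3
    rw [mem_Icc] at hn
    refine ⟨n, ?_, rfl⟩
    rw [mem_lev]
    refine ⟨?_, hn.2⟩
    unfold secd
    rw [mem_filter, mem_Icc]
    exact ⟨⟨hn.1, hn.2.trans (by exact_mod_cast hk)⟩, h2⟩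

theorem Weight_av_congr {X : ℕ} {i : ℕ} {φ ψ : ℕ → ℝ} (h : ∀ d ∈ Dil X i, φ d = ψ d) :
    av X i φ = av X i ψ :=
  le_antisymm (av_mono fun d hd => (h d hd).le) (av_mono fun d hd => (h d hd).ge)

theorem sum_wt4 {X : ℕ} {T : ℕ → ℕ} {N κ K : ℕ} (hT : ∀ k < K, T k ≤ N) (u g : ℕ → ℝ)
    (C : Finset ℤ) :
    ∑ a ∈ UU4 N (AllDil X κ) ∩ C, wt4 X κ K T u g a =
      ∑ i ∈ range κ, u i * av X i (fun d => ∑ k ∈ range K,
        g k * (((lev (secd N C d) (T k)).card : ℝ) / T k)) := by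
  classical
  unfold wt4
  rw [sum_comm]
  apply sum_congr rfl
  intro i hi
  rw [← mul_sum, ← av_sum]
  congr 1
  apply Weight_av_congr
  intro d hd
  rw [sum_comm]
  apply sum_congr rfl
  intro k hk
  rw [← Weight_card_node C (mem_range.1 hi) hd (hT k (mem_range.1 hk)), ← sum_filter, sum_const,
    nsmul_eq_mul]
  ring

theorem sum_wt4_UU {X : ℕ} (hX : 0 < X) {T : ℕ → ℕ} {N κ K : ℕ} (hT : ∀ k < K, T k ≤ N)
    (hT0 : ∀ k < K, 0 < T k) (u g : ℕ → ℝ) :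
    ∑ a ∈ UU4 N (AllDil X κ), wt4 X κ K T u g a =
      (∑ i ∈ range κ, u i) * ∑ k ∈ range K, g k := by
  have h := sum_wt4 (X := X) (κ := κ) hT u g (UU4 N (AllDil X κ))
  rw [inter_self] at h
  rw [h, sum_mul]
  apply sum_congr rfl
  intro i hi
  congr 1
  rw [← av_const hX i (∑ k ∈ range K, g k)]
  apply Weight_av_congr
  intro d hd
  have hdA : d ∈ AllDil X κ := mem_biUnion.2 ⟨i, hi, hd⟩
  apply sum_congr rfl
  intro k hk
  have h1 : lev (secd N (UU4 N (AllDil X κ)) d) (T k) = Icc (1 : ℤ) (T k) := by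
    ext n
    rw [mem_lev]
    unfold secd
    rw [mem_filter, mem_Icc, mem_Icc]
    constructor
    · rintro ⟨⟨⟨h1, _⟩, _⟩, h2⟩
      exact ⟨h1, h2⟩
    · rintro ⟨h1, h2⟩
      have h3 : n ≤ N := h2.trans (by exact_mod_cast hT k (mem_range.1 hk))
      exact ⟨⟨⟨h1, h3⟩, Weight_mem_UU4.2 ⟨d, hdA, n, h1, h3, rfl⟩⟩, h2⟩
  rw [h1, Int.card_Icc]
  have h2 : ((T k : ℤ) + 1 - 1).toNat = T k := by simp
  rw [h2]
  have h3 : (0 : ℝ) < T k := by exact_mod_cast hT0 k (mem_range.1 hk)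
  rw [div_self h3.ne', mul_one]

end SF4
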