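import Pool.Agent.SF4.Count
import Pool.Agent.SF4.Cont
import Pool.Agent.SF4.Weight
import Pool.Agent.SF3.Sets

/-!
# Module ASSEMBLE: containers, poor counts and a random set

Copy the proof of `SF3.assemble` (Pool/Agent/SF3/Sets.lean), with `UU L N κ` replaced by `UU4 N (AllDil X κ)`, `containers` by
`containers4`, `wt` by `wt4`, `poor_count3` by `poor_count4`, `κ * N` by `X ^ κ * N` (`card_UU4`, `card_AllDil`).
`p a = wt4 X κ K T u g a * (T₀ / (2 Λ))`, `u i = r₀ ^ i`, `g k = G ^ k`, `Λ = ∑ u i ≥ 1`, `Ω = ∑ g k`.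
`∑_{k<K} g k / T k ≤ 2 / T₀` as `G ^ k ≤ 2 ^ k`, `ρ ≥ 4` (`hG2`). Errors: `282 * (c * G ^ c) ≤ Ω / D` (`hΩ`, `G ^ c ≤ 2` since
`280 (G ^ c / r₀ - 1) + (G ^ c - 1) ≤ 1/8`, `r₀ ≤ 1`), `280 * G ^ c * r₀ ^ (κ - 1) ≤ 1 / D` (`hu`), so every container has
`p (C) ≤ (1/3 + 3/D) P`; `exists_random` with `δ = 1 / D`; in `hcard`: `(1/D)^2/4 * (T₀ Ω / 2) ≥ T₀ / D` as `Ω ≥ 8 D`.
-/

namespace SF4

open Finset SFree SF2 SF3

theorem Assemble_sum_inv (T₀ ρ K : ℕ) (hT₀ : 0 < T₀) (hρ : 4 ≤ ρ) {G : ℝ} (hG : 1 ≤ G)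
    (hG2 : G ≤ 2) : ∑ k ∈ range K, G ^ k / ((T₀ * ρ ^ k : ℕ) : ℝ) ≤ 2 / T₀ := by
  have hT : (0 : ℝ) < T₀ := by exact_mod_cast hT₀
  have hρr : (4 : ℝ) ≤ ρ := by exact_mod_cast hρ
  have h1 : ∀ k ∈ range K, G ^ k / ((T₀ * ρ ^ k : ℕ) : ℝ) ≤ (1 / T₀) * (1 / 2) ^ k := by
    intro k _
    have h2 : G ^ k * 2 ^ k ≤ (ρ : ℝ) ^ k := by
      rw [← mul_pow]
      apply pow_le_pow_left₀ (by linarith)
      linarith
    rw [one_div_pow, one_div_mul_one_div]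
    push_cast
    rw [div_le_div_iff₀ (by positivity) (by positivity)]
    nlinarith
  calc ∑ k ∈ range K, G ^ k / ((T₀ * ρ ^ k : ℕ) : ℝ)
      ≤ ∑ k ∈ range K, (1 / (T₀ : ℝ)) * (1 / 2) ^ k := sum_le_sum h1
    _ = (1 / (T₀ : ℝ)) * ∑ k ∈ range K, (1 / 2 : ℝ) ^ k := by rw [mul_sum]
    _ ≤ (1 / (T₀ : ℝ)) * 2 := by
        gcongr
        have h3 := geom_sum_eq (x := (1 / 2 : ℝ)) (by norm_num) K
        rw [h3]
        have h4 : (0 : ℝ) < (1 / 2) ^ K := by positivity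
        rw [div_le_iff_of_neg (by norm_num)]
        linarith
    _ = 2 / T₀ := by ring

theorem assemble4 {D R r m M X N T₀ ρ K n₀ c : ℕ} {η ε : ℝ}
    (h : Par D R r m M X N T₀ ρ K n₀ c η ε) {κ : ℕ} (hκ : 0 < κ) {G r₀ : ℝ} (hG : 1 ≤ G)
    (hG2 : G ≤ 2) (hg2 : G ^ n₀ ≤ 2) (hr0 : 0 < r₀) (hr1 : r₀ ≤ 1)
    (hC : 280 * (G ^ c / r₀ - 1) + (G ^ c - 1) ≤ 1 / 8)
    (hΩ : 600 * (c * D : ℝ) ≤ ∑ k ∈ range K, G ^ k) (hu : 600 * r₀ ^ (κ - 1) ≤ 1 / D)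
    (h₀ β : ℕ) (τ : ℝ) (hh₀ : 0 < h₀) (hh₀N : h₀ + 1 ≤ N) (hτ : 0 < τ)
    (hβ : (β : ℝ) ≤ h₀ * ε / 4)
    (hKW : Real.exp (-(τ / 2)) + Real.exp (-(τ / 2) * β) ≤ 1)
    (hbig : (N : ℝ) ^ (h₀ + 1) * Real.exp (-τ * (ε * N / 16 - h₀)) ≤ 1 / 2)
    (hsmall : τ * (X ^ κ * N) < T₀ / D) :
    ∃ A : Finset ℤ, (∀ a ∈ A, 0 < a) ∧ 0 < A.card ∧ A.card ≤ X ^ κ * N ∧
      ∀ B ⊆ A, SumFree (B : Set ℤ) → (B.card : ℝ) ≤ (1 / 3 + 5 / D) * A.card := by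
  have hD := h.hD
  have hD0 : (0 : ℝ) < D := by
    have : 0 < D := by omega
    exact_mod_cast this
  have hD100 : (100 : ℝ) ≤ D := by exact_mod_cast hD
  have hX2 : 2 ≤ X := by
    have := h.hX
    omega
  have hX0 : 0 < X := by omega
  have hρ4 : 4 ≤ ρ := by
    have := h.hX
    have := h.hXρ
    omega
  have hρ1 : 1 ≤ ρ := by omega
  have hT₀pos : 0 < T₀ := by
    have := h.hT₀
    omega
  have hc1 : 1 ≤ c := by
    have := h.hc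
    omega
  have hc1r : (1 : ℝ) ≤ c := by exact_mod_cast hc1
  obtain ⟨T, hTdef⟩ : ∃ T : ℕ → ℕ, T = fun k => T₀ * ρ ^ k := ⟨_, rfl⟩
  have hTN : ∀ k < K, T k ≤ N := by
    intro k hk
    rw [← h.hN, hTdef]
    exact Nat.mul_le_mul_left _ (Nat.pow_le_pow_right hρ1 hk.le)
  have hTpos : ∀ k < K, 0 < T k := by
    intro k _
    rw [hTdef]
    positivity
  have hQpos : ∀ d ∈ AllDil X κ, 0 < d := by
    intro d hd
    unfold AllDil at hd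
    rw [mem_biUnion] at hd
    obtain ⟨i, _, hi⟩ := hd
    exact Dil_pos hi
  obtain ⟨U, hU⟩ : ∃ U, U = UU4 N (AllDil X κ) := ⟨_, rfl⟩
  have hUcard : U.card ≤ X ^ κ * N := by
    rw [hU]
    exact (card_UU4 N _).trans (Nat.mul_le_mul_right _ (card_AllDil hX2 κ))
  obtain ⟨𝒞, h𝒞1, h𝒞2, h𝒞3⟩ := containers4 N (AllDil X κ) hQpos h₀ β ε τ hh₀ hh₀N h.hε0 hτ hβ
    hKW hbig U
  have h𝒞ne : 𝒞.Nonempty := by
    obtain ⟨C', hC', _⟩ := h𝒞1 ∅ (empty_subset _) (by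
      intro a ha
      simp at ha)
    exact ⟨C', hC'⟩
  have hT₀r : (0 : ℝ) < T₀ := by exact_mod_cast hT₀pos
  obtain ⟨u, hudef⟩ : ∃ u : ℕ → ℝ, u = fun i => r₀ ^ i := ⟨_, rfl⟩
  obtain ⟨g, hgdef⟩ : ∃ g : ℕ → ℝ, g = fun k => G ^ k := ⟨_, rfl⟩
  have hG0 : 0 ≤ G := by linarith
  have hu0 : ∀ i, 0 ≤ u i := fun i => by rw [hudef]; positivity
  have hg0 : ∀ i, 0 ≤ g i := fun i => by rw [hgdef]; positivity
  obtain ⟨Λ, hΛ⟩ : ∃ Λ : ℝ, Λ = ∑ i ∈ range κ, u i := ⟨_, rfl⟩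
  obtain ⟨Ω, hΩdef⟩ : ∃ Ω : ℝ, Ω = ∑ k ∈ range K, g k := ⟨_, rfl⟩
  have hΛ1 : 1 ≤ Λ := by
    rw [hΛ]
    have h1 : u 0 ≤ ∑ i ∈ range κ, u i :=
      single_le_sum (fun i _ => hu0 i) (mem_range.2 hκ)
    have h2 : u 0 = 1 := by rw [hudef]; norm_num
    linarith
  have hΛ0 : 0 < Λ := by linarith
  have hΩ1 : 600 * (c * D : ℝ) ≤ Ω := by
    rw [hΩdef, hgdef]
    exact hΩ
  have hΩ2 : 8 * (D : ℝ) ≤ Ω := by nlinarith
  have hΩ0 : 0 < Ω := by linarith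
  -- the probabilities
  obtain ⟨p, hp⟩ : ∃ p : ℤ → ℝ, p = fun a => wt4 X κ K T u g a * (T₀ / (2 * Λ)) := ⟨_, rfl⟩
  have hp0 : ∀ a ∈ U, 0 ≤ p a := by
    intro a _
    rw [hp]
    exact mul_nonneg (wt4_nonneg _ _ _ _ hu0 hg0 _) (by positivity)
  have hp1 : ∀ a ∈ U, p a ≤ 1 := by
    intro a _
    have h1 := wt4_le hX0 κ K T hu0 hg0 a
    have h2 := Assemble_sum_inv T₀ ρ K hT₀pos hρ4 hG hG2
    have h3 : ∑ k ∈ range K, g k / T k ≤ 2 / T₀ := by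
      rw [hgdef, hTdef]
      exact h2
    rw [← hΛ] at h1
    calc p a = wt4 X κ K T u g a * (T₀ / (2 * Λ)) := by rw [hp]
      _ ≤ (Λ * (2 / T₀)) * (T₀ / (2 * Λ)) := by
          apply mul_le_mul_of_nonneg_right _ (by positivity)
          refine h1.trans ?_
          exact mul_le_mul_of_nonneg_left h3 hΛ0.le
      _ = 1 := by field_simp
  have hsumU : ∑ a ∈ U, p a = T₀ * Ω / 2 := by
    rw [hp, hU]
    rw [← sum_mul, sum_wt4_UU hX0 hTN hTpos, ← hΛ, ← hΩdef]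
    field_simp
  have hα : (0 : ℝ) ≤ 1 / 3 + 3 / D := by positivity
  have hGc : G ^ c ≤ 2 := by
    have h1 : 1 ≤ G ^ c / r₀ := by
      rw [le_div_iff₀ hr0]
      have := one_le_pow₀ hG (n := c)
      linarith
    linarith
  have hGc0 : 0 ≤ G ^ c := by positivity
  have hCC : ∀ C ∈ 𝒞, ∑ a ∈ U ∩ C, p a ≤ (1 / 3 + 3 / D) * ∑ a ∈ U, p a := by
    intro C hC'
    have hpoor := (h𝒞2 C hC').2
    have h1 := poor_count4 h T hTdef hκ hG hg2 hr0 hr1 hC C hpoor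
    have h2 : ∑ a ∈ U ∩ C, p a = (∑ a ∈ U ∩ C, wt4 X κ K T u g a) * (T₀ / (2 * Λ)) := by
      rw [hp, sum_mul]
    have h3 : ∑ i ∈ range κ, r₀ ^ i * av X i (fun d => ∑ k ∈ range K, G ^ k * ee N T C d k) =
        ∑ i ∈ range κ, u i * av X i (fun d => ∑ k ∈ range K,
          g k * (((lev (secd N C d) (T k)).card : ℝ) / T k)) - Λ * (Ω / 3) := by
      rw [hΛ, sum_mul, ← sum_sub_distrib]
      apply sum_congr rfl
      intro i _
      rw [← mul_sub, hudef]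
      congr 1
      rw [← av_const hX0 i (Ω / 3), ← av_sub]
      congr 1
      funext d
      rw [hΩdef, hgdef, sum_div, ← sum_sub_distrib]
      apply sum_congr rfl
      intro k _
      unfold ee
      ring
    rw [h3] at h1
    have h4 : (∑ i ∈ range κ, r₀ ^ i) = Λ := by rw [hΛ, hudef]
    have h5 : (∑ k ∈ range K, G ^ k) = Ω := by rw [hΩdef, hgdef]
    rw [h4, h5] at h1
    rw [h2, hU, sum_wt4 hTN u g C, ← hU, hsumU]
    have h6 : Λ * (1 / (D : ℝ) * Ω + 282 * (c * G ^ c)) + 280 * G ^ c * r₀ ^ (κ - 1) * Ω ≤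
        3 / D * (Λ * Ω) := by
      have h7 : 282 * (c * G ^ c) ≤ 1 / D * Ω := by
        rw [one_div_mul_eq_div, le_div_iff₀ hD0]
        have h71 : (c : ℝ) * G ^ c ≤ c * 2 := mul_le_mul_of_nonneg_left hGc (by linarith)
        have h72 : 282 * (c * G ^ c) * D ≤ 282 * (c * 2) * (D : ℝ) := by
          apply mul_le_mul_of_nonneg_right _ hD0.le
          linarith only [h71]
        have h73 : (0 : ℝ) ≤ c * D := by positivity
        have h74 : 282 * (c * 2) * (D : ℝ) = 564 * (c * D) := by ring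
        linarith only [h72, h73, h74, hΩ1]
      have h8 : 280 * G ^ c * r₀ ^ (κ - 1) * Ω ≤ 1 / D * (Λ * Ω) := by
        have h90 : 0 ≤ r₀ ^ (κ - 1) := by positivity
        have h91 : 280 * G ^ c * r₀ ^ (κ - 1) ≤ 280 * 2 * r₀ ^ (κ - 1) := by
          apply mul_le_mul_of_nonneg_right _ h90
          linarith
        have h9 : 280 * G ^ c * r₀ ^ (κ - 1) ≤ 1 / D := by linarith only [h90, h91, hu]
        have h10 : 280 * G ^ c * r₀ ^ (κ - 1) * Ω ≤ 1 / D * Ω :=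
          mul_le_mul_of_nonneg_right h9 hΩ0.le
        have h11 : 1 / D * Ω ≤ 1 / D * (Λ * Ω) := by
          apply mul_le_mul_of_nonneg_left _ (by positivity)
          exact le_mul_of_one_le_left hΩ0.le hΛ1
        exact h10.trans h11
      have h12 : Λ * (1 / (D : ℝ) * Ω + 282 * (c * G ^ c)) ≤ Λ * (1 / D * Ω + 1 / D * Ω) :=
        mul_le_mul_of_nonneg_left (by linarith) hΛ0.le
      have h13 : Λ * (1 / (D : ℝ) * Ω + 1 / D * Ω) = 2 * (1 / D * (Λ * Ω)) := by ring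
      have h14 : 3 / (D : ℝ) * (Λ * Ω) = 3 * (1 / D * (Λ * Ω)) := by ring
      rw [h14]
      clear h1 h2 h3 h4 h5
      linarith only [h12, h13, h8]
    calc (∑ i ∈ range κ, u i * av X i (fun d => ∑ k ∈ range K,
          g k * (((lev (secd N C d) (T k)).card : ℝ) / T k))) * (T₀ / (2 * Λ))
        ≤ ((1 / 3 + 3 / (D : ℝ)) * (Λ * Ω)) * (T₀ / (2 * Λ)) := by
          apply mul_le_mul_of_nonneg_right _ (by positivity)
          have h14 : (1 / 3 + 3 / (D : ℝ)) * (Λ * Ω) = Λ * (Ω / 3) + 3 / D * (Λ * Ω) := by ring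
          rw [h14]
          linarith only [h1, h6]
      _ = (1 / 3 + 3 / D) * (T₀ * Ω / 2) := by field_simp
  have hcard𝒞 : (𝒞.card : ℝ) ≤ Real.exp (τ * (X ^ κ * N)) := by
    have h1 : ∀ C' ∈ 𝒞, Real.exp (-(τ * (X ^ κ * N))) ≤ Real.exp (-τ * ((U \ C').card : ℝ)) := by
      intro C' _
      rw [Real.exp_le_exp]
      have h2 : (U \ C').card ≤ X ^ κ * N := (card_le_card sdiff_subset).trans hUcard
      have h3 : ((U \ C').card : ℝ) ≤ X ^ κ * N := by exact_mod_cast h2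
      nlinarith
    have h2 : (𝒞.card : ℝ) * Real.exp (-(τ * (X ^ κ * N))) ≤ 1 := by
      calc (𝒞.card : ℝ) * Real.exp (-(τ * (X ^ κ * N)))
          = ∑ C' ∈ 𝒞, Real.exp (-(τ * (X ^ κ * N))) := by rw [sum_const, nsmul_eq_mul]
        _ ≤ ∑ C' ∈ 𝒞, Real.exp (-τ * ((U \ C').card : ℝ)) := sum_le_sum h1
        _ ≤ 1 := h𝒞3
    rw [Real.exp_neg] at h2
    have h3 := Real.exp_pos (τ * (X ^ κ * N))
    rw [← div_eq_mul_inv, div_le_one h3] at h2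
    exact h2
  have hcard : (𝒞.card : ℝ) < Real.exp ((1 / (D : ℝ)) ^ 2 / 4 * ∑ a ∈ U, p a) := by
    refine hcard𝒞.trans_lt ?_
    rw [Real.exp_lt_exp, hsumU]
    refine hsmall.trans_le ?_
    have h1 : (1 / (D : ℝ)) ^ 2 / 4 * (T₀ * Ω / 2) = T₀ / D * (Ω / (8 * D)) := by
      field_simp
      norm_num
    rw [h1]
    have h2 : 1 ≤ Ω / (8 * D) := by
      rw [le_div_iff₀ (by positivity)]
      linarith
    have h3 : 0 ≤ (T₀ : ℝ) / D := by positivity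
    nlinarith
  obtain ⟨A, hAU, hAne, hA⟩ := exists_random U p hp0 hp1 𝒞 h𝒞ne (1 / 3 + 3 / D) (1 / D) hα
    (by positivity) (by
      have : (4 : ℝ) / D ≤ 4 / 100 := by gcongr
      have h4 : (3 : ℝ) / D + 1 / D = 4 / D := by ring
      linarith) hCC hcard
  refine ⟨A, ?_, card_pos.2 hAne, (card_le_card hAU).trans hUcard, ?_⟩
  · intro a ha
    have := hAU ha
    rw [hU] at this
    exact UU4_pos hQpos this
  · intro B hB hBs
    obtain ⟨C', hC', hBC⟩ := h𝒞1 B (hB.trans hAU) hBs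
    have h1 : B ⊆ A ∩ C' := subset_inter hB hBC
    have h2 : (B.card : ℝ) ≤ (A ∩ C').card := by exact_mod_cast card_le_card h1
    have h3 := hA C' hC'
    have h4 : (1 / 3 + 3 / (D : ℝ) + 1 / D) ≤ 1 / 3 + 5 / D := by
      have h5 : (3 : ℝ) / D + 1 / D = 4 / D := by ring
      have h6 : (4 : ℝ) / D ≤ 5 / D := by gcongr; norm_num
      linarith
    have h5 : (0 : ℝ) ≤ A.card := Nat.cast_nonneg _
    calc (B.card : ℝ) ≤ (1 / 3 + 3 / D + 1 / D) * A.card := h2.trans h3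
      _ ≤ (1 / 3 + 5 / D) * A.card := mul_le_mul_of_nonneg_right h4 h5

end SF4
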