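import Pool.Agent.SFree.Asym

/-!
# Module ASYM: from the sets for the parameters `D` to all `n`

Proof (compare Pool/Agent/SF3/Asym.lean). Let `x = log n`, `y = √(x / log x)`, `D = ⌊exp (2 c y)⌋₊` for a small `c > 0`. For large `n`:
`D ≥ D₀`, `log D ≤ 2 c y`, `log log D ≤ log x`, so `log |A| ≤ C₁ * 4 c² y² * log x = 4 C₁ c² x ≤ x / 2`, `|A| ≤ √n`.
`Asy.f_le`: `f n ≤ (1/3 + 5/D) n + |A| ≤ n / 3 + 10 exp (-2 c y) n + √n ≤ n / 3 + n exp (-c y)` for large `n`
(`10 exp (-c y) ≤ 1/2`, `√n ≤ n exp (-c y) / 2` as `c y ≤ x / 4`).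
-/

namespace SF4

open Finset SFree

theorem asym4
    (h : ∃ C₀ : ℝ, ∃ D₀ : ℕ, ∀ D : ℕ, D₀ ≤ D → ∃ A : Finset ℤ, (∀ a ∈ A, 0 < a) ∧ 0 < A.card ∧
      Real.log A.card ≤ C₀ * Real.log D ^ 2 * Real.log (Real.log D) ∧
      ∀ B ⊆ A, SumFree (B : Set ℤ) → (B.card : ℝ) ≤ (1 / 3 + 5 / D) * A.card) :
    ∃ c : ℝ, 0 < c ∧ ∃ n₀ : ℕ, ∀ n : ℕ, n₀ ≤ n → (f n : ℝ) ≤
      n / 3 + n * Real.exp (-(c * √(Real.log n / Real.log (Real.log n)))) := by
  obtain ⟨C₀, D₀, hC₀⟩ := h
  set C₁ : ℝ := max C₀ 1 with hC₁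
  have hC₁1 : 1 ≤ C₁ := le_max_right _ _
  have hC₁0 : 0 < C₁ := by linarith
  set c : ℝ := 1 / (4 * C₁) with hc
  have hc0 : 0 < c := by positivity
  have hc1 : c ≤ 1 / 4 := by
    rw [hc]
    apply one_div_le_one_div_of_le (by norm_num)
    linarith
  have hcC : 4 * C₁ * c ^ 2 ≤ 1 / 2 := by
    have h1 : 4 * C₁ * c = 1 := by
      rw [hc]; field_simp
    have h2 : 4 * C₁ * c ^ 2 = c := by
      calc 4 * C₁ * c ^ 2 = (4 * C₁ * c) * c := by ring
        _ = c := by rw [h1]; ring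
    rw [h2]; linarith
  refine ⟨c, hc0, ?_⟩
  have hLtend : Filter.Tendsto (fun n : ℕ => Real.log (Real.log n)) Filter.atTop Filter.atTop :=
    Real.tendsto_log_atTop.comp (Real.tendsto_log_atTop.comp tendsto_natCast_atTop_atTop)
  have hltend : Filter.Tendsto (fun n : ℕ => Real.log n) Filter.atTop Filter.atTop :=
    Real.tendsto_log_atTop.comp tendsto_natCast_atTop_atTop
  set K : ℝ := max 19 (D₀ : ℝ) with hK
  have hK19 : 19 ≤ K := le_max_left _ _
  have hKD : (D₀ : ℝ) ≤ K := le_max_right _ _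
  have hK0 : 0 < K := by linarith
  set Y : ℝ := K / c with hY
  have hY0 : 0 < Y := by positivity
  have hlogo : ∀ᶠ x : ℝ in Filter.atTop, Real.log x ≤ (1 / Y ^ 2) * x := by
    have h1 := Real.isLittleO_log_id_atTop.bound (show (0 : ℝ) < 1 / Y ^ 2 by positivity)
    filter_upwards [h1, Filter.eventually_ge_atTop (1 : ℝ)] with x hx hx1
    rw [Real.norm_of_nonneg (Real.log_nonneg hx1), id, Real.norm_of_nonneg (by linarith)] at hx
    exact hx
  have hev : ∀ᶠ n : ℕ in Filter.atTop, 1 ≤ Real.log (Real.log n) ∧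
      Real.log (Real.log n) ≤ (1 / Y ^ 2) * Real.log n ∧
      4 ≤ Real.log n ∧ 1 ≤ (n : ℝ) := by
    filter_upwards [hLtend.eventually_ge_atTop 1, hltend.eventually hlogo,
      hltend.eventually_ge_atTop 4, Filter.eventually_ge_atTop 1] with n h1 h2 h3 h4
    exact ⟨h1, h2, h3, by exact_mod_cast h4⟩
  obtain ⟨n₀, hn₀⟩ := Filter.eventually_atTop.1 hev
  refine ⟨n₀, fun n hn => ?_⟩
  obtain ⟨hL1, hL2, hl4, hn1⟩ := hn₀ n hn
  set l : ℝ := Real.log n with hl
  set L : ℝ := Real.log l with hL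
  have hl0 : 0 < l := by linarith
  have hL0 : 0 < L := by linarith
  have hn0 : (0 : ℝ) < n := by linarith
  set y : ℝ := √(l / L) with hy
  have hyY : Y ≤ y := by
    rw [hy]
    apply Real.le_sqrt_of_sq_le
    rw [le_div_iff₀ hL0]
    calc Y ^ 2 * L ≤ Y ^ 2 * ((1 / Y ^ 2) * l) := by gcongr
      _ = l := by field_simp
  have hy0 : 0 < y := by linarith
  have hysq : y ^ 2 = l / L := Real.sq_sqrt (by positivity)
  have hyl : y ≤ l := by
    rw [hy]
    apply Real.sqrt_le_iff.2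
    refine ⟨hl0.le, ?_⟩
    calc l / L ≤ l := div_le_self hl0.le hL1
      _ ≤ l ^ 2 := by nlinarith
  have hcy : K ≤ c * y := by
    calc K = c * Y := by rw [hY]; field_simp
      _ ≤ c * y := by gcongr
  set x : ℝ := Real.exp (2 * c * y) with hx
  have hx0 : 0 < x := Real.exp_pos _
  have hxK : K ≤ x := by
    have h1 := Real.add_one_le_exp (2 * c * y)
    rw [← hx] at h1
    nlinarith
  set D : ℕ := ⌊x⌋₊ with hD
  have hD3 : 3 ≤ D := by
    rw [hD]; exact Nat.le_floor (by push_cast; linarith)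
  have hDD : D₀ ≤ D := by
    rw [hD]; exact Nat.le_floor (by linarith)
  have hDx : (D : ℝ) ≤ x := Nat.floor_le hx0.le
  have hDx' : x / 2 ≤ D := by
    have h1 := Nat.lt_floor_add_one x
    rw [← hD] at h1
    have : (1 : ℝ) ≤ D := by exact_mod_cast (by omega : 1 ≤ D)
    linarith
  have hD0 : (0 : ℝ) < D := by exact_mod_cast (by omega : 0 < D)
  obtain ⟨A, hpos, hA0, hAlog, hA⟩ := hC₀ D hDD
  have hf := Asy.f_le (by positivity) hpos hA0 hA n
  have hlogD1 : 1 ≤ Real.log D := by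
    rw [Real.le_log_iff_exp_le hD0]
    have h1 : Real.exp 1 ≤ 3 := by
      have := Real.exp_one_lt_d9
      linarith
    exact h1.trans (by exact_mod_cast hD3)
  have hlogD : Real.log D ≤ 2 * c * y := by
    have h1 := Real.log_le_log hD0 hDx
    rwa [hx, Real.log_exp] at h1
  have hllD0 : 0 ≤ Real.log (Real.log D) := Real.log_nonneg hlogD1
  have hllD : Real.log (Real.log D) ≤ L := by
    apply Real.log_le_log (by linarith)
    refine hlogD.trans ?_
    have h1 : 2 * c * y ≤ 1 * y := by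
      apply mul_le_mul_of_nonneg_right _ hy0.le
      linarith
    linarith
  have hlogA : Real.log A.card ≤ l / 2 := by
    calc Real.log A.card ≤ C₀ * Real.log D ^ 2 * Real.log (Real.log D) := hAlog
      _ ≤ C₁ * Real.log D ^ 2 * Real.log (Real.log D) := by
        gcongr
        exact le_max_left _ _
      _ ≤ C₁ * (2 * c * y) ^ 2 * L := by gcongr
      _ = (4 * C₁ * c ^ 2) * (y ^ 2 * L) := by ring
      _ = (4 * C₁ * c ^ 2) * l := by
        rw [hysq]
        congr 1
        field_simp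
      _ ≤ (1 / 2) * l := by gcongr
      _ = l / 2 := by ring
  have hAcard : (A.card : ℝ) ≤ Real.sqrt n := by
    have h1 : Real.log A.card ≤ Real.log (Real.sqrt n) := by
      rw [Real.log_sqrt hn0.le]; exact hlogA
    exact (Real.log_le_log_iff (by exact_mod_cast hA0) (Real.sqrt_pos.2 hn0)).1 h1
  have hexp0 : 0 < Real.exp (-(c * y)) := Real.exp_pos _
  -- `√n ≤ n exp (-c y) / 2`
  have hsn : Real.sqrt n ≤ n * Real.exp (-(c * y)) / 2 := by
    have h1 : Real.sqrt n = n * Real.exp (-(l / 2)) := by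
      have h2 : (n : ℝ) = Real.exp l := (Real.exp_log hn0).symm
      have h3 : Real.sqrt n = Real.exp (l / 2) := by
        rw [← Real.log_sqrt hn0.le, Real.exp_log (Real.sqrt_pos.2 hn0)]
      rw [h3]
      calc Real.exp (l / 2) = Real.exp l * Real.exp (-(l / 2)) := by
            rw [← Real.exp_add]; congr 1; ring
        _ = n * Real.exp (-(l / 2)) := by rw [← h2]
    rw [h1]
    have h4 : Real.exp (-(l / 2)) ≤ Real.exp (-(c * y)) / 2 := by
      have h5 : Real.exp (-(l / 2)) = Real.exp (-(l / 4)) * Real.exp (-(l / 4)) := by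
        rw [← Real.exp_add]; congr 1; ring
      have h6 : Real.exp (-(l / 4)) ≤ Real.exp (-(c * y)) := by
        apply Real.exp_le_exp.2
        have : c * y ≤ 1 / 4 * l := by
          calc c * y ≤ 1 / 4 * y := by gcongr
            _ ≤ 1 / 4 * l := by gcongr
        linarith
      have h7 : Real.exp (-(l / 4)) ≤ 1 / 2 := by
        have h8 : 2 ≤ Real.exp (l / 4) := by
          have := Real.add_one_le_exp (l / 4)
          linarith
        rw [Real.exp_neg, ← one_div]
        exact one_div_le_one_div_of_le (by norm_num) h8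
      rw [h5]
      calc Real.exp (-(l / 4)) * Real.exp (-(l / 4)) ≤ Real.exp (-(c * y)) * (1 / 2) := by gcongr
        _ = _ := by ring
    calc (n : ℝ) * Real.exp (-(l / 2)) ≤ n * (Real.exp (-(c * y)) / 2) := by gcongr
      _ = _ := by ring
  have h5D : 5 / (D : ℝ) ≤ Real.exp (-(c * y)) / 2 := by
    have h1 : 5 / (D : ℝ) ≤ 5 / (x / 2) := by
      have : 0 < x / 2 := by positivity
      gcongr
    refine h1.trans ?_
    have h2 : 20 ≤ Real.exp (c * y) := by
      have := Real.add_one_le_exp (c * y)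
      linarith
    have h3 : x = Real.exp (c * y) * Real.exp (c * y) := by
      rw [hx, ← Real.exp_add]; congr 1; ring
    rw [h3, Real.exp_neg]
    set w := Real.exp (c * y) with hw
    have hw0 : 0 < w := Real.exp_pos _
    have h4 : 5 / (w * w / 2) = 10 / (w * w) := by field_simp; norm_num
    have h5 : w⁻¹ / 2 = (w / 2) / (w * w) := by field_simp
    rw [h4, h5]
    gcongr
    linarith
  calc (f n : ℝ) ≤ (1 / 3 + 5 / D) * n + A.card := hf
    _ ≤ (1 / 3 + Real.exp (-(c * y)) / 2) * n + n * Real.exp (-(c * y)) / 2 := by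
      gcongr
      exact hAcard.trans hsn
    _ = n / 3 + n * Real.exp (-(c * y)) := by ring

end SF4
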