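import Pool.Agent.SF4.Defs

/-!
# Module AV: the averages over the random dilates
-/

namespace SF4

open Finset SFree SF2

theorem Dil_pos {X i d : ℕ} (h : d ∈ Dil X i) : 0 < d := by
  induction i generalizing d with
  | zero =>
    rw [Dil, mem_singleton] at h
    rw [h]
    exact one_pos
  | succ i ih =>
    rw [Dil, mem_image] at h
    obtain ⟨p, hp, rfl⟩ := h
    rw [mem_product] at hp
    exact Nat.mul_pos (ih hp.1) (mem_Icc.1 hp.2).1

theorem card_Dil (X i : ℕ) : (Dil X i).card ≤ X ^ i := by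
  induction i with
  | zero => simp [Dil]
  | succ i ih =>
    rw [Dil, pow_succ]
    refine card_image_le.trans ?_
    rw [card_product, Nat.card_Icc, Nat.add_sub_cancel]
    exact Nat.mul_le_mul_right X ih

theorem mul_mem_Dil {X i d m : ℕ} (hd : d ∈ Dil X i) (hm : m ∈ Icc 1 X) : d * m ∈ Dil X (i + 1) := by
  rw [Dil, mem_image]
  exact ⟨(d, m), mem_product.2 ⟨hd, hm⟩, rfl⟩

theorem card_AllDil {X : ℕ} (hX : 2 ≤ X) (κ : ℕ) : (AllDil X κ).card ≤ X ^ κ := by
  unfold AllDil
  refine card_biUnion_le.trans ?_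
  refine (sum_le_sum fun i _ => card_Dil X i).trans ?_
  induction κ with
  | zero => simp
  | succ κ ih =>
    rw [sum_range_succ, pow_succ]
    have h1 : X ^ κ * 2 ≤ X ^ κ * X := Nat.mul_le_mul_left _ hX
    omega

theorem av_mono {X : ℕ} {i : ℕ} {φ ψ : ℕ → ℝ} (h : ∀ d ∈ Dil X i, φ d ≤ ψ d) :
    av X i φ ≤ av X i ψ := by
  induction i generalizing φ ψ with
  | zero =>
    exact h 1 (by simp [Dil])
  | succ i ih =>
    rw [av, av]
    apply ih
    intro d hd
    unfold avg
    gcongr with m hm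
    exact h _ (mul_mem_Dil hd hm)

theorem av_add {X : ℕ} (i : ℕ) (φ ψ : ℕ → ℝ) :
    av X i (fun d => φ d + ψ d) = av X i φ + av X i ψ := by
  induction i generalizing φ ψ with
  | zero => rfl
  | succ i ih =>
    rw [av, av, av, ← ih]
    congr 1
    funext d
    unfold avg
    rw [sum_add_distrib, add_div]

theorem av_mul_left {X : ℕ} (i : ℕ) (c : ℝ) (φ : ℕ → ℝ) :
    av X i (fun d => c * φ d) = c * av X i φ := by
  induction i generalizing φ with
  | zero => rfl
  | succ i ih =>
    rw [av, av, ← ih]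
    congr 1
    funext d
    unfold avg
    rw [← mul_sum, mul_div_assoc]

theorem av_const {X : ℕ} (hX : 0 < X) (i : ℕ) (c : ℝ) : av X i (fun _ => c) = c := by
  induction i with
  | zero => rfl
  | succ i ih =>
    rw [av]
    have h : avg X (fun _ => c) = fun _ => c := by
      funext d
      unfold avg
      rw [sum_const, Nat.card_Icc, Nat.add_sub_cancel, nsmul_eq_mul]
      have h1 : (X : ℝ) ≠ 0 := by exact_mod_cast hX.ne'
      field_simp
    rw [h, ih]

theorem av_sub {X : ℕ} (i : ℕ) (φ ψ : ℕ → ℝ) :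
    av X i (fun d => φ d - ψ d) = av X i φ - av X i ψ := by
  induction i generalizing φ ψ with
  | zero => rfl
  | succ i ih =>
    rw [av, av, av, ← ih]
    congr 1
    funext d
    unfold avg
    rw [sum_sub_distrib, sub_div]

theorem av_sum {X : ℕ} (i : ℕ) {ι : Type*} (s : Finset ι) (φ : ι → ℕ → ℝ) :
    av X i (fun d => ∑ k ∈ s, φ k d) = ∑ k ∈ s, av X i (φ k) := by
  induction i generalizing φ with
  | zero => rfl
  | succ i ih =>
    have h : avg X (fun d => ∑ k ∈ s, φ k d) = fun d => ∑ k ∈ s, avg X (φ k) d := by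
      funext d
      unfold avg
      rw [sum_comm, sum_div]
    rw [av, h, ih]
    rfl

theorem av_nonneg {X i : ℕ} {φ : ℕ → ℝ} (h : ∀ d ∈ Dil X i, 0 ≤ φ d) : 0 ≤ av X i φ := by
  induction i generalizing φ with
  | zero =>
    exact h 1 (by simp [Dil])
  | succ i ih =>
    rw [av]
    apply ih
    intro d hd
    unfold avg
    apply div_nonneg _ (Nat.cast_nonneg _)
    exact sum_nonneg fun m hm => h _ (mul_mem_Dil hd hm)

end SF4
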