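import Mathlib

/-!
# Module AVGSUM: summation over the generations (pure real numbers)

Write `Ω = ∑_{k<K} g ^ k`, `Λ = ∑_{i<κ} r ^ i`, `W = ∑_{i<κ} r ^ i ∑_{k<K} g ^ k * z i k`.
Proof. Sum the hypothesis `hE` with the weights `r ^ i`.
(1) `∑_i r ^ i ∑_{k ∈ Ico c K} g ^ k z (i+1) (k-c) ≤ g ^ c ∑_i r ^ i ∑_{k' < K} g ^ k' z (i+1) k'
   = (g ^ c / r) ∑_{i'=1}^{κ} r ^ i' ∑_{k'} g ^ k' z i' k' ≤ (g ^ c / r) (W + r ^ κ Ω)`.
(2) `∑_{k ∈ Ico c K} g ^ k z i (k-c+1) ≥ ∑_{k ∈ Ico c K} g ^ k z i k` (antitone, `c ≥ 1`) `≥ ∑_{k<K} g ^ k z i k - c g ^ c`.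
(3) `∑_{k ∈ Ico c K} g ^ k z i (k-c+1) ≤ g ^ c ∑_{k'<K} g ^ k' z i k'` (`k' = k - c + 1 < K`, `g ^ k ≤ g ^ c * g ^ k'`).
So the sum of the `C₂` terms is at most `C₂ ((g ^ c / r - 1) W + (g ^ c / r) r ^ κ Ω + Λ c g ^ c)`, the sum of the
`z i (k-c+1) - z i k` terms at most `(g ^ c - 1) W + Λ c g ^ c`, `∑_{k<c} g ^ k ≤ c g ^ c`. By `hC` the coefficient of `W` is
`≤ 0` (`W ≥ 0`). Note `(g ^ c / r) r ^ κ = g ^ c r ^ (κ - 1)`.
-/

namespace SF4

open Finset

/-- shift of the summation index -/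
theorem AvgSum_shift {K c : ℕ} {g : ℝ} (hg : 1 ≤ g) (s : ℕ) (hs : s ≤ c) (y : ℕ → ℝ)
    (hy : ∀ k < K, 0 ≤ y k) :
    ∑ k ∈ Ico c K, g ^ k * y (k - s) ≤ g ^ s * ∑ k ∈ range K, g ^ k * y k := by
  have hg0 : 0 < g := by linarith
  have h1 : ∑ k ∈ Ico c K, g ^ k * y (k - s) = g ^ s * ∑ k ∈ Ico (c - s) (K - s), g ^ k * y k := by
    rw [Finset.mul_sum]
    by_cases hcK : c ≤ K
    · have h2 : Ico c K = (Ico (c - s) (K - s)).image (fun k => k + s) := by
        ext k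
        simp only [mem_Ico, mem_image]
        constructor
        · rintro ⟨h3, h4⟩
          exact ⟨k - s, ⟨by omega, by omega⟩, by omega⟩
        · rintro ⟨k', ⟨h3, h4⟩, rfl⟩
          constructor <;> omega
      rw [h2, Finset.sum_image (by intro a _ b _ h; simpa using h)]
      refine Finset.sum_congr rfl fun k _ => ?_
      rw [Nat.add_sub_cancel, pow_add]
      ring
    · rw [Finset.Ico_eq_empty_of_le (by omega), Finset.Ico_eq_empty_of_le (by omega)]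
      simp
  rw [h1]
  apply mul_le_mul_of_nonneg_left _ (pow_nonneg hg0.le _)
  apply Finset.sum_le_sum_of_subset_of_nonneg
  · intro k hk
    rw [mem_Ico] at hk
    rw [mem_range]
    omega
  · intro k hk _
    rw [mem_range] at hk
    exact mul_nonneg (pow_nonneg hg0.le _) (hy k hk)

theorem avg_sum {κ K c : ℕ} (hκ : 0 < κ) (hc : 0 < c) {g r δ C₂ : ℝ} (hg : 1 ≤ g) (hr0 : 0 < r)
    (hr1 : r ≤ 1) (hδ : 0 ≤ δ) (hC₂ : 0 ≤ C₂)
    (hC : C₂ * (g ^ c / r - 1) + (g ^ c - 1) ≤ 1 / 8) (Ex : ℕ → ℝ) (z : ℕ → ℕ → ℝ)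
    (hz0 : ∀ i ≤ κ, ∀ k < K, 0 ≤ z i k) (hz1 : ∀ i ≤ κ, ∀ k < K, z i k ≤ 1)
    (hanti : ∀ i < κ, ∀ k k', k ≤ k' → k' < K → z i k' ≤ z i k)
    (hE : ∀ i < κ, Ex i ≤ ∑ k ∈ range c, g ^ k + δ * ∑ k ∈ range K, g ^ k +
      ∑ k ∈ Ico c K, g ^ k * (C₂ * (z (i + 1) (k - c) - z i (k - c + 1)) +
        (z i (k - c + 1) - z i k)) - 1 / 8 * ∑ k ∈ range K, g ^ k * z i k) :
    ∑ i ∈ range κ, r ^ i * Ex i ≤
      (∑ i ∈ range κ, r ^ i) * (δ * ∑ k ∈ range K, g ^ k + (C₂ + 2) * (c * g ^ c)) +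
        C₂ * g ^ c * r ^ (κ - 1) * ∑ k ∈ range K, g ^ k := by
  have hg0 : 0 < g := by linarith
  have hgc0 : 0 < g ^ c := pow_pos hg0 c
  have hgc1 : 1 ≤ g ^ c := one_le_pow₀ hg
  set Om : ℝ := ∑ k ∈ range K, g ^ k with hOm
  set Z : ℕ → ℝ := fun i => ∑ k ∈ range K, g ^ k * z i k with hZ
  have hZ0 : ∀ i ≤ κ, 0 ≤ Z i := fun i hi => Finset.sum_nonneg fun k hk =>
    mul_nonneg (pow_nonneg hg0.le _) (hz0 i hi k (mem_range.1 hk))
  have hZ1 : ∀ i ≤ κ, Z i ≤ Om := by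
    intro i hi
    refine Finset.sum_le_sum fun k hk => ?_
    have := mul_le_mul_of_nonneg_left (hz1 i hi k (mem_range.1 hk)) (pow_nonneg hg0.le k)
    linarith
  -- the sum of the first powers
  have hfirst : ∑ k ∈ range c, g ^ k ≤ c * g ^ c := by
    calc ∑ k ∈ range c, g ^ k ≤ ∑ k ∈ range c, g ^ c := by
          refine Finset.sum_le_sum fun k hk => ?_
          exact pow_le_pow_right₀ hg (mem_range.1 hk).le
      _ = c * g ^ c := by simp
  have main : ∀ i < κ, Ex i ≤ (C₂ + 2) * (c * g ^ c) + δ * Om + C₂ * g ^ c * Z (i + 1) +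
      (g ^ c - 1 - 1 / 8 - C₂) * Z i := by
    intro i hi
    have h1 : ∑ k ∈ Ico c K, g ^ k * z (i + 1) (k - c) ≤ g ^ c * Z (i + 1) :=
      AvgSum_shift hg c le_rfl (z (i + 1)) (fun k hk => hz0 (i + 1) hi k hk)
    have h3 : ∑ k ∈ Ico c K, g ^ k * z i (k - c + 1) ≤ g ^ c * Z i := by
      have h4 : ∑ k ∈ Ico c K, g ^ k * z i (k - (c - 1)) ≤ g ^ (c - 1) * Z i :=
        AvgSum_shift hg (c - 1) (by omega) (z i) (fun k hk => hz0 i hi.le k hk)
      have h5 : ∑ k ∈ Ico c K, g ^ k * z i (k - c + 1) =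
          ∑ k ∈ Ico c K, g ^ k * z i (k - (c - 1)) := by
        refine Finset.sum_congr rfl fun k hk => ?_
        rw [mem_Ico] at hk
        have : k - c + 1 = k - (c - 1) := by omega
        rw [this]
      rw [h5]
      refine le_trans h4 ?_
      exact mul_le_mul_of_nonneg_right (pow_le_pow_right₀ hg (by omega)) (hZ0 i hi.le)
    have h6 : ∑ k ∈ Ico c K, g ^ k * z i k ≤ ∑ k ∈ Ico c K, g ^ k * z i (k - c + 1) := by
      refine Finset.sum_le_sum fun k hk => ?_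
      rw [mem_Ico] at hk
      exact mul_le_mul_of_nonneg_left (hanti i hi _ _ (by omega) hk.2) (pow_nonneg hg0.le _)
    have h7 : Z i - c * g ^ c ≤ ∑ k ∈ Ico c K, g ^ k * z i k := by
      have h8 : Z i ≤ ∑ k ∈ Ico c K, g ^ k * z i k + ∑ k ∈ range c, g ^ k := by
        have h9 : Z i = ∑ k ∈ (range K).filter (fun k => c ≤ k), g ^ k * z i k +
            ∑ k ∈ (range K).filter (fun k => ¬ c ≤ k), g ^ k * z i k :=
          (Finset.sum_filter_add_sum_filter_not _ _ _).symm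
        have h10 : (range K).filter (fun k => c ≤ k) = Ico c K := by
          ext k
          simp only [mem_filter, mem_range, mem_Ico]
          tauto
        rw [h9, h10]
        have h11 : ∑ k ∈ (range K).filter (fun k => ¬ c ≤ k), g ^ k * z i k ≤
            ∑ k ∈ range c, g ^ k := by
          calc ∑ k ∈ (range K).filter (fun k => ¬ c ≤ k), g ^ k * z i k ≤
              ∑ k ∈ (range K).filter (fun k => ¬ c ≤ k), g ^ k := by
                refine Finset.sum_le_sum fun k hk => ?_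
                rw [mem_filter, mem_range] at hk
                have := mul_le_mul_of_nonneg_left (hz1 i hi.le k hk.1) (pow_nonneg hg0.le k)
                linarith
            _ ≤ ∑ k ∈ range c, g ^ k := by
                apply Finset.sum_le_sum_of_subset_of_nonneg
                · intro k hk
                  rw [mem_filter] at hk
                  rw [mem_range]
                  omega
                · intro k _ _
                  exact pow_nonneg hg0.le _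
        linarith
      linarith
    have h12 : ∑ k ∈ Ico c K, g ^ k * (C₂ * (z (i + 1) (k - c) - z i (k - c + 1)) +
        (z i (k - c + 1) - z i k)) =
        C₂ * (∑ k ∈ Ico c K, g ^ k * z (i + 1) (k - c) - ∑ k ∈ Ico c K, g ^ k * z i (k - c + 1)) +
          (∑ k ∈ Ico c K, g ^ k * z i (k - c + 1) - ∑ k ∈ Ico c K, g ^ k * z i k) := by
      rw [← Finset.sum_sub_distrib, ← Finset.sum_sub_distrib, Finset.mul_sum,
        ← Finset.sum_add_distrib]
      refine Finset.sum_congr rfl fun k _ => ?_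
      ring
    have h13 := hE i hi
    rw [h12] at h13
    have h14 : C₂ * (∑ k ∈ Ico c K, g ^ k * z (i + 1) (k - c) -
        ∑ k ∈ Ico c K, g ^ k * z i (k - c + 1)) ≤ C₂ * (g ^ c * Z (i + 1) - (Z i - c * g ^ c)) :=
      mul_le_mul_of_nonneg_left (by linarith) hC₂
    have h15 : 1 / 8 * ∑ k ∈ range K, g ^ k * z i k = 1 / 8 * Z i := rfl
    nlinarith
  -- sum with the weights
  clear_value Om
  clear hE hZ
  clear_value Z
  have hsum : ∑ i ∈ range κ, r ^ i * Ex i ≤ ∑ i ∈ range κ, r ^ i * ((C₂ + 2) * (c * g ^ c) +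
      δ * Om + C₂ * g ^ c * Z (i + 1) + (g ^ c - 1 - 1 / 8 - C₂) * Z i) :=
    Finset.sum_le_sum fun i hi =>
      mul_le_mul_of_nonneg_left (main i (mem_range.1 hi)) (pow_nonneg hr0.le _)
  have hexp : ∑ i ∈ range κ, r ^ i * ((C₂ + 2) * (c * g ^ c) +
      δ * Om + C₂ * g ^ c * Z (i + 1) + (g ^ c - 1 - 1 / 8 - C₂) * Z i) =
      (∑ i ∈ range κ, r ^ i) * (δ * Om + (C₂ + 2) * (c * g ^ c)) +
      C₂ * g ^ c * (∑ i ∈ range κ, r ^ i * Z (i + 1)) +
      (g ^ c - 1 - 1 / 8 - C₂) * ∑ i ∈ range κ, r ^ i * Z i := by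
    rw [Finset.sum_mul, Finset.mul_sum, Finset.mul_sum, ← Finset.sum_add_distrib,
      ← Finset.sum_add_distrib]
    refine Finset.sum_congr rfl fun i _ => ?_
    ring
  set W : ℝ := ∑ i ∈ range κ, r ^ i * Z i with hW
  have hW0 : 0 ≤ W := Finset.sum_nonneg fun i hi =>
    mul_nonneg (pow_nonneg hr0.le _) (hZ0 i (mem_range.1 hi).le)
  have hshift : r * ∑ i ∈ range κ, r ^ i * Z (i + 1) ≤ W + r ^ κ * Om := by
    have h1 : r * ∑ i ∈ range κ, r ^ i * Z (i + 1) = ∑ i ∈ range κ, r ^ (i + 1) * Z (i + 1) := by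
      rw [Finset.mul_sum]
      refine Finset.sum_congr rfl fun i _ => ?_
      rw [pow_succ]; ring
    have h2 : ∑ i ∈ range (κ + 1), r ^ i * Z i = ∑ i ∈ range κ, r ^ (i + 1) * Z (i + 1) +
        r ^ 0 * Z 0 := Finset.sum_range_succ' _ _
    have h3 : ∑ i ∈ range (κ + 1), r ^ i * Z i = W + r ^ κ * Z κ := Finset.sum_range_succ _ _
    have h4 : r ^ κ * Z κ ≤ r ^ κ * Om :=
      mul_le_mul_of_nonneg_left (hZ1 κ le_rfl) (pow_nonneg hr0.le _)
    have h5 := hZ0 0 (Nat.zero_le _)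
    rw [h1]
    rw [pow_zero, one_mul] at h2
    linarith
  have hshift2 : ∑ i ∈ range κ, r ^ i * Z (i + 1) ≤ W / r + r ^ (κ - 1) * Om := by
    have h1 : ∑ i ∈ range κ, r ^ i * Z (i + 1) ≤ (W + r ^ κ * Om) / r := by
      rw [le_div_iff₀ hr0]; linarith
    have h2 : (W + r ^ κ * Om) / r = W / r + r ^ (κ - 1) * Om := by
      obtain ⟨κ', rfl⟩ : ∃ κ', κ = κ' + 1 := ⟨κ - 1, by omega⟩
      rw [Nat.add_sub_cancel, pow_succ]
      field_simp
    rw [h2] at h1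
    exact h1
  have hfin : C₂ * g ^ c * (∑ i ∈ range κ, r ^ i * Z (i + 1)) ≤
      C₂ * g ^ c * (W / r + r ^ (κ - 1) * Om) :=
    mul_le_mul_of_nonneg_left hshift2 (mul_nonneg hC₂ hgc0.le)
  have hcoef : C₂ * g ^ c * (W / r) + (g ^ c - 1 - 1 / 8 - C₂) * W =
      (C₂ * (g ^ c / r - 1) + (g ^ c - 1) - 1 / 8) * W := by ring
  have hneg : (C₂ * (g ^ c / r - 1) + (g ^ c - 1) - 1 / 8) * W ≤ 0 :=
    mul_nonpos_of_nonpos_of_nonneg (by linarith) hW0
  rw [hexp] at hsum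
  nlinarith

end SF4
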