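import Mathlib

/-!
# Module SINGLE: the count at one dilate (pure real numbers)

Proof. Call `k < K`, `c ≤ k`, `δ ≤ e k` of type (ii) if the hypothesis of `hconf` holds at `k` (then `e k ≤ H k`), and of
type (i) otherwise. Let `N k = {j ∈ Ico (k - n₀) k : e j < -e k}`. For `k` of type (i), `|Ico (k - n₀) k| = n₀`
(`n₀ ≤ c ≤ k`) and fewer than `n₁` of its elements are not in `N k`, so `|N k| ≥ n₀ - n₁ ≥ 4 n₁`, and
`g ^ k * e k ≤ g ^ n₀ * (1 / (4 n₁)) * ∑_{j ∈ N k} g ^ j * (-e j) ≤ (1 / (2 n₁)) ∑_{j ∈ N k} g ^ j * (-e j)`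
(`e k < -e j`, `g ^ k ≤ g ^ n₀ * g ^ j`).
Every `j` lies in `N k` for at most `n₁` of the `k` of type (i): let `k₁` be the largest; the others are `k ∈ Ioo j k₁`, so
`k ∈ Ico (k₁ - n₀) k₁`, and `e k > 0 > -e k₁`, so `k` is one of the fewer than `n₁` elements not in `N k₁`.
So the sum of `g ^ k * e k` over type (i) is at most `1/2 ∑_{k < K} g ^ k * max (-e k) 0`.
Sum: `k < c` with `e k ≥ 0`: at most `∑_{k < c} g ^ k`; `k ≥ c` with `0 ≤ e k < δ`: at most `δ ∑ g ^ k`; type (ii): at most
`∑_{k ∈ Ico c K} g ^ k * H k` (`H ≥ 0`); all negative `e k`: `- ∑ g ^ k * max (-e k) 0`. The total is at most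
`∑_{k < c} g ^ k + δ Ω + ∑ g ^ k * H k - 1/2 ∑ g ^ k * max (-e k) 0` and `max (-e k) 0 ≥ z k / 4`.
-/

namespace SF4

open Finset

private theorem charge_count {K c n₀ n₁ : ℕ} {δ : ℝ} (hn₁ : 0 < n₁) (hδ : 0 < δ) (e : ℕ → ℝ) (j : ℕ) :
    (((Ico c K).filter (fun k => δ ≤ e k ∧
      ((Ico (k - n₀) k).filter (fun j => -e k ≤ e j)).card < n₁)).filter
        (fun k => j ∈ (Ico (k - n₀) k).filter (fun j => e j < -e k))).card ≤ n₁ := by
  classical
  set B := ((Ico c K).filter (fun k => δ ≤ e k ∧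
      ((Ico (k - n₀) k).filter (fun j => -e k ≤ e j)).card < n₁)).filter
        (fun k => j ∈ (Ico (k - n₀) k).filter (fun j => e j < -e k)) with hB
  rcases B.eq_empty_or_nonempty with h0 | hne
  · rw [h0]
    simp
  · have hk₁ := B.max'_mem hne
    set k₁ := B.max' hne with hk
    have hk₁' := hk₁
    rw [hB, mem_filter, mem_filter, mem_filter, mem_Ico, mem_Ico] at hk₁'
    obtain ⟨⟨_, hδ1, hc1⟩, ⟨hj1, hj2⟩, _⟩ := hk₁'
    have hsub : B ⊆ insert k₁ ((Ico (k₁ - n₀) k₁).filter (fun j => -e k₁ ≤ e j)) := by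
      intro k hkB
      rw [mem_insert]
      by_cases hkk : k = k₁
      · left
        exact hkk
      · right
        have hle : k ≤ k₁ := B.le_max' k hkB
        have hlt : k < k₁ := lt_of_le_of_ne hle hkk
        rw [hB, mem_filter, mem_filter, mem_filter, mem_Ico, mem_Ico] at hkB
        obtain ⟨⟨_, hδ2, _⟩, ⟨_, hj4⟩, _⟩ := hkB
        rw [mem_filter, mem_Ico]
        refine ⟨⟨by omega, hlt⟩, by linarith⟩
    have h1 := (card_le_card hsub).trans (card_insert_le _ _)
    omega

private theorem charge {K c n₀ n₁ : ℕ} {g δ : ℝ} (hn₁ : 0 < n₁) (hn₀ : 5 * n₁ ≤ n₀) (hc : n₀ ≤ c)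
    (hg1 : 1 ≤ g) (hg2 : g ^ n₀ ≤ 2) (hδ : 0 < δ) (e : ℕ → ℝ) :
    ∑ k ∈ (Ico c K).filter (fun k => δ ≤ e k ∧
      ((Ico (k - n₀) k).filter (fun j => -e k ≤ e j)).card < n₁), g ^ k * e k ≤
      1 / 2 * ∑ j ∈ range K, g ^ j * max (-e j) 0 := by
  classical
  have hn : (0 : ℝ) < n₁ := by exact_mod_cast hn₁
  set I := (Ico c K).filter (fun k => δ ≤ e k ∧
      ((Ico (k - n₀) k).filter (fun j => -e k ≤ e j)).card < n₁) with hI
  have hstep : ∀ k ∈ I, 2 * n₁ * (g ^ k * e k) ≤
      ∑ j ∈ (Ico (k - n₀) k).filter (fun j => e j < -e k), g ^ j * max (-e j) 0 := by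
    intro k hk
    rw [hI, mem_filter, mem_Ico] at hk
    obtain ⟨⟨hk1, hk2⟩, hk3, hk4⟩ := hk
    have hsplit := card_filter_add_card_filter_not (s := Ico (k - n₀) k)
      (fun j => -e k ≤ e j)
    have hcard : (Ico (k - n₀) k).card = n₀ := by
      rw [Nat.card_Ico]
      omega
    have hcongr : (Ico (k - n₀) k).filter (fun j => ¬ (-e k ≤ e j)) =
        (Ico (k - n₀) k).filter (fun j => e j < -e k) := by
      apply filter_congr
      intro j _
      exact not_le
    rw [hcongr, hcard] at hsplit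
    have hbig : 4 * n₁ ≤ ((Ico (k - n₀) k).filter (fun j => e j < -e k)).card := by omega
    have hbig' : (4 : ℝ) * n₁ ≤ ((Ico (k - n₀) k).filter (fun j => e j < -e k)).card := by
      exact_mod_cast hbig
    have hek : 0 < e k := lt_of_lt_of_le hδ hk3
    have hgk : 0 < g ^ k := by positivity
    have h1 : ∀ j ∈ (Ico (k - n₀) k).filter (fun j => e j < -e k),
        g ^ k * e k / 2 ≤ g ^ j * max (-e j) 0 := by
      intro j hj
      rw [mem_filter, mem_Ico] at hj
      obtain ⟨⟨hj1, hj2⟩, hj3⟩ := hj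
      have hgg : g ^ k ≤ 2 * g ^ j := by
        have : k = (k - j) + j := by omega
        rw [this, pow_add]
        have h2 : g ^ (k - j) ≤ g ^ n₀ := pow_le_pow_right₀ hg1 (by omega)
        have h3 : 0 < g ^ j := by positivity
        have h4 : (k - j + j) - j = k - j := by omega
        nlinarith
      have hgj : 0 < g ^ j := by positivity
      rw [max_eq_left (by linarith)]
      have h5 : g ^ k * e k ≤ 2 * g ^ j * (-e j) := by
        apply mul_le_mul hgg (by linarith) hek.le (by positivity)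
      linarith
    calc 2 * n₁ * (g ^ k * e k) = 4 * n₁ * (g ^ k * e k / 2) := by ring
      _ ≤ ((Ico (k - n₀) k).filter (fun j => e j < -e k)).card * (g ^ k * e k / 2) := by
          apply mul_le_mul_of_nonneg_right hbig' (by positivity)
      _ = ∑ j ∈ (Ico (k - n₀) k).filter (fun j => e j < -e k), g ^ k * e k / 2 := by
          rw [sum_const, nsmul_eq_mul]
      _ ≤ _ := sum_le_sum h1
  have hswap : ∑ k ∈ I, ∑ j ∈ (Ico (k - n₀) k).filter (fun j => e j < -e k),
      g ^ j * max (-e j) 0 ≤ ∑ j ∈ range K, n₁ * (g ^ j * max (-e j) 0) := by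
    have h1 : ∑ k ∈ I, ∑ j ∈ (Ico (k - n₀) k).filter (fun j => e j < -e k),
        g ^ j * max (-e j) 0 = ∑ j ∈ range K,
          ∑ k ∈ I.filter (fun k => j ∈ (Ico (k - n₀) k).filter (fun j => e j < -e k)),
            g ^ j * max (-e j) 0 := by
      apply sum_comm'
      intro k j
      constructor
      · rintro ⟨hk, hj⟩
        rw [mem_filter]
        refine ⟨⟨hk, hj⟩, ?_⟩
        rw [hI, mem_filter, mem_Ico] at hk
        rw [mem_filter, mem_Ico] at hj
        rw [mem_range]
        omega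
      · rintro ⟨hk, _⟩
        rw [mem_filter] at hk
        exact hk
    rw [h1]
    apply sum_le_sum
    intro j _
    rw [sum_const, nsmul_eq_mul]
    apply mul_le_mul_of_nonneg_right
    · exact_mod_cast charge_count hn₁ hδ e j
    · have : 0 ≤ g ^ j := by positivity
      positivity
  have h2 : 2 * n₁ * ∑ k ∈ I, g ^ k * e k ≤ n₁ * ∑ j ∈ range K, g ^ j * max (-e j) 0 := by
    rw [mul_sum, mul_sum]
    exact (sum_le_sum hstep).trans hswap
  have h3 : n₁ * (2 * ∑ k ∈ I, g ^ k * e k) ≤ n₁ * ∑ j ∈ range K, g ^ j * max (-e j) 0 := by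
    linarith
  have h4 := le_of_mul_le_mul_left h3 hn
  linarith

theorem single_node {K c n₀ n₁ : ℕ} {g δ : ℝ} (hn₁ : 0 < n₁) (hn₀ : 5 * n₁ ≤ n₀) (hc : n₀ ≤ c)
    (hg1 : 1 ≤ g) (hg2 : g ^ n₀ ≤ 2) (hδ : 0 < δ) (e z H : ℕ → ℝ)
    (he1 : ∀ k < K, e k ≤ 1) (hz : ∀ k < K, z k ≤ 4 * max (-e k) 0)
    (hH : ∀ k < K, c ≤ k → 0 ≤ H k)
    (hconf : ∀ k < K, c ≤ k → δ ≤ e k →
      n₁ ≤ ((Ico (k - n₀) k).filter (fun j => -e k ≤ e j)).card → e k ≤ H k) :
    ∑ k ∈ range K, g ^ k * e k ≤ ∑ k ∈ range c, g ^ k + δ * ∑ k ∈ range K, g ^ k +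
      ∑ k ∈ Ico c K, g ^ k * H k - 1 / 8 * ∑ k ∈ range K, g ^ k * z k := by
  classical
  have hg0 : ∀ k : ℕ, 0 < g ^ k := fun k => by positivity
  have hch := charge (K := K) hn₁ hn₀ hc hg1 hg2 hδ e
  set I := (Ico c K).filter (fun k => δ ≤ e k ∧
      ((Ico (k - n₀) k).filter (fun j => -e k ≤ e j)).card < n₁) with hI
  have hdec : ∀ k, e k = max (e k) 0 - max (-e k) 0 := by
    intro k
    rcases le_total 0 (e k) with h | h
    · rw [max_eq_left h, max_eq_right (by linarith)]
      ring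
    · rw [max_eq_right h, max_eq_left (by linarith)]
      ring
  have hP : ∑ k ∈ range K, g ^ k * max (e k) 0 ≤ ∑ k ∈ range c, g ^ k +
      δ * ∑ k ∈ range K, g ^ k + ∑ k ∈ Ico c K, g ^ k * H k +
        ∑ k ∈ I, g ^ k * e k := by
    have hpt : ∀ k ∈ range K, g ^ k * max (e k) 0 ≤ (if k < c then g ^ k else 0) + δ * g ^ k +
        (if c ≤ k then g ^ k * H k else 0) + (if k ∈ I then g ^ k * e k else 0) := by
      intro k hk
      rw [mem_range] at hk
      have hg := hg0 k
      have hδg : 0 < δ * g ^ k := by positivity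
      have hIn : 0 ≤ (if k ∈ I then g ^ k * e k else 0) := by
        split_ifs with h
        · rw [hI, mem_filter] at h
          have : 0 < e k := lt_of_lt_of_le hδ h.2.1
          positivity
        · exact le_rfl
      by_cases hkc : k < c
      · rw [if_pos hkc, if_neg (by omega)]
        have h1 : max (e k) 0 ≤ 1 := max_le (he1 k hk) zero_le_one
        have h2 : g ^ k * max (e k) 0 ≤ g ^ k * 1 := mul_le_mul_of_nonneg_left h1 hg.le
        linarith
      · rw [if_neg hkc, if_pos (by omega)]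
        have hH0 : 0 ≤ g ^ k * H k := mul_nonneg hg.le (hH k hk (by omega))
        by_cases hδk : δ ≤ e k
        · have hmax : max (e k) 0 = e k := max_eq_left (by linarith)
          rw [hmax]
          by_cases hcard : n₁ ≤ ((Ico (k - n₀) k).filter (fun j => -e k ≤ e j)).card
          · have h3 := hconf k hk (by omega) hδk hcard
            have h4 : g ^ k * e k ≤ g ^ k * H k := mul_le_mul_of_nonneg_left h3 hg.le
            linarith
          · have hkI : k ∈ I := by
              rw [hI, mem_filter, mem_Ico]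
              exact ⟨⟨by omega, hk⟩, hδk, by omega⟩
            rw [if_pos hkI]
            linarith
        · have h5 : max (e k) 0 ≤ δ := max_le (by linarith) hδ.le
          have h6 : g ^ k * max (e k) 0 ≤ g ^ k * δ := mul_le_mul_of_nonneg_left h5 hg.le
          linarith
    refine (sum_le_sum hpt).trans ?_
    rw [sum_add_distrib, sum_add_distrib, sum_add_distrib, ← sum_filter, ← sum_filter,
      ← sum_filter, ← mul_sum]
    have e1 : ∑ k ∈ (range K).filter (fun k => k < c), g ^ k ≤ ∑ k ∈ range c, g ^ k := by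
      apply sum_le_sum_of_subset_of_nonneg
      · intro k hk
        rw [mem_filter] at hk
        exact mem_range.2 hk.2
      · intro k _ _
        exact (hg0 k).le
    have e2 : (range K).filter (fun k => c ≤ k) = Ico c K := by
      ext k
      rw [mem_filter, mem_range, mem_Ico]
      tauto
    have e3 : (range K).filter (fun k => k ∈ I) = I := by
      ext k
      rw [mem_filter, mem_range]
      constructor
      · exact fun h => h.2
      · intro h
        refine ⟨?_, h⟩
        rw [hI, mem_filter, mem_Ico] at h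
        exact h.1.2
    rw [e2, e3]
    linarith
  have hN : 1 / 8 * ∑ k ∈ range K, g ^ k * z k ≤
      1 / 2 * ∑ k ∈ range K, g ^ k * max (-e k) 0 := by
    have : ∑ k ∈ range K, g ^ k * z k ≤ ∑ k ∈ range K, 4 * (g ^ k * max (-e k) 0) := by
      apply sum_le_sum
      intro k hk
      have h1 := mul_le_mul_of_nonneg_left (hz k (mem_range.1 hk)) (hg0 k).le
      linarith
    rw [← mul_sum] at this
    linarith
  have hsum : ∑ k ∈ range K, g ^ k * e k = ∑ k ∈ range K, g ^ k * max (e k) 0 -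
      ∑ k ∈ range K, g ^ k * max (-e k) 0 := by
    rw [← sum_sub_distrib]
    apply sum_congr rfl
    intro k _
    rw [← mul_sub, ← hdec k]
  rw [hsum]
  linarith

end SF4
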