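import Pool.Agent.SF4.Node
import Pool.Agent.SF4.Single
import Pool.Agent.SF4.AvgSum
import Pool.Agent.SF4.Av

/-!
# Module COUNT: the weighted count for poor sets

Proof. `avg_sum` with `Ex i = av X i (fun d => ∑ k ∈ range K, g ^ k * ee N T C d k)`, `z i k = av X i (fun d => zz N T C θ d k)`,
`δ = 1 / D`, `C₂ = 280`, `θ = T₀ / (2500 D)`. `0 ≤ zz ≤ 1`, antitone in `k` (`lev` is monotone). `hE`: for `d ∈ Dil X i`, `i < κ`
(so `d ∈ AllDil X κ`, `0 < d`), `node4` and `single_node` (`n₁ = 4 R + 2`) give the inequality with `HH`; take `av X i`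
(`av_mono`, linearity `av_add`, `av_sum`, `av_mul_left`, `av_const`), using `av X i (avg X φ) = av X (i + 1) φ` (rfl).
-/

namespace SF4

open Finset SFree SF2 SF3

theorem poor_count4 {D R r m M X N T₀ ρ K n₀ c : ℕ} {η ε : ℝ}
    (h : Par D R r m M X N T₀ ρ K n₀ c η ε) (T : ℕ → ℕ) (hT : T = fun k => T₀ * ρ ^ k)
    {κ : ℕ} (hκ : 0 < κ) {g r₀ : ℝ} (hg : 1 ≤ g) (hg2 : g ^ n₀ ≤ 2) (hr0 : 0 < r₀) (hr1 : r₀ ≤ 1)
    (hC : 280 * (g ^ c / r₀ - 1) + (g ^ c - 1) ≤ 1 / 8) (C : Finset ℤ)
    (hpoor : Poor4 N (AllDil X κ) ε C) :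
    ∑ i ∈ range κ, r₀ ^ i * av X i (fun d => ∑ k ∈ range K, g ^ k * ee N T C d k) ≤
      (∑ i ∈ range κ, r₀ ^ i) * (1 / D * ∑ k ∈ range K, g ^ k + 282 * (c * g ^ c)) +
        280 * g ^ c * r₀ ^ (κ - 1) * ∑ k ∈ range K, g ^ k := by
  classical
  have hD0 : (0 : ℝ) < D := by
    have := h.hD
    exact_mod_cast (by omega : 0 < D)
  have hX0 : 0 < X := by
    have := h.hX
    have := h.hD
    omega
  have hρ1 : 1 ≤ ρ := by
    have := h.hXρ
    omega
  have hTmono : ∀ k k', k ≤ k' → T k ≤ T k' := by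
    intro k k' hk
    rw [hT]
    exact Nat.mul_le_mul_left _ (Nat.pow_le_pow_right hρ1 hk)
  set θ : ℝ := T₀ / (2500 * D) with hθ
  have hc0 : 0 < c := by
    have := h.hc
    omega
  have hzz0 : ∀ d k, 0 ≤ zz N T C θ d k := by
    intro d k
    unfold zz
    split_ifs <;> norm_num
  have hzz1 : ∀ d k, zz N T C θ d k ≤ 1 := by
    intro d k
    unfold zz
    split_ifs <;> norm_num
  have hzzm : ∀ d k k', k ≤ k' → zz N T C θ d k' ≤ zz N T C θ d k := by
    intro d k k' hk
    have hsub : lev (secd N C d) (T k) ⊆ lev (secd N C d) (T k') := by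
      intro x hx
      rw [mem_lev] at hx ⊢
      refine ⟨hx.1, hx.2.trans ?_⟩
      exact_mod_cast hTmono k k' hk
    have hcard : ((lev (secd N C d) (T k)).card : ℝ) ≤ (lev (secd N C d) (T k')).card := by
      exact_mod_cast card_le_card hsub
    unfold zz
    split_ifs with h1 h2 h2
    · exact le_rfl
    · exact absurd (hcard.trans h1) h2
    · norm_num
    · exact le_rfl
  have hHH : ∀ i k, av X i (fun d => HH N T C θ 280 X c d k) =
      280 * (av X (i + 1) (fun d => zz N T C θ d (k - c)) - av X i (fun d => zz N T C θ d (k - c + 1)))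
        + (av X i (fun d => zz N T C θ d (k - c + 1)) - av X i (fun d => zz N T C θ d k)) := by
    intro i k
    have e1 : av X (i + 1) (fun d => zz N T C θ d (k - c)) =
        av X i (fun d => avg X (fun d' => zz N T C θ d' (k - c)) d) := rfl
    unfold HH
    rw [av_add, av_mul_left, av_sub, av_sub, e1]
  have key := avg_sum (κ := κ) (K := K) (c := c) hκ hc0 (g := g) (r := r₀) (δ := 1 / (D : ℝ))
    (C₂ := 280) hg hr0 hr1 (by positivity) (by norm_num) hC
    (fun i => av X i (fun d => ∑ k ∈ range K, g ^ k * ee N T C d k))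
    (fun i k => av X i (fun d => zz N T C θ d k))
    (fun i _ k _ => av_nonneg (fun d _ => hzz0 d k))
    (fun i _ k _ => by
      have := av_mono (X := X) (i := i) (φ := fun d => zz N T C θ d k) (ψ := fun _ => (1 : ℝ))
        (fun d _ => hzz1 d k)
      rwa [av_const hX0] at this)
    (fun i _ k k' hk _ => av_mono (fun d _ => hzzm d k k' hk))
    (fun i hi => by
      have h1 : av X i (fun d => ∑ k ∈ range K, g ^ k * ee N T C d k) ≤
          av X i (fun d => (∑ k ∈ range c, g ^ k + 1 / (D : ℝ) * ∑ k ∈ range K, g ^ k) +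
            ∑ k ∈ Ico c K, g ^ k * HH N T C θ 280 X c d k -
              1 / 8 * ∑ k ∈ range K, g ^ k * zz N T C θ d k) := by
        apply av_mono
        intro d hd
        have hdpos : 0 < d := Dil_pos hd
        have hdA : d ∈ AllDil X κ := by
          unfold AllDil
          rw [mem_biUnion]
          exact ⟨i, mem_range.2 hi, hd⟩
        obtain ⟨h1, h2, h3, h4⟩ := node4 h T hT θ hθ C d hdpos (hpoor d hdA)
        exact single_node (K := K) (c := c) (n₀ := n₀) (n₁ := 4 * R + 2) (g := g)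
          (δ := 1 / (D : ℝ)) (by omega) h.hn₀ (by have := h.hc; omega) hg hg2 (by positivity)
          (ee N T C d) (zz N T C θ d) (HH N T C θ 280 X c d) h1 h2 h3 h4
      refine h1.trans (le_of_eq ?_)
      rw [av_sub, av_add, av_const hX0, av_mul_left, av_sum, av_sum]
      congr 1
      · congr 1
        apply sum_congr rfl
        intro k _
        rw [av_mul_left, hHH]
      · congr 1
        apply sum_congr rfl
        intro k _
        rw [av_mul_left])
  refine key.trans (le_of_eq ?_)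
  norm_num

end SF4
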