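import Pool.Agent.SF4.Step

/-!
# Module CUBE: no co-matching of size four

Proof. `a₁ - a₂ = x i - y i` with `a₁, a₂ ∈ win S a t`: `z i := x i + a₂ = y i + a₁` has `z i - x i, z i - y i ∈ S`,
`a - t < z i ≤ a + B`.
Step 1: `step` with `Q 0`, `J = {0, 1, 2}`: `i₁ ∈ J`, `w₁`; replace `z i₁` by `w₁` (`Function.update`). Now
`z j - z i₁ ∈ S` for the two other `j ∈ J`.
Step 2: `step` with `Q 1` (`t := Q 0`), `J = univ`: `i₂`, `w₂`. The last conclusion forces `i₂ = i₁` (if `i₂ ≠ i₁`, one of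
the two `j ∈ {0,1,2} \ {i₁}` is `≠ i₂` and `z j - z i₁ ∈ S`). Replace `z i₁` by `w₂`: `z j - z i₁ ∈ S` for all `j ≠ i₁`.
Step 3: `step` with `Q 2` (`t := Q 1`), `J = univ.erase i₁`: `i₃`, `w₃`; replace `z i₃`: `z j - z i₃ ∈ S` for the two
`j ∉ {i₁, i₃}` (and still `z j - z i₁ ∈ S` for these two).
Step 4: `step` with `Q 3` (`t := Q 2`), `J = univ`: for every `i₄` there is a pair `(j, l)`, `j ∈ {i₁, i₃}`, `l ∉ {i₁, i₃}`,
both `≠ i₄`, with `z l - z j ∈ S`. Contradiction.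
(`t ≤ Q 0 ≤ Q 1 ≤ Q 2`, windows are nested.)
-/

namespace SF4

open Finset SFree SF2 SF3

private theorem dec1 : ∀ i j : Fin 4, ∃ l ∈ ({0, 1, 2} : Finset (Fin 4)), l ≠ i ∧ l ≠ j := by
  decide

private theorem dec2 : ∀ p q r : Fin 4, q ≠ p →
    ∃ j l : Fin 4, (j = p ∨ j = q) ∧ l ≠ p ∧ l ≠ q ∧ j ≠ r ∧ l ≠ r := by
  decide

theorem no_cube {D : ℕ} (hD : 100 ≤ D) (S : Finset ℤ) (hpos : ∀ s ∈ S, 0 < s) (E : ℕ)
    (hE1 : ∀ s ∈ S, rep S s ≤ E) (hE2 : ∀ a ∈ S, (S.filter (fun s => a - s ∈ S)).card ≤ E)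
    (α β : ℝ) (hαβ : 1 + 1 / (D : ℝ) ≤ 2 * α + β) (a t B : ℕ) (Q : ℕ → ℕ) (hQ0 : 0 < Q 0)
    (hQα : ∀ i < 4, α * Q i ≤ ((win S a (Q i)).card : ℝ))
    (hQβ : ∀ i < 4, β * Q i ≤ ((lev S (Q i)).card : ℝ))
    (hQt : 1000 * D * (t + B) ≤ Q 0) (hQ : ∀ i < 3, 1000 * D * (Q i + B) ≤ Q (i + 1))
    (hE : 1000 * D * E ≤ Q 0)
    (x y : Fin 4 → ℤ) (hx : ∀ i, 0 ≤ x i ∧ x i ≤ B) (hy : ∀ i, 0 ≤ y i ∧ y i ≤ B)
    (hxy : ∀ i, ∃ a₁ ∈ win S a t, ∃ a₂ ∈ win S a t, a₁ - a₂ = x i - y i)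
    (hadj : ∀ q < 4, ∀ i j, i ≠ j → (nw S a (Q q) (x i) ∩ nw S a (Q q) (y j)).card ≤ E) :
    False := by
  have hle : ∀ p q : ℕ, 1000 * D * (p + B) ≤ q → p ≤ q := by
    intro p q h
    nlinarith
  have h01 : Q 0 ≤ Q 1 := hle _ _ (hQ 0 (by norm_num))
  have h12 : Q 1 ≤ Q 2 := hle _ _ (hQ 1 (by norm_num))
  have h23 : Q 2 ≤ Q 3 := hle _ _ (hQ 2 (by norm_num))
  have ht0 : t ≤ Q 0 := hle _ _ hQt
  -- one step
  have key : ∀ (t' q : ℕ), q < 4 → t' ≤ Q q → 1000 * D * (t' + B) ≤ Q q → 0 < Q q →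
      1000 * D * E ≤ Q q → ∀ z : Fin 4 → ℤ,
      (∀ i, (a : ℤ) - t' < z i ∧ z i ≤ a + B) → (∀ i, z i - x i ∈ S) → (∀ i, z i - y i ∈ S) →
      ∀ J : Finset (Fin 4), 3 ≤ J.card →
      ∃ i ∈ J, ∃ w : ℤ, (∀ l, (a : ℤ) - Q q < Function.update z i w l ∧
        Function.update z i w l ≤ a + B) ∧ (∀ l, Function.update z i w l - x l ∈ S) ∧
        (∀ l, Function.update z i w l - y l ∈ S) ∧
        (∀ j ∈ J, j ≠ i → Function.update z i w j - Function.update z i w i ∈ S) ∧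
        (∀ j ∈ J, ∀ l ∈ J, j ≠ i → l ≠ i → z l - z j ∉ S) := by
    intro t' q hq htq hB hQq hEq z hz hzx hzy J hJ
    obtain ⟨i, hi, w, hw, hwx, hwy, hj, hl⟩ := step hD S hpos E hE1 hE2 α β hαβ a t' B (Q q) hQq
      (hQα q hq) (hQβ q hq) hB hEq x y z J hJ hx hy hz hzx hzy (hadj q hq)
    refine ⟨i, hi, w, ?_, ?_, ?_, ?_, hl⟩
    · intro l
      by_cases h : l = i
      · subst h
        rw [Function.update_self]
        refine ⟨hw.1, ?_⟩
        have := hw.2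
        omega
      · rw [Function.update_of_ne h]
        have := hz l
        omega
    · intro l
      by_cases h : l = i
      · subst h
        rw [Function.update_self]
        exact hwx
      · rw [Function.update_of_ne h]
        exact hzx l
    · intro l
      by_cases h : l = i
      · subst h
        rw [Function.update_self]
        exact hwy
      · rw [Function.update_of_ne h]
        exact hzy l
    · intro j hjJ hji
      rw [Function.update_of_ne hji, Function.update_self]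
      exact hj j hjJ hji
  choose a₁ ha₁ a₂ ha₂ haa using hxy
  -- initial vertices
  have hz0 : ∀ i, (a : ℤ) - t < x i + a₂ i ∧ x i + a₂ i ≤ a + B := by
    intro i
    have h1 := (mem_win.mp (ha₂ i)).2
    have h2 := hx i
    omega
  have hz0x : ∀ i, x i + a₂ i - x i ∈ S := by
    intro i
    have h1 := (mem_win.mp (ha₂ i)).1
    rwa [add_sub_cancel_left]
  have hz0y : ∀ i, x i + a₂ i - y i ∈ S := by
    intro i
    have h1 := (mem_win.mp (ha₁ i)).1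
    have : x i + a₂ i - y i = a₁ i := by linarith [haa i]
    rwa [this]
  obtain ⟨i₁, hi₁, w₁, hb1, hx1, hy1, hS1, -⟩ := key t 0 (by norm_num) ht0 hQt hQ0 hE
    (fun i => x i + a₂ i) hz0 hz0x hz0y {0, 1, 2} (by decide)
  set z1 := Function.update (fun i => x i + a₂ i) i₁ w₁ with hz1
  obtain ⟨i₂, -, w₂, hb2, hx2, hy2, hS2, hn2⟩ := key (Q 0) 1 (by norm_num) h01
    (hQ 0 (by norm_num)) (by omega) (by omega) z1 hb1 hx1 hy1 univ (by decide)
  have h21 : i₂ = i₁ := by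
    by_contra hne
    obtain ⟨l, hl, hl1, hl2⟩ := dec1 i₁ i₂
    exact hn2 i₁ (mem_univ _) l (mem_univ _) (Ne.symm hne) hl2 (hS1 l hl hl1)
  subst h21
  set z2 := Function.update z1 i₂ w₂ with hz2
  obtain ⟨i₃, hi₃, w₃, hb3, hx3, hy3, hS3, -⟩ := key (Q 1) 2 (by norm_num) h12
    (hQ 1 (by norm_num)) (by omega) (by omega) z2 hb2 hx2 hy2 (univ.erase i₂) (by
      rw [card_erase_of_mem (mem_univ _)]; decide)
  have h32 : i₃ ≠ i₂ := (mem_erase.mp hi₃).1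
  set z3 := Function.update z2 i₃ w₃ with hz3
  obtain ⟨i₄, -, w₄, -, -, -, -, hn4⟩ := key (Q 2) 3 (by norm_num) h23
    (hQ 2 (by norm_num)) (by omega) (by omega) z3 hb3 hx3 hy3 univ (by decide)
  obtain ⟨j, l, hj, hl2, hl3, hj4, hl4⟩ := dec2 i₂ i₃ i₄ h32
  refine hn4 j (mem_univ _) l (mem_univ _) hj4 hl4 ?_
  rcases hj with rfl | rfl
  · -- j = i₂
    rw [hz3, Function.update_of_ne hl3, Function.update_of_ne (Ne.symm h32)]
    exact hS2 l (mem_univ _) hl2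
  · exact hS3 l (mem_erase.mpr ⟨hl2, mem_univ _⟩) hl3

end SF4
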