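import Pool.Agent.SF2.Basic
import Pool.Agent.SF2.Cont

/-!
# Definitions for the fourth version
-/

namespace SF4

open Finset SFree SF2

noncomputable section

/-- The section `{n ∈ [1, N] : d * n ∈ C}`. -/
def secd (N : ℕ) (C : Finset ℤ) (d : ℕ) : Finset ℤ :=
  (Icc (1 : ℤ) N).filter (fun n => (d : ℤ) * n ∈ C)

/-- The mean of `φ` over the dilates `d * m`, `m ≤ X`. -/
def avg (X : ℕ) (φ : ℕ → ℝ) (d : ℕ) : ℝ := (∑ m ∈ Icc 1 X, φ (d * m)) / X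

/-- The mean of `φ` over the products `m₁ ⋯ m_i`, `m_j ≤ X`. -/
def av (X : ℕ) : ℕ → (ℕ → ℝ) → ℝ
  | 0, φ => φ 1
  | i + 1, φ => av X i (avg X φ)

/-- The products `m₁ ⋯ m_i`, `1 ≤ m_j ≤ X`. -/
def Dil (X : ℕ) : ℕ → Finset ℕ
  | 0 => {1}
  | i + 1 => ((Dil X i) ×ˢ Icc 1 X).image (fun p => p.1 * p.2)

/-- The excess density of the section of `C` at `d` up to `T k`. -/
def ee (N : ℕ) (T : ℕ → ℕ) (C : Finset ℤ) (d k : ℕ) : ℝ :=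
  ((lev (secd N C d) (T k)).card : ℝ) / T k - 1 / 3

/-- Indicator: the section of `C` at `d` is almost empty up to `T k`. -/
def zz (N : ℕ) (T : ℕ → ℕ) (C : Finset ℤ) (θ : ℝ) (d k : ℕ) : ℝ :=
  if ((lev (secd N C d) (T k)).card : ℝ) ≤ θ then 1 else 0

/-- The gain function. -/
def HH (N : ℕ) (T : ℕ → ℕ) (C : Finset ℤ) (θ C₂ : ℝ) (X c d k : ℕ) : ℝ :=
  C₂ * (avg X (fun d' => zz N T C θ d' (k - c)) d - zz N T C θ d (k - c + 1)) +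
    (zz N T C θ d (k - c + 1) - zz N T C θ d k)

/-- All sections of `C` at the dilates in `Q` have few Schur triples. -/
def Poor4 (N : ℕ) (Q : Finset ℕ) (ε : ℝ) (C : Finset ℤ) : Prop :=
  ∀ d ∈ Q, (prs (secd N C d) N N : ℝ) ≤ ε * N * N

/-- All dilates with fewer than `κ` factors. -/
def AllDil (X κ : ℕ) : Finset ℕ := (range κ).biUnion (Dil X)

/-- The union of the sets `d * [1, N]`. -/
def UU4 (N : ℕ) (Q : Finset ℕ) : Finset ℤ :=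
  Q.biUnion (fun d => (Icc (1 : ℤ) N).image (fun n => (d : ℤ) * n))

/-- The set `d * [1, t]`. -/
def nod4 (d t : ℕ) : Finset ℤ := (Icc (1 : ℤ) t).image (fun n => (d : ℤ) * n)

open Classical in
/-- The weight of `a`. -/
def wt4 (X κ K : ℕ) (T : ℕ → ℕ) (u g : ℕ → ℝ) (a : ℤ) : ℝ :=
  ∑ i ∈ range κ, u i * av X i (fun d => ∑ k ∈ range K, if a ∈ nod4 d (T k) then g k / T k else 0)

/-- The conditions on the parameters used in the structure theorem at one dilate. -/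
structure Par (D R r m M X N T₀ ρ K n₀ c : ℕ) (η ε : ℝ) : Prop where
  hD : 100 ≤ D
  hr : 0 < r
  hR : R = 2 * r
  hX : 8 * D ≤ X
  hXρ : X ≤ ρ
  hT₀ : 8000 * D ≤ T₀
  hN : T₀ * ρ ^ K = N
  hρ : (4000 * D) ^ 2 ≤ ρ
  hρM : 8000 * D * M ≤ ρ ^ (R + 1)
  hn₀ : 5 * (4 * R + 2) ≤ n₀
  hc : c = n₀ + R + 2
  hη0 : 0 < η
  hηD : 80 * D * η ≤ 1
  hηr : (1 / 2 : ℝ) ^ (4 ^ r) ≤ η / 16
  hM : (m * R + 1) ^ (12 * R) < M
  hmM : (M : ℝ) ^ 2 * (2 : ℝ) ^ (η / 4 * m) * (1 - η / 2) ^ m < 1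
  hε0 : 0 < ε
  hε : ε * (4 * 10 ^ 7 * D ^ 2 * ρ ^ (2 * K)) ≤ 1

end

end SF4
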