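import Pool.Agent.SF4.Params
import Pool.Agent.SF4.Asym

/-!
# The bound `f n ≤ n / 3 + n exp (-c √(log n / log log n))`
-/

namespace SF4

open Finset SFree SF2 SF3

theorem main_bound : ∃ c : ℝ, 0 < c ∧ ∃ n₀ : ℕ, ∀ n : ℕ, n₀ ≤ n → (f n : ℝ) ≤
    n / 3 + n * Real.exp (-(c * √(Real.log n / Real.log (Real.log n)))) := asym4 final_sets4

end SF4
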