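import Pool.Agent.SF4.Rows
import Pool.Agent.SF4.Cube

/-!
# Module NEAR: the near period

Proof. `few_rows` with `Z = Icc 0 (2 * P 1)`, `v k = k * x₀`,
`A i = {n | ∃ a₁ ∈ win S a (2 * P (4 * i + 1)), ∃ a₂ ∈ win S a (2 * P (4 * i + 1)), a₁ - a₂ = n}` for `i < R` and
`A R = {n | E < rep S n}`.
`hA`: windows are nested (`P` is monotone by `hP`); `A (R - 1) ⊆ A R`: `pop_win` (SF3/Window) with `t = P (4 * R - 2)`,
`u = 2 * P (4 * R - 3)`: `(1 + 1/D) P ≤ 2 |win| + |lev| ≤ P + u + 2 E + rep`, `u ≤ P / (1000 D)`, `rep (win ..) ≤ rep S`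
(`rep_mono`, `win_sub`), so `rep ≥ P / D - ... > E`.
`hQ` for `i < R`: `no_cube` with `t = 2 * P (4 * i + 1)`, `B = 2 * P 1`, `Q q = P (4 * i + 2 + q)`; `x l ∈ [0, 2 * P 1]`,
`y l = k * x₀ ≤ M * x₀ ≤ P 0 ≤ 2 * P 1`. `hadj`: `x j - y j' ∉ A (i + 1)`. If `i + 1 < R` then
`nw S a (Q q) (x j) ∩ nw S a (Q q) (y j')` is empty: `w` in it gives `w - y j', w - x j ∈ win S a (2 * P (4 * (i + 1) + 1))`
(`Q q + B ≤ 2 * P (4 * i + 5)`), with difference `x j - y j'`. If `i + 1 = R`: `nw_nw` gives `≤ rep S (..) ≤ E` (`rep_neg`).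
(`no_cube` wants `hadj` for `(x i, y j)`, `i ≠ j`; `hQ` of `few_rows` provides `x l - y k ∉ A (i + 1)` for `l ≠ k`.)
So there are `k < k' < M` with fewer than `η |Z| ≤ (2 * P 1 + 1) / (20 D) ≤ 3 * P 1 / (20 D)` elements `z` in the set of
`few_rows`. Let `h = (k' - k) * x₀`. For `y ∈ win S a u` and `s ∈ lev S (P 1)` with `y - h - s ∈ S` put `z = k' * x₀ + s`:
`z ∈ Z`; `z - v k' = s ∉ A R` as `rep S s ≤ E`; `z - v k = s + h = y - (y - h - s) ∈ A 0` as `y` and `y - h - s` are in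
`win S a (2 * P 1)` (`u + h + P 1 ≤ 2 * P 1`, `h ≤ M * x₀`). `s ↦ z` is injective.
-/

namespace SF4

open Finset SFree SF2 SF3

set_option maxHeartbeats 1000000 in
theorem near_period4 {D R r m M : ℕ} (hD : 100 ≤ D) (hr : 0 < r) (hR : R = 2 * r) (S : Finset ℤ)
    (hpos : ∀ s ∈ S, 0 < s) (E : ℕ)
    (hE1 : ∀ s ∈ S, rep S s ≤ E) (hE2 : ∀ a ∈ S, (S.filter (fun s => a - s ∈ S)).card ≤ E)
    (α β : ℝ) (hαβ : 1 + 1 / (D : ℝ) ≤ 2 * α + β) (x₀ a u : ℕ) (P : ℕ → ℕ) (hx₀ : 0 < x₀)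
    (hPα : ∀ i ≤ 4 * R + 1, α * P i ≤ ((win S a (P i)).card : ℝ))
    (hPβ : ∀ i ≤ 4 * R + 1, β * P i ≤ ((lev S (P i)).card : ℝ))
    (hP : ∀ i ≤ 4 * R, (1000 * D) ^ 2 * P i ≤ P (i + 1))
    (hx0 : 1000 * D * (M * x₀) ≤ P 0) (hu : 1000 * D * u ≤ P 1) (hE : 1000 * D * E ≤ P 0)
    (η : ℝ) (hη0 : 0 < η) (hηD : 20 * D * η ≤ 1) (hηr : (1 / 2 : ℝ) ^ (4 ^ r) ≤ η / 16)
    (hM : (m * R + 1) ^ (12 * R) < M)
    (hmM : (M : ℝ) ^ 2 * (2 : ℝ) ^ (η / 4 * m) * (1 - η / 2) ^ m < 1) :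
    ∃ h : ℕ, x₀ ≤ h ∧ h ≤ M * x₀ ∧ ∀ y ∈ win S a u,
      (((lev S (P 1)).filter (fun s => y - h - s ∈ S)).card : ℝ) ≤ 3 * P 1 / (10 * D) := by
  classical
  have hD0 : (0 : ℝ) < D := by exact_mod_cast (by omega : 0 < D)
  have hDr : (100 : ℝ) ≤ D := by exact_mod_cast hD
  have hM0 : 0 < M := lt_of_le_of_lt (Nat.zero_le _) hM
  have hR0 : 0 < R := by omega
  have hMx : 0 < M * x₀ := Nat.mul_pos hM0 hx₀
  have h4 : ∀ p q : ℕ, (1000 * D) ^ 2 * p ≤ q → 1000 * D * (4 * p) ≤ q := by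
    intro p q h
    refine le_trans ?_ h
    have : 1000 * D * (4 * p) = (1000 * D * 4) * p := by ring
    rw [this]
    apply Nat.mul_le_mul_right
    nlinarith
  have hPs : ∀ i ≤ 4 * R, 1000 * D * (4 * P i) ≤ P (i + 1) := fun i hi => h4 _ _ (hP i hi)
  have hstep : ∀ p q : ℕ, 1000 * D * p ≤ q → p ≤ q := by
    intro p q h
    nlinarith
  have hmono1 : ∀ i ≤ 4 * R, P i ≤ P (i + 1) := by
    intro i hi
    have := hstep _ _ (hPs i hi)
    omega
  have hmono : ∀ i j, i ≤ j → j ≤ 4 * R + 1 → P i ≤ P j := by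
    intro i j hij
    induction j, hij using Nat.le_induction with
    | base => intro _; exact le_rfl
    | succ j hij ih => intro hj; exact (ih (by omega)).trans (hmono1 j (by omega))
  have hP0 : 0 < P 0 := lt_of_lt_of_le (by positivity) hx0
  have hPpos : ∀ i ≤ 4 * R + 1, 0 < P i := fun i hi =>
    lt_of_lt_of_le hP0 (hmono 0 i (Nat.zero_le _) hi)
  have hMx0 : M * x₀ ≤ P 0 := hstep _ _ hx0
  have hP01 : P 0 ≤ P 1 := hmono 0 1 (by omega) (by omega)
  have hEi : ∀ i ≤ 4 * R + 1, 1000 * D * E ≤ P i := fun i hi =>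
    hE.trans (hmono 0 i (Nat.zero_le _) hi)
  -- the sets `A i`
  set A : ℕ → Set ℤ := fun i => if i < R then
    {n | ∃ a₁ ∈ win S a (2 * P (4 * i + 1)), ∃ a₂ ∈ win S a (2 * P (4 * i + 1)), a₁ - a₂ = n}
    else {n | E < rep S n} with hAdef
  have hAlt : ∀ i, i < R → ∀ n, n ∈ A i ↔ ∃ a₁ ∈ win S a (2 * P (4 * i + 1)),
      ∃ a₂ ∈ win S a (2 * P (4 * i + 1)), a₁ - a₂ = n := by
    intro i hi n
    rw [hAdef]
    simp only [if_pos hi]
    rfl
  have hAR : ∀ n, n ∈ A R ↔ E < rep S n := by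
    intro n
    rw [hAdef]
    simp only [if_neg (lt_irrefl R)]
    rfl
  have hwin : ∀ {p q : ℕ}, p ≤ q → ∀ w ∈ win S a p, w ∈ win S a q := by
    intro p q hpq w hw
    rw [mem_win] at hw ⊢
    have hpq' : (p : ℤ) ≤ q := by exact_mod_cast hpq
    exact ⟨hw.1, by linarith [hw.2.1], hw.2.2⟩
  have hA : ∀ i < R, A i ⊆ A (i + 1) := by
    intro i hi n hn
    rw [hAlt i hi] at hn
    obtain ⟨a₁, h1, a₂, h2, rfl⟩ := hn
    by_cases hi' : i + 1 < R
    · rw [hAlt (i + 1) hi']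
      have hle : 2 * P (4 * i + 1) ≤ 2 * P (4 * (i + 1) + 1) :=
        Nat.mul_le_mul_left _ (hmono _ _ (by omega) (by omega))
      exact ⟨a₁, hwin hle _ h1, a₂, hwin hle _ h2, rfl⟩
    · have hiR : i + 1 = R := by omega
      rw [hiR, hAR]
      have hpw := pop_win hpos hE2 (t := P (4 * i + 2)) h1 h2
      have hrm := rep_mono (win_sub S a (P (4 * i + 2))) (a₁ - a₂)
      have hα := hPα (4 * i + 2) (by omega)
      have hβ := hPβ (4 * i + 2) (by omega)
      have hs := hPs (4 * i + 1) (by omega)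
      have hEE := hEi (4 * i + 2) (by omega)
      have hp := hPpos (4 * i + 2) (by omega)
      set p := P (4 * i + 2) with hpdef
      have hpr : (0 : ℝ) < p := by exact_mod_cast hp
      have hpwr : 2 * ((win S a p).card : ℝ) + (lev S p).card ≤
          p + 2 * P (4 * i + 1) + 2 * E + rep S (a₁ - a₂) := by
        have : 2 * (win S a p).card + (lev S p).card ≤
          p + 2 * P (4 * i + 1) + 2 * E + rep S (a₁ - a₂) := by omega
        exact_mod_cast this
      have hsr : 1000 * (D : ℝ) * (4 * P (4 * i + 1)) ≤ p := by exact_mod_cast hs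
      have hEr : 1000 * (D : ℝ) * E ≤ p := by exact_mod_cast hEE
      have h5 : (1 + 1 / (D : ℝ)) * p ≤ (2 * α + β) * p := mul_le_mul_of_nonneg_right hαβ hpr.le
      have h6 : (p : ℝ) / D ≤ 2 * P (4 * i + 1) + 2 * E + rep S (a₁ - a₂) := by
        have : (1 + 1 / (D : ℝ)) * p = p + p / D := by ring
        rw [this] at h5
        nlinarith
      have h7 : (2 * P (4 * i + 1) + 2 * (E : ℝ)) * (1000 * D) ≤ 3 * p := by nlinarith
      have h8 : (2 * P (4 * i + 1) + 2 * (E : ℝ)) ≤ 3 * p / (1000 * D) := by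
        rw [le_div_iff₀ (by positivity)]
        exact h7
      have h9 : (E : ℝ) ≤ p / (1000 * D) := by
        rw [le_div_iff₀ (by positivity)]
        linarith
      have h10 : (p : ℝ) / D = 1000 * (p / (1000 * D)) := by
        field_simp
      have h11 : 3 * (p : ℝ) / (1000 * D) = 3 * (p / (1000 * D)) := by ring
      have h12 : 0 < (p : ℝ) / (1000 * D) := by positivity
      have : (E : ℝ) < rep S (a₁ - a₂) := by linarith
      exact_mod_cast this
  -- no four columns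
  have hQ : ∀ i < R, ∀ x y : Fin 4 → ℤ, (∀ l, x l ∈ Icc (0 : ℤ) (2 * P 1)) →
      (∀ l, ∃ k < M, y l = (fun k : ℕ => (k : ℤ) * x₀) k) →
      (∀ l, x l - y l ∈ A i) → ¬ (∀ l k, l ≠ k → x l - y k ∉ A (i + 1)) := by
    intro i hi x y hxZ hyM hxy hcon
    have hx : ∀ l, 0 ≤ x l ∧ x l ≤ ((2 * P 1 : ℕ) : ℤ) := by
      intro l
      have := hxZ l
      rw [mem_Icc] at this
      push_cast
      exact this
    have hy : ∀ l, 0 ≤ y l ∧ y l ≤ ((2 * P 1 : ℕ) : ℤ) := by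
      intro l
      obtain ⟨k, hk, hyk⟩ := hyM l
      rw [hyk]
      constructor
      · positivity
      · have : k * x₀ ≤ 2 * P 1 := by
          have : k * x₀ ≤ M * x₀ := Nat.mul_le_mul_right _ hk.le
          omega
        have h' : ((k * x₀ : ℕ) : ℤ) ≤ ((2 * P 1 : ℕ) : ℤ) := by exact_mod_cast this
        simpa using h'
    have hB1 : P 1 ≤ P (4 * i + 1) := hmono _ _ (by omega) (by omega)
    refine no_cube hD S hpos E hE1 hE2 α β hαβ a (2 * P (4 * i + 1)) (2 * P 1)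
      (fun q => P (4 * i + 2 + q)) (hPpos _ (by omega)) (fun q hq => hPα _ (by omega))
      (fun q hq => hPβ _ (by omega)) ?_ ?_ (hEi _ (by omega)) x y hx hy ?_ ?_
    · show 1000 * D * (2 * P (4 * i + 1) + 2 * P 1) ≤ P (4 * i + 2 + 0)
      refine le_trans (Nat.mul_le_mul_left _ ?_) (hPs (4 * i + 1) (by omega))
      omega
    · intro q hq
      show 1000 * D * (P (4 * i + 2 + q) + 2 * P 1) ≤ P (4 * i + 2 + (q + 1))
      refine le_trans (Nat.mul_le_mul_left _ ?_) (hPs (4 * i + 2 + q) (by omega))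
      have := hmono (4 * i + 1) (4 * i + 2 + q) (by omega) (by omega)
      omega
    · intro l
      exact (hAlt i hi _).mp (hxy l)
    · intro q hq l k hlk
      have hnot := hcon l k hlk
      by_cases hi' : i + 1 < R
      · rw [hAlt (i + 1) hi'] at hnot
        have hem : nw S a (P (4 * i + 2 + q)) (x l) ∩ nw S a (P (4 * i + 2 + q)) (y k) = ∅ := by
          rw [eq_empty_iff_forall_notMem]
          intro w hw
          rw [mem_inter, mem_nw, mem_nw] at hw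
          apply hnot
          have h1 := hx l
          have h2 := hy k
          have h3 : P (4 * i + 2 + q) ≤ P (4 * (i + 1) + 1) := hmono _ _ (by omega) (by omega)
          have h4' : P 1 ≤ P (4 * (i + 1)) := hmono _ _ (by omega) (by omega)
          have h5 := hstep _ _ (hPs (4 * (i + 1)) (by omega))
          have h3' : P (4 * i + 2 + q) ≤ P (4 * (i + 1) + 1) := h3
          refine ⟨w - y k, ?_, w - x l, ?_, by ring⟩
          · rw [mem_win]
            push_cast at h1 h2 ⊢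
            refine ⟨hw.2.2, ?_, ?_⟩ <;> omega
          · rw [mem_win]
            push_cast at h1 h2 ⊢
            refine ⟨hw.1.2, ?_, ?_⟩ <;> omega
        show (nw S a (P (4 * i + 2 + q)) (x l) ∩ nw S a (P (4 * i + 2 + q)) (y k)).card ≤ E
        rw [hem]
        exact Nat.zero_le _
      · have hiR : i + 1 = R := by omega
        rw [hiR, hAR, not_lt] at hnot
        refine nw_nw.trans ?_
        rw [← rep_neg, neg_sub]
        exact hnot
  have hη1 : η ≤ 1 := by nlinarith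
  have hZne : (Icc (0 : ℤ) (2 * P 1)).Nonempty := ⟨0, by rw [mem_Icc]; constructor <;> positivity⟩
  obtain ⟨k, k', hkk, hkM, hfew⟩ := few_rows hr hR (Icc (0 : ℤ) (2 * P 1)) hZne
    (fun k : ℕ => (k : ℤ) * x₀) A hA hQ hη0 hη1 hηr hM hmM
  refine ⟨(k' - k) * x₀, Nat.le_mul_of_pos_left _ (by omega),
    Nat.mul_le_mul_right _ (by omega), ?_⟩
  intro y hy
  have hyS := mem_win.mp hy
  have huP : u ≤ P 1 := hstep _ _ hu
  have hu2 : 1000 * u ≤ P 1 := by nlinarith
  have hx2 : 1000 * (M * x₀) ≤ P 0 := by nlinarith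
  have hk'x : k' * x₀ ≤ M * x₀ := Nat.mul_le_mul_right _ hkM.le
  have hhx : (k' - k) * x₀ ≤ M * x₀ := Nat.mul_le_mul_right _ (by omega)
  have hkk' : ((k' : ℤ) - k) * x₀ = (((k' - k) * x₀ : ℕ) : ℤ) := by
    push_cast [Nat.cast_sub hkk.le]
    ring
  have hcard : ((lev S (P 1)).filter (fun s => y - (((k' - k) * x₀ : ℕ) : ℤ) - s ∈ S)).card ≤
      ((Icc (0 : ℤ) (2 * P 1)).filter (fun z => z - (k : ℤ) * x₀ ∈ A 0 ∧
        z - (k' : ℤ) * x₀ ∉ A R)).card := by
    apply card_le_card_of_injOn (fun s => (k' : ℤ) * x₀ + s)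
    · intro s hs
      rw [mem_coe, mem_filter, mem_lev] at hs
      obtain ⟨⟨hsS, hsP⟩, hys⟩ := hs
      have hs0 := hpos s hsS
      have hys0 := hpos _ hys
      have hk'0 : ((k' * x₀ : ℕ) : ℤ) = (k' : ℤ) * x₀ := by push_cast; ring
      rw [mem_coe, mem_filter, mem_Icc]
      refine ⟨⟨?_, ?_⟩, ?_, ?_⟩
      · positivity
      · show (k' : ℤ) * x₀ + s ≤ 2 * P 1
        rw [← hk'0]
        omega
      · rw [hAlt 0 hR0]
        refine ⟨y, ?_, y - (((k' - k) * x₀ : ℕ) : ℤ) - s, ?_, ?_⟩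
        · exact hwin (by simpa using (by omega : u ≤ 2 * P 1)) y hy
        · rw [mem_win]
          refine ⟨hys, ?_, ?_⟩
          · simp only [mul_zero, zero_add]
            push_cast only [Nat.cast_mul (2 : ℕ)]
            omega
          · omega
        · rw [← hkk']
          ring
      · rw [hAR, not_lt]
        have : (k' : ℤ) * x₀ + s - (k' : ℤ) * x₀ = s := by ring
        rw [this]
        exact hE1 s hsS
    · intro s _ s' _ h
      simpa using h
  have hcardr : (((lev S (P 1)).filter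
      (fun s => y - (((k' - k) * x₀ : ℕ) : ℤ) - s ∈ S)).card : ℝ) ≤
      η * ((Icc (0 : ℤ) (2 * P 1)).card : ℝ) := by
    have hc' : (((lev S (P 1)).filter
      (fun s => y - (((k' - k) * x₀ : ℕ) : ℤ) - s ∈ S)).card : ℝ) ≤
      (((Icc (0 : ℤ) (2 * P 1)).filter (fun z => z - (k : ℤ) * x₀ ∈ A 0 ∧
        z - (k' : ℤ) * x₀ ∉ A R)).card : ℝ) := by
      exact_mod_cast hcard
    refine le_trans hc' (le_of_lt ?_)
    convert hfew using 3
  refine hcardr.trans ?_
  have hZc : ((Icc (0 : ℤ) (2 * P 1)).card : ℝ) = 2 * P 1 + 1 := by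
    rw [Int.card_Icc]
    have : ((2 * (P 1 : ℤ) + 1 - 0).toNat) = 2 * P 1 + 1 := by omega
    rw [this]
    push_cast
    ring
  rw [hZc, le_div_iff₀ (by positivity)]
  have hP1 : (1 : ℝ) ≤ P 1 := by exact_mod_cast hPpos 1 (by omega)
  have h13 : η * (2 * P 1 + 1) * (10 * D) = (20 * D * η) * ((2 * P 1 + 1) / 2) := by ring
  rw [h13]
  have h14 : (20 * D * η) * ((2 * (P 1 : ℝ) + 1) / 2) ≤ 1 * ((2 * P 1 + 1) / 2) :=
    mul_le_mul_of_nonneg_right hηD (by positivity)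
  linarith

end SF4
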