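import Pool.Agent.SF4.Defs
import Pool.Agent.SF4.Struct
import Pool.Agent.SF3.Degs
import Pool.Agent.SF2.Node

/-!
# Module NODE: the inequalities at one dilate of a poor set

Abbreviations: `S = secd N C d`, `e k = ee N T C d k`, `z d k = zz N T C θ d k`; `|lev S (T k)| = (e k + 1/3) * T k`.
See `SF3.poor_count3` (Pool/Agent/SF3/Node.lean) for the same kind of argument.
Let `E = T₀ / (4000 D)` (floor): `4000 D E ≤ T₀ ≤ 8000 D E`. `SF3.degs` with `hpoor`: `S' ⊆ S` with `|S \ S'| * E ≤ 2 ε N ^ 2`,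
so `|S \ S'| ≤ 16000 D ε N² / T₀ = 16000 D ε T₀ ρ ^ (2K) ≤ θ` (`hε`), `rep S' s ≤ E`, `#{s : a - s ∈ S'} ≤ E` on `S'`.
(a) `e k ≤ 1`: `|lev S (T k)| ≤ T k` (`e k ≤ 2/3`).
(b) if `z d k = 1` then `|lev S (T k)| ≤ θ ≤ T k / 250000`, `e k ≤ -1/4`.
(c) `A1`: if `z d (j + 1) = 1` (`j + 1 ≤ K`) then `z (d * m) j = 1` for `1 ≤ m ≤ X`: `n ↦ m * n` maps
  `lev (secd N C (d * m)) (T j)` injectively into `lev S (T (j + 1))` (`m * n ≤ X * T j ≤ ρ * T j = T (j + 1) ≤ N`). So
  `avg = 1` and `HH = 1 - z d k ≥ 0`. If `z d (k - c + 1) = 0` then `z d k = 0` and `HH = 280 * avg ≥ 0`.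
(d) `z d k = 0` as `e k ≥ 1/D > 0`. If `z d (k - c + 1) = 1`: `HH = 1 ≥ e k`. Otherwise `HH = 280 * avg`.
  Let `D' = ⌈2 / e k⌉₊ + 100`: `2 / e k ≤ D' ≤ 2 / e k + 101 ≤ 2 D + 101 ≤ 4 D`. Let `j₀ < j₁ < ... < j_{4R+1}` be the smallest `4 R + 2`
  elements of the filtered subset of `Ico (k - n₀) k` (e.g. `Finset.exists_subset_card_eq`, `orderEmbOfFin`), `P i = T (j_i)`
  for `i ≤ 4 R + 1` (anything for larger `i`).
  Apply `struct4` with `D'`, `S'`, `E`, `α = 1/3 + e k - 1/(2500 D) - 1/(10 D')`, `β = 1/3 - e k - 1/(2500 D)`,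
  `x₀ = T (j₀ - (R + 1)) + 1` (`j₀ ≥ k - n₀ ≥ R + 2`), top scale `T k`:
  `3 α ≥ 1 + 1/D'`: `3 e k - 3/(2500 D) ≥ 1.3 / D'`, `1 / D' ≤ e k / 2`, `1 / D ≤ e k`; `2 α + β ≥ 1 + 1/D'`: `e k - 3/(2500 D) ≥ 1.2 / D'`.
  `1000 D' M x₀ ≤ 4000 D * 2 M T (j₀-R-1) ≤ ρ ^ (R+1) * T (j₀-R-1) = T j₀`; `(1000 D')² ≤ ρ`; `20 D' η ≤ 1`.
  It gives `q`, `0 < q ≤ 2 D' ≤ 8 D ≤ X`, no multiple of `q` in `S'` is `≤ T (j₀ - R - 1)`, in particular `≤ T (k - c + 1)`.
  For `m ∈ Icc 1 X` with `q ∣ m`: `n ↦ m * n` maps `lev (secd N C (d * m)) (T (k - c))` into `S \ S'`, so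
  `z (d * m) (k - c) = 1`. There are `X / q ≥ X / (2 q)` such `m` (`Nat.card_multiples` or similar), so `avg ≥ 1 / (2 q)`.
  `2 q e k ≤ 4 D' e k ≤ 4 (2 + 101 e k) ≤ 8 + 404 * 2/3 ≤ 280`, so `e k ≤ 280 / (2 q) ≤ HH`.
-/

namespace SF4

open Finset SFree SF2 SF3

private theorem lev_card_le {S : Finset ℤ} (hS : ∀ s ∈ S, 0 < s) (t : ℕ) :
    (lev S t).card ≤ t := by
  have h1 : lev S t ⊆ Icc (1 : ℤ) t := by
    intro x hx
    rw [mem_lev] at hx
    have := hS x hx.1
    rw [mem_Icc]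
    exact ⟨by omega, hx.2⟩
  have h2 := card_le_card h1
  rw [Int.card_Icc] at h2
  omega

private theorem lev_card_split {S S' : Finset ℤ} (t : ℕ) :
    (lev S t).card ≤ (lev S' t).card + (S \ S').card := by
  have h1 : lev S t ⊆ lev S' t ∪ (S \ S') := by
    intro x hx
    rw [mem_lev] at hx
    rw [mem_union, mem_lev, mem_sdiff]
    by_cases h : x ∈ S'
    · exact Or.inl ⟨h, hx.2⟩
    · exact Or.inr ⟨hx.1, h⟩
  exact (card_le_card h1).trans (card_union_le _ _)

private theorem mem_secd {N : ℕ} {C : Finset ℤ} {d : ℕ} {n : ℤ} :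
    n ∈ secd N C d ↔ (1 ≤ n ∧ n ≤ N) ∧ (d : ℤ) * n ∈ C := by
  unfold secd
  rw [mem_filter, mem_Icc]

private theorem zz_nonneg {N : ℕ} {T : ℕ → ℕ} {C : Finset ℤ} {θ : ℝ} {d k : ℕ} :
    0 ≤ zz N T C θ d k := by
  unfold zz
  split_ifs <;> norm_num

private theorem zz_le_one {N : ℕ} {T : ℕ → ℕ} {C : Finset ℤ} {θ : ℝ} {d k : ℕ} :
    zz N T C θ d k ≤ 1 := by
  unfold zz
  split_ifs <;> norm_num

private theorem zz_cases {N : ℕ} {T : ℕ → ℕ} {C : Finset ℤ} {θ : ℝ} {d k : ℕ} :
    zz N T C θ d k = 1 ∨ zz N T C θ d k = 0 := by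
  unfold zz
  split_ifs <;> simp

private theorem zz_eq_one {N : ℕ} {T : ℕ → ℕ} {C : Finset ℤ} {θ : ℝ} {d k : ℕ} :
    zz N T C θ d k = 1 ↔ ((lev (secd N C d) (T k)).card : ℝ) ≤ θ := by
  unfold zz
  split_ifs with h
  · simp [h]
  · simp [h]

private theorem avg_nonneg {X : ℕ} {φ : ℕ → ℝ} (h : ∀ d, 0 ≤ φ d) (d : ℕ) : 0 ≤ avg X φ d := by
  unfold avg
  apply div_nonneg (sum_nonneg fun m _ => h _) (Nat.cast_nonneg _)

private theorem avg_one {X : ℕ} (hX : 0 < X) {φ : ℕ → ℝ} {d : ℕ}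
    (h : ∀ m ∈ Icc 1 X, φ (d * m) = 1) : avg X φ d = 1 := by
  unfold avg
  rw [sum_congr rfl h, sum_const, Nat.card_Icc, nsmul_eq_mul, mul_one, Nat.add_sub_cancel]
  have : (X : ℝ) ≠ 0 := by exact_mod_cast hX.ne'
  exact div_self this

private theorem avg_ge {X q : ℕ} (hq : 0 < q) (hqX : q ≤ X) {φ : ℕ → ℝ} {d : ℕ}
    (h0 : ∀ d, 0 ≤ φ d) (h : ∀ m ∈ Icc 1 X, q ∣ m → φ (d * m) = 1) :
    1 / (2 * (q : ℝ)) ≤ avg X φ d := by
  classical
  have hX : 0 < X := by omega
  have hXr : (0 : ℝ) < X := by exact_mod_cast hX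
  have hqr : (0 : ℝ) < q := by exact_mod_cast hq
  have h1 : ((X / q : ℕ) : ℝ) ≤ ∑ m ∈ Icc 1 X, φ (d * m) := by
    have h2 : ∑ m ∈ (Icc 1 X).filter (fun m => q ∣ m), φ (d * m) = ((X / q : ℕ) : ℝ) := by
      rw [sum_congr rfl (g := fun _ => (1 : ℝ)) (by
        intro m hm
        rw [mem_filter] at hm
        exact h m hm.1 hm.2)]
      rw [sum_const, nsmul_eq_mul, mul_one]
      congr 1
      have h3 : (Icc 1 X).filter (fun m => q ∣ m) = (Ioc 0 X).filter (fun m => q ∣ m) := by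
        ext m
        simp only [mem_filter, mem_Icc, mem_Ioc]
        omega
      rw [h3]
      exact Nat.Ioc_filter_dvd_card_eq_div X q
    rw [← h2]
    apply sum_le_sum_of_subset_of_nonneg (filter_subset _ _)
    intro m _ _
    exact h0 _
  have h4 : (X : ℝ) / (2 * q) ≤ ((X / q : ℕ) : ℝ) := by
    have h5 : X < q * (X / q + 1) := Nat.lt_mul_div_succ X hq
    have h6 : 1 ≤ X / q := (Nat.one_le_div_iff hq).2 hqX
    have h7 : X ≤ (X / q) * (2 * q) := by nlinarith
    rw [div_le_iff₀ (by positivity)]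
    exact_mod_cast h7
  unfold avg
  rw [le_div_iff₀ hXr]
  calc 1 / (2 * (q : ℝ)) * X = X / (2 * q) := by ring
    _ ≤ _ := h4.trans h1

private theorem card_shift {N : ℕ} {C S' : Finset ℤ} {d m t : ℕ} (hm : 0 < m)
    (hmt : m * t ≤ N)
    (hS' : ∀ n : ℤ, 0 < n → n ≤ t → ((m : ℤ) * n) ∉ S') :
    (lev (secd N C (d * m)) t).card ≤ (secd N C d \ S').card := by
  refine card_le_card_of_injOn (fun n => (m : ℤ) * n) ?_ ?_
  · intro n hn
    have hn' := mem_lev.1 (mem_coe.1 hn)
    have hnS := mem_secd.1 hn'.1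
    refine mem_coe.2 (mem_sdiff.2 ⟨?_, hS' n (by omega) hn'.2⟩)
    rw [mem_secd]
    have hm' : (1 : ℤ) ≤ m := by exact_mod_cast hm
    refine ⟨⟨?_, ?_⟩, ?_⟩
    · nlinarith [hnS.1.1]
    · have h1 : (m : ℤ) * n ≤ m * t := mul_le_mul_of_nonneg_left hn'.2 (by omega)
      have h2 : ((m : ℤ) * t) ≤ N := by exact_mod_cast hmt
      exact h1.trans h2
    · have := hnS.2
      push_cast at this
      rw [← mul_assoc]
      exact this
  · intro a _ b _ hab
    have hm' : (m : ℤ) ≠ 0 := by exact_mod_cast hm.ne'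
    exact mul_left_cancel₀ hm' hab

/-- the case where the section at `d` is almost empty up to `T (k - c + 1)` -/
private theorem zz_mul {N : ℕ} {T : ℕ → ℕ} {C : Finset ℤ} {θ : ℝ} {d m j X : ℕ}
    (hm : 0 < m) (hmX : m ≤ X) (hT : X * T j ≤ T (j + 1))
    (hTN : T (j + 1) ≤ N) (h : zz N T C θ d (j + 1) = 1) : zz N T C θ (d * m) j = 1 := by
  rw [zz_eq_one] at h ⊢
  refine le_trans ?_ h
  have h1 : (lev (secd N C (d * m)) (T j)).card ≤ (lev (secd N C d) (T (j + 1))).card := by
    refine card_le_card_of_injOn (fun n => (m : ℤ) * n) ?_ ?_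
    · intro n hn
      have hn' := mem_lev.1 (mem_coe.1 hn)
      have hnS := mem_secd.1 hn'.1
      have hm' : (1 : ℤ) ≤ m := by exact_mod_cast hm
      have h3 : (m : ℤ) * n ≤ T (j + 1) := by
        have h1 : (m : ℤ) * n ≤ X * T j := by
          apply mul_le_mul _ hn'.2 (by omega) (by positivity)
          exact_mod_cast hmX
        have h2 : ((X : ℤ) * T j) ≤ T (j + 1) := by exact_mod_cast hT
        exact h1.trans h2
      have h4 : (T (j + 1) : ℤ) ≤ N := by exact_mod_cast hTN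
      refine mem_coe.2 (mem_lev.2 ⟨mem_secd.2 ⟨⟨?_, h3.trans h4⟩, ?_⟩, h3⟩)
      · nlinarith [hnS.1.1]
      · have := hnS.2
        push_cast at this
        rw [← mul_assoc]
        exact this
    · intro a _ b _ hab
      have hm' : (m : ℤ) ≠ 0 := by exact_mod_cast hm.ne'
      exact mul_left_cancel₀ hm' hab
  exact_mod_cast h1

theorem node4 {D R r m M X N T₀ ρ K n₀ c : ℕ} {η ε : ℝ}
    (h : Par D R r m M X N T₀ ρ K n₀ c η ε) (T : ℕ → ℕ) (hT : T = fun k => T₀ * ρ ^ k) (θ : ℝ)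
    (hθ : θ = T₀ / (2500 * D)) (C : Finset ℤ) (d : ℕ) (hd : 0 < d)
    (hpoor : (prs (secd N C d) N N : ℝ) ≤ ε * N * N) :
    (∀ k < K, ee N T C d k ≤ 1) ∧
    (∀ k < K, zz N T C θ d k ≤ 4 * max (-ee N T C d k) 0) ∧
    (∀ k < K, c ≤ k → 0 ≤ HH N T C θ 280 X c d k) ∧
    (∀ k < K, c ≤ k → 1 / (D : ℝ) ≤ ee N T C d k →
      4 * R + 2 ≤ ((Ico (k - n₀) k).filter (fun j => -ee N T C d k ≤ ee N T C d j)).card →
      ee N T C d k ≤ HH N T C θ 280 X c d k) := by
  classical
  have hD := h.hD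
  have hDr : (100 : ℝ) ≤ D := by exact_mod_cast hD
  have hD0 : (0 : ℝ) < D := by linarith
  have hρ1 : 1 ≤ ρ := by
    have h1 := h.hρ
    have h2 : 1 ≤ (4000 * D) ^ 2 := Nat.one_le_pow _ _ (by omega)
    omega
  have hT₀pos : 0 < T₀ := by
    have := h.hT₀
    omega
  have hX0 : 0 < X := by
    have := h.hX
    omega
  have hTmono : Monotone T := by
    intro a b hab
    rw [hT]
    exact Nat.mul_le_mul_left _ (Nat.pow_le_pow_right hρ1 hab)
  have hTpos : ∀ k, 0 < T k := by
    intro k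
    rw [hT]
    positivity
  have hTr : ∀ k, (0 : ℝ) < T k := fun k => by exact_mod_cast hTpos k
  have hTsucc : ∀ k, T (k + 1) = ρ * T k := by
    intro k
    rw [hT]
    ring
  have hT0 : T 0 = T₀ := by rw [hT]; simp
  have hTN : T K = N := by rw [← h.hN, hT]
  have hstep : ∀ a b, a < b → ρ * T a ≤ T b := by
    intro a b hab
    rw [← hTsucc]
    exact hTmono hab
  have hNr : (N : ℝ) = T₀ * (ρ : ℝ) ^ K := by rw [← h.hN]; push_cast; rfl
  have hT₀r : (0 : ℝ) < T₀ := by exact_mod_cast hT₀pos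
  have hT₀T : ∀ k, (T₀ : ℝ) ≤ T k := by
    intro k
    rw [← hT0]
    exact_mod_cast hTmono (Nat.zero_le k)
  have hXT : ∀ j, X * T j ≤ T (j + 1) := by
    intro j
    rw [hTsucc]
    exact Nat.mul_le_mul_right _ h.hXρ
  have hSpos : ∀ s ∈ secd N C d, 0 < s := by
    intro s hs
    rw [mem_secd] at hs
    omega
  have hecard : ∀ k, ((lev (secd N C d) (T k)).card : ℝ) = (ee N T C d k + 1 / 3) * T k := by
    intro k
    unfold ee
    have := hTr k
    field_simp
    ring
  have hθT : ∀ k, θ ≤ 1 / (2500 * D) * T k := by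
    intro k
    rw [hθ]
    have h1 := hT₀T k
    have h2 : (0 : ℝ) ≤ 1 / (2500 * D) := by positivity
    calc (T₀ : ℝ) / (2500 * D) = 1 / (2500 * D) * T₀ := by ring
      _ ≤ 1 / (2500 * D) * T k := mul_le_mul_of_nonneg_left h1 h2
  have hsmall : 1 / (2500 * (D : ℝ)) ≤ 1 / 250000 := by
    apply one_div_le_one_div_of_le (by norm_num)
    linarith
  have he23 : ∀ k, ee N T C d k ≤ 2 / 3 := by
    intro k
    have h1 := lev_card_le hSpos (T k)
    have h2 : ((lev (secd N C d) (T k)).card : ℝ) ≤ T k := by exact_mod_cast h1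
    rw [hecard] at h2
    have h3 : (ee N T C d k + 1 / 3) * T k ≤ 1 * T k := by linarith
    have h4 := le_of_mul_le_mul_right h3 (hTr k)
    linarith
  -- `z = 1` means that `e` is very negative
  have hz1 : ∀ k, zz N T C θ d k = 1 → ee N T C d k ≤ -1 / 4 := by
    intro k hk
    rw [zz_eq_one, hecard] at hk
    have h1 := hθT k
    have h2 : (ee N T C d k + 1 / 3) * T k ≤ (1 / (2500 * (D : ℝ))) * T k := hk.trans h1
    have h3 := le_of_mul_le_mul_right h2 (hTr k)
    linarith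
  have hzmono : ∀ i j, i ≤ j → zz N T C θ d i = 0 → zz N T C θ d j = 0 := by
    intro i j hij hi
    rcases zz_cases (N := N) (T := T) (C := C) (θ := θ) (d := d) (k := j) with h1 | h1
    · exfalso
      have h2 : zz N T C θ d i = 1 := by
        rw [zz_eq_one] at h1 ⊢
        refine le_trans ?_ h1
        have h3 : (lev (secd N C d) (T i)).card ≤ (lev (secd N C d) (T j)).card := by
          apply card_le_card
          intro x hx
          rw [mem_lev] at hx ⊢
          refine ⟨hx.1, hx.2.trans ?_⟩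
          exact_mod_cast hTmono hij
        exact_mod_cast h3
      rw [hi] at h2
      norm_num at h2
    · exact h1
  have havg1 : ∀ k < K, c ≤ k → zz N T C θ d (k - c + 1) = 1 →
      avg X (fun d' => zz N T C θ d' (k - c)) d = 1 := by
    intro k hk hck hz
    apply avg_one hX0
    intro m hm
    rw [mem_Icc] at hm
    apply zz_mul (by omega) hm.2 (hXT _) _ hz
    rw [← hTN]
    apply hTmono
    have := h.hc
    omega
  refine ⟨?_, ?_, ?_, ?_⟩
  · intro k _
    have := he23 k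
    linarith
  · intro k _
    rcases zz_cases (N := N) (T := T) (C := C) (θ := θ) (d := d) (k := k) with h1 | h1
    · rw [h1]
      have h2 := hz1 k h1
      have h3 := le_max_left (-ee N T C d k) 0
      linarith
    · rw [h1]
      positivity
  · intro k hk hck
    unfold HH
    rcases zz_cases (N := N) (T := T) (C := C) (θ := θ) (d := d) (k := k - c + 1) with h1 | h1
    · rw [havg1 k hk hck h1, h1]
      have := zz_le_one (N := N) (T := T) (C := C) (θ := θ) (d := d) (k := k)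
      linarith
    · have h2 := hzmono _ k (by have := h.hc; omega) h1
      rw [h1, h2]
      have h3 : 0 ≤ avg X (fun d' => zz N T C θ d' (k - c)) d :=
        avg_nonneg (fun _ => zz_nonneg) d
      linarith
  · intro k hk hck hek hcard
    have hc := h.hc
    have hDinv : (0 : ℝ) < 1 / D := by positivity
    have he0 : 0 < ee N T C d k := lt_of_lt_of_le hDinv hek
    have hzk : zz N T C θ d k = 0 := by
      rcases zz_cases (N := N) (T := T) (C := C) (θ := θ) (d := d) (k := k) with h1 | h1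
      · have := hz1 k h1
        linarith
      · exact h1
    unfold HH
    rcases zz_cases (N := N) (T := T) (C := C) (θ := θ) (d := d) (k := k - c + 1) with h1 | h1
    · rw [havg1 k hk hck h1, h1, hzk]
      have := he23 k
      linarith
    rw [h1, hzk]
    -- the good part
    obtain ⟨E, hE⟩ : ∃ E : ℕ, E = T₀ / (4000 * D) := ⟨_, rfl⟩
    have hE1 : 4000 * D * E ≤ T₀ := by rw [hE]; exact Nat.mul_div_le _ _
    have hE2 : T₀ ≤ 8000 * D * E := by
      have h1 : T₀ < 4000 * D * (E + 1) := by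
        rw [hE]
        exact Nat.lt_mul_div_succ _ (by omega)
      have h2 : 2 ≤ E := by
        rw [hE, Nat.le_div_iff_mul_le (by omega)]
        have := h.hT₀
        omega
      nlinarith
    have hE2r : (T₀ : ℝ) ≤ 8000 * D * E := by exact_mod_cast hE2
    obtain ⟨S', hS'sub, hcardS, hr1, hr2⟩ := degs (secd N C d) hSpos N E (by
      intro s hs
      rw [mem_secd] at hs
      exact hs.1.2) ε hpoor
    have hS'card : (((secd N C d) \ S').card : ℝ) ≤ θ := by
      have h2 : (((secd N C d) \ S').card : ℝ) * T₀ ≤ θ * T₀ := by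
        have h3 : (0 : ℝ) ≤ (((secd N C d) \ S').card : ℝ) := Nat.cast_nonneg _
        have h4 : (((secd N C d) \ S').card : ℝ) * T₀ ≤
            (((secd N C d) \ S').card : ℝ) * (8000 * D * E) :=
          mul_le_mul_of_nonneg_left hE2r h3
        have h5 : (((secd N C d) \ S').card : ℝ) * (8000 * D * E) ≤
            8000 * D * (2 * ε * N * N) := by
          calc (((secd N C d) \ S').card : ℝ) * (8000 * D * E)
              = 8000 * D * ((((secd N C d) \ S').card : ℝ) * E) := by ring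
            _ ≤ _ := mul_le_mul_of_nonneg_left hcardS (by positivity)
        have h6 : 8000 * D * (2 * ε * N * N) ≤ θ * T₀ := by
          have h7 : 8000 * D * (2 * ε * N * N) =
              (ε * (4 * 10 ^ 7 * D ^ 2 * ρ ^ (2 * K))) * (T₀ * T₀ / (2500 * D)) := by
            rw [hNr]
            field_simp
            ring
          rw [h7, hθ]
          calc (ε * (4 * 10 ^ 7 * D ^ 2 * ρ ^ (2 * K))) * (T₀ * T₀ / (2500 * (D : ℝ))) ≤
              1 * (T₀ * T₀ / (2500 * (D : ℝ))) :=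
                mul_le_mul_of_nonneg_right h.hε (by positivity)
            _ = _ := by ring
        linarith
      exact le_of_mul_le_mul_right h2 hT₀r
    have hS'pos : ∀ s ∈ S', 0 < s := fun s hs => hSpos s (hS'sub hs)
    have hlow : ∀ j, (ee N T C d j + 1 / 3 - 1 / (2500 * (D : ℝ))) * T j ≤
        ((lev S' (T j)).card : ℝ) := by
      intro j
      have h1 : ((lev (secd N C d) (T j)).card : ℝ) ≤
          (lev S' (T j)).card + ((secd N C d) \ S').card := by
        exact_mod_cast lev_card_split (S := secd N C d) (S' := S') (T j)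
      have h3 := hθT j
      rw [hecard] at h1
      linarith
    obtain ⟨e, he⟩ : ∃ e : ℝ, e = ee N T C d k := ⟨_, rfl⟩
    rw [← he] at hek he0 hcard ⊢
    have he23k : e ≤ 2 / 3 := by rw [he]; exact he23 k
    -- D'
    obtain ⟨D', hD'⟩ : ∃ D' : ℕ, D' = ⌈2 / e⌉₊ + 100 := ⟨_, rfl⟩
    have hceil1 : 2 / e ≤ (⌈2 / e⌉₊ : ℝ) := Nat.le_ceil _
    have hceil2 : (⌈2 / e⌉₊ : ℝ) < 2 / e + 1 := Nat.ceil_lt_add_one (by positivity)
    have h2e : 2 / e ≤ 2 * D := by
      rw [div_le_iff₀ he0]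
      have := mul_le_mul_of_nonneg_left hek hD0.le
      have h3 : (D : ℝ) * (1 / D) = 1 := by field_simp
      linarith
    have hD'r : (D' : ℝ) = (⌈2 / e⌉₊ : ℝ) + 100 := by rw [hD']; push_cast; rfl
    have hD'4 : D' ≤ 4 * D := by
      have : (D' : ℝ) ≤ 4 * D := by rw [hD'r]; linarith
      exact_mod_cast this
    have hD'100 : 100 ≤ D' := by omega
    have hD'0 : (0 : ℝ) < D' := by
      have : (100 : ℝ) ≤ D' := by exact_mod_cast hD'100
      linarith
    have hinv' : 1 / (D' : ℝ) ≤ e / 2 := by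
      rw [div_le_iff₀ hD'0]
      have h3 : e / 2 * (2 / e) = 1 := by field_simp
      have h4 : e / 2 * (2 / e) ≤ e / 2 * D' := by
        apply mul_le_mul_of_nonneg_left _ (by positivity)
        rw [hD'r]
        linarith
      linarith
    -- the scales
    obtain ⟨F', hF'sub, hF'card⟩ := exists_subset_card_eq hcard
    obtain ⟨J, hJ⟩ : ∃ J : ℕ → ℕ, J = fun i => if hi : i < 4 * R + 2 then
        F'.orderEmbOfFin hF'card ⟨i, hi⟩ else 0 := ⟨_, rfl⟩
    have hJmem : ∀ i ≤ 4 * R + 1, J i ∈ F' := by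
      intro i hi
      rw [hJ]
      simp only
      rw [dif_pos (by omega)]
      exact orderEmbOfFin_mem _ _ _
    have hJlt : ∀ i ≤ 4 * R, J i < J (i + 1) := by
      intro i hi
      rw [hJ]
      simp only
      rw [dif_pos (by omega), dif_pos (by omega)]
      apply (F'.orderEmbOfFin hF'card).strictMono
      rw [Fin.lt_def]
      exact Nat.lt_succ_self i
    have hJF : ∀ i ≤ 4 * R + 1, (k - n₀ ≤ J i ∧ J i < k) ∧ -e ≤ ee N T C d (J i) := by
      intro i hi
      have := hF'sub (hJmem i hi)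
      rw [mem_filter, mem_Ico] at this
      exact this
    obtain ⟨⟨hJ0a, hJ0b⟩, _⟩ := hJF 0 (by omega)
    have hJ0 : R + 1 ≤ J 0 := by omega
    have hρD' : (1000 * D') ^ 2 ≤ ρ := by
      refine le_trans ?_ h.hρ
      apply Nat.pow_le_pow_left
      omega
    have hρD'1 : 1000 * D' ≤ ρ := by
      refine le_trans ?_ hρD'
      have : 1 ≤ 1000 * D' := by omega
      nlinarith
    have e10 : 1 / (10 * (D' : ℝ)) = 1 / 10 * (1 / D') := by rw [one_div_mul_one_div]
    have e25 : 1 / (2500 * (D : ℝ)) = 1 / 2500 * (1 / D) := by rw [one_div_mul_one_div]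
    obtain ⟨q, hq0, hqD, hq⟩ := struct4 (m := m) (M := M) (r := r) (R := R) hD'100 h.hr h.hR S'
      hS'pos E hr1 hr2 (1 / 3 + e - 1 / (2500 * (D : ℝ)) - 1 / (10 * (D' : ℝ)))
      (1 / 3 - e - 1 / (2500 * (D : ℝ)))
      (by rw [e10, e25]; linarith)
      (by rw [e10, e25]; linarith)
      (T (J 0 - (R + 1)) + 1) (T k) (fun i => T (J i)) (Nat.succ_pos _)
      (by
        intro i hi
        refine le_trans ?_ (hlow (J i))
        apply mul_le_mul_of_nonneg_right _ (hTr _).le
        have := (hJF i hi).2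
        linarith)
      (by
        refine le_trans (le_of_eq ?_) (hlow k)
        rw [← he]
        ring)
      (by
        intro i hi
        exact le_trans (Nat.mul_le_mul_right _ hρD') (hstep _ _ (hJlt i hi)))
      (le_trans (Nat.mul_le_mul_right _ hρD'1) (hstep _ _ (hJF (4 * R + 1) le_rfl).1.2))
      (by
        have h1 := hTpos (J 0 - (R + 1))
        have h2 : T (J 0) = ρ ^ (R + 1) * T (J 0 - (R + 1)) := by
          rw [hT]
          simp only
          have h3 : J 0 = (J 0 - (R + 1)) + (R + 1) := by omega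
          conv_lhs => rw [h3, pow_add]
          ring
        calc 1000 * D' * (M * (T (J 0 - (R + 1)) + 1))
            ≤ 1000 * (4 * D) * (M * (2 * T (J 0 - (R + 1)))) := by gcongr; omega
          _ = (8000 * D * M) * T (J 0 - (R + 1)) := by ring
          _ ≤ ρ ^ (R + 1) * T (J 0 - (R + 1)) := Nat.mul_le_mul_right _ h.hρM
          _ = T (J 0) := h2.symm)
      (by
        calc 1000 * D' * E ≤ 1000 * (4 * D) * E := by gcongr
          _ = 4000 * D * E := by ring
          _ ≤ T₀ := hE1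
          _ = T 0 := hT0.symm
          _ ≤ T (J 0) := hTmono (Nat.zero_le _))
      η h.hη0
      (by
        have h1 : (D' : ℝ) ≤ 4 * D := by exact_mod_cast hD'4
        have h2 := mul_le_mul_of_nonneg_right h1 h.hη0.le
        have := h.hηD
        linarith)
      h.hηr h.hM h.hmM
    have hqX : q ≤ X := by
      have := h.hX
      omega
    have havg : 1 / (2 * (q : ℝ)) ≤ avg X (fun d' => zz N T C θ d' (k - c)) d := by
      apply avg_ge hq0 hqX (fun _ => zz_nonneg)
      intro m' hm' hqm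
      rw [mem_Icc] at hm'
      rw [zz_eq_one]
      refine le_trans ?_ hS'card
      have h3 : m' * T (k - c) ≤ T (k - c + 1) :=
        (Nat.mul_le_mul_right _ hm'.2).trans (hXT _)
      have h2 : (lev (secd N C (d * m')) (T (k - c))).card ≤ (secd N C d \ S').card := by
        apply card_shift (by omega)
        · refine h3.trans ?_
          rw [← hTN]
          exact hTmono (by omega)
        · intro n hn0 hnt hmem
          refine hq _ hmem ?_ (Dvd.dvd.mul_right (by exact_mod_cast hqm) n)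
          have h4 : (m' : ℤ) * n ≤ m' * T (k - c) :=
            mul_le_mul_of_nonneg_left hnt (by positivity)
          have h5 : ((m' : ℤ) * T (k - c)) ≤ T (k - c + 1) := by exact_mod_cast h3
          have h6 : (T (k - c + 1) : ℤ) ≤ T (J 0 - (R + 1)) := by
            exact_mod_cast hTmono (show k - c + 1 ≤ J 0 - (R + 1) by omega)
          push_cast
          omega
      exact_mod_cast h2
    have hq0r : (0 : ℝ) < q := by exact_mod_cast hq0
    have hqDr : (q : ℝ) ≤ 2 * D' := by exact_mod_cast hqD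
    have hfin : e ≤ 280 * (1 / (2 * (q : ℝ))) := by
      rw [mul_one_div, le_div_iff₀ (by positivity)]
      have h2 : e * (2 * q) ≤ e * (2 * (2 * D')) := by
        apply mul_le_mul_of_nonneg_left _ he0.le
        linarith
      have h3 : e * D' ≤ 2 + 101 * e := by
        have h4 : (D' : ℝ) ≤ 2 / e + 101 := by rw [hD'r]; linarith
        have h5 := mul_le_mul_of_nonneg_left h4 he0.le
        have h6 : e * (2 / e + 101) = 2 + 101 * e := by field_simp
        linarith
      nlinarith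
    have h280 := mul_le_mul_of_nonneg_left havg (show (0 : ℝ) ≤ 280 by norm_num)
    linarith

end SF4
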