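import Pool.Agent.SF4.Assemble

/-!
# Module PARAMS: the choice of the parameters

Let `l = Nat.log 2 D + 20`, `b = 2 ^ l` (`2 ^ 19 * D ≤ b ≤ 2 ^ 20 * D`), `r = Nat.clog 4 l` (`l ≤ 4 ^ r`, `r ≤ l`), `R = 2 r`, `m = b ^ 2`,
`η = 1 / (80 D)`, `M = b ^ (36 R + 1)`, `X = 8 D`, `ρ = b ^ 40`, `n₀ = 5 (4 R + 2)`, `c = n₀ + R + 2 = 21 R + 12`,
`G = 1 + 1 / (20000 c)`, `r₀ = 1 - 1 / 10000`, `K = 20000 * c * l`, `κ = 20000 * l + 1`, `Z = 40 * K + κ` (so `ρ ^ K = b ^ (40 K)`, `X ^ κ ≤ b ^ κ`,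
both `≤ b ^ Z`), and as in `SF3.final_sets3`: `ε = 1 / b ^ (2 Z + 3)`, `τ = 1 / b ^ (2 Z + 5)`, `β = b ^ (4 Z + 11)`,
`h₀ = b ^ (6 Z + 15)`, `T₀ = b ^ (10 Z + 40)`, `N = T₀ * ρ ^ K`. (Any similar choice of exponents will do.)
Checks: `(1/2) ^ (4 ^ r) ≤ (1/2) ^ l = 1 / b ≤ 1 / (1280 D) = η / 16`. `m * R + 1 ≤ b ^ 3`, `(m R + 1) ^ (12 R) ≤ b ^ (36 R) < M`.
`hmM`: `(1 - η/2) ^ m ≤ exp (-η m / 2)`, `2 ^ (η m / 4) = exp (η m / 4 * log 2) ≤ exp (η m / 4)`, so the product is at most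
`exp (2 (36 R + 1) l - η m / 4)` and `η m / 4 = b ^ 2 / (320 D) ≥ 1600 b`, while `2 (36 R + 1) l ≤ 200 * l ^ 2 < 1600 b`
(`R ≤ 2 l`; `l ^ 2 ≤ b`).
`hρM`: `8000 D b ^ (36 R + 1) ≤ b ^ (36 R + 3) ≤ b ^ (40 R + 40)`. `G ^ c ≤ exp (1 / 20000) ≤ 1 + 1 / 10000`, `G ^ n₀ ≤ 2`;
`280 ((1 + 1/10000) / (1 - 1/10000) - 1) + 1/10000 ≤ 1/8`. `G ^ K = (G ^ (20000 c)) ^ l ≥ 2 ^ l = b`, so
`∑ G ^ k = 20000 c (G ^ K - 1) ≥ 600 c D`. `r₀ ^ 10000 ≤ exp (-1) ≤ 1/2`, `r₀ ^ (κ - 1) ≤ (1/4) ^ l ≤ 1 / (600 D)`.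
Size: `log |A| ≤ κ log X + log N = O(Z l) = O(c l ^ 2)`, `c = O(R) = O(log l)`, `l = O(log D)`: `≤ C₀ (log D) ^ 2 * log log D`.
-/

namespace SF4

open Finset SFree SF2 SF3

private lemma pm_sq_le (t : ℕ) : (t + 20) ^ 2 ≤ 2 ^ (t + 20) := by
  induction t with
  | zero => norm_num
  | succ t ih =>
    have h1 : 2 ^ (t + 1 + 20) = 2 ^ (t + 20) * 2 := by ring
    have h2 : (t + 20) ^ 2 * 2 = (t + 1 + 20) ^ 2 + (t ^ 2 + 38 * t + 359) := by ring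
    rw [h1]
    omega

private lemma pm_exp_le {x : ℝ} (hx : x < 1) : Real.exp x ≤ 1 / (1 - x) := by
  have h1 : 1 - x ≤ Real.exp (-x) := by
    have := Real.add_one_le_exp (-x)
    linarith
  have h2 : Real.exp x = 1 / (Real.exp (-x)) := by
    rw [Real.exp_neg, one_div, inv_inv]
  rw [h2]
  exact one_div_le_one_div_of_le (by linarith) h1

private lemma pm_r0 (l : ℕ) : (1 - 1 / 10000 : ℝ) ^ (20000 * l) ≤ 1 / ((2 : ℝ) ^ l) ^ 2 := by
  obtain ⟨x, hx⟩ : ∃ x : ℝ, x = 1 - 1 / 10000 := ⟨_, rfl⟩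
  obtain ⟨n, hn⟩ : ∃ n : ℕ, n = 20000 := ⟨_, rfl⟩
  have hx0 : 0 ≤ x := by rw [hx]; norm_num
  have h3 : x ≤ Real.exp (-(1 / 10000)) := by
    rw [hx]
    linarith [Real.add_one_le_exp (-(1 / 10000 : ℝ))]
  have h2 : x ^ n ≤ 1 / 4 := by
    calc x ^ n ≤ (Real.exp (-(1 / 10000))) ^ n := pow_le_pow_left₀ hx0 h3 _
      _ = Real.exp (-2) := by
          rw [← Real.exp_nat_mul, hn]
          congr 1
          norm_num
      _ = (Real.exp 1)⁻¹ * (Real.exp 1)⁻¹ := by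
          rw [← Real.exp_neg, ← Real.exp_add]
          congr 1
          norm_num
      _ ≤ (2 : ℝ)⁻¹ * (2 : ℝ)⁻¹ := by
          have h2e : (2 : ℝ) ≤ Real.exp 1 := by
            linarith [Real.add_one_le_exp (1 : ℝ)]
          have := inv_anti₀ (by norm_num : (0 : ℝ) < 2) h2e
          apply mul_le_mul this this (by positivity) (by norm_num)
      _ = 1 / 4 := by norm_num
  rw [← hx, ← hn, pow_mul]
  calc (x ^ n) ^ l ≤ (1 / 4) ^ l := pow_le_pow_left₀ (pow_nonneg hx0 n) h2 l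
    _ = 1 / ((2 : ℝ) ^ l) ^ 2 := by
        rw [one_div_pow, ← pow_mul, mul_comm l 2, pow_mul]
        norm_num

/-- the exponential estimate `hmM` -/
private lemma pm_hmM {D l b r : ℕ} (hD : 1 ≤ D) (hbl : b = 2 ^ l) (hl20 : 20 ≤ l) (hb1 : 2 ^ 19 * D ≤ b)
    (hrl : r ≤ l) :
    (((b ^ (36 * (2 * r) + 1) : ℕ) : ℕ) : ℝ) ^ 2 * (2 : ℝ) ^ ((1 / (80 * (D : ℝ))) / 4 * ((b ^ 2 : ℕ) : ℝ)) *
      (1 - (1 / (80 * (D : ℝ))) / 2) ^ (b ^ 2) < 1 := by
  have hDr : (1 : ℝ) ≤ D := by exact_mod_cast hD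
  have hD0 : (0 : ℝ) < D := by linarith
  have hb0 : (0 : ℝ) < b := by rw [hbl]; positivity
  have hbr1 : 2 ^ 19 * (D : ℝ) ≤ b := by exact_mod_cast hb1
  have h2e : (2 : ℝ) ≤ Real.exp 1 := by
    linarith [Real.add_one_le_exp (1 : ℝ)]
  have hble : (b : ℝ) ≤ Real.exp l := by
    rw [hbl]; push_cast
    calc (2 : ℝ) ^ l ≤ (Real.exp 1) ^ l := pow_le_pow_left₀ (by norm_num) h2e l
      _ = Real.exp l := by rw [← Real.exp_nat_mul, mul_one]
  have h1 : (((b ^ (36 * (2 * r) + 1) : ℕ) : ℕ) : ℝ) ^ 2 ≤ Real.exp (((36 * (2 * r) + 1) * 2 : ℕ) * l) := by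
    push_cast
    calc (((b : ℝ) ^ (36 * (2 * r) + 1)) ^ 2) = (b : ℝ) ^ ((36 * (2 * r) + 1) * 2) := by rw [← pow_mul]
      _ ≤ (Real.exp l) ^ ((36 * (2 * r) + 1) * 2) := pow_le_pow_left₀ hb0.le hble _
      _ = Real.exp ((((36 * (2 * r) + 1) * 2 : ℕ) : ℝ) * l) := by rw [← Real.exp_nat_mul]
      _ = _ := by push_cast; rfl
  have hm0 : (0 : ℝ) ≤ ((b ^ 2 : ℕ) : ℝ) := Nat.cast_nonneg _
  have h2 : (2 : ℝ) ^ ((1 / (80 * (D : ℝ))) / 4 * ((b ^ 2 : ℕ) : ℝ)) ≤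
      Real.exp ((1 / (80 * (D : ℝ))) / 4 * ((b ^ 2 : ℕ) : ℝ)) := by
    rw [Real.rpow_def_of_pos (by norm_num)]
    rw [Real.exp_le_exp]
    have hlog : Real.log 2 ≤ 1 := by
      have := Real.log_two_lt_d9
      linarith
    exact mul_le_of_le_one_left (by positivity) hlog
  have h3 : (1 - (1 / (80 * (D : ℝ))) / 2) ^ (b ^ 2) ≤
      Real.exp (-((1 / (80 * (D : ℝ))) / 2 * ((b ^ 2 : ℕ) : ℝ))) := by
    have h30 : 0 ≤ 1 - (1 / (80 * (D : ℝ))) / 2 := by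
      have : (1 / (80 * (D : ℝ))) ≤ 1 := by
        rw [div_le_one (by positivity)]
        linarith
      linarith
    have h31 : 1 - (1 / (80 * (D : ℝ))) / 2 ≤ Real.exp (-((1 / (80 * (D : ℝ))) / 2)) := by
      linarith [Real.add_one_le_exp (-((1 / (80 * (D : ℝ))) / 2))]
    calc (1 - (1 / (80 * (D : ℝ))) / 2) ^ (b ^ 2) ≤ (Real.exp (-((1 / (80 * (D : ℝ))) / 2))) ^ (b ^ 2) :=
          pow_le_pow_left₀ h30 h31 _
      _ = Real.exp (-((1 / (80 * (D : ℝ))) / 2 * ((b ^ 2 : ℕ) : ℝ))) := by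
          rw [← Real.exp_nat_mul]
          congr 1
          ring
  have hlt : (((36 * (2 * r) + 1) * 2 : ℕ) : ℝ) * l + (1 / (80 * (D : ℝ))) / 4 * ((b ^ 2 : ℕ) : ℝ) +
      (-((1 / (80 * (D : ℝ))) / 2 * ((b ^ 2 : ℕ) : ℝ))) < 0 := by
    have e1 : (1 / (80 * (D : ℝ))) / 4 * ((b ^ 2 : ℕ) : ℝ) +
      (-((1 / (80 * (D : ℝ))) / 2 * ((b ^ 2 : ℕ) : ℝ))) = - ((b : ℝ) ^ 2 / (320 * D)) := by
      push_cast
      field_simp
      ring
    have e2 : 1600 * (b : ℝ) ≤ (b : ℝ) ^ 2 / (320 * D) := by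
      rw [le_div_iff₀ (by positivity)]
      nlinarith
    have hsq : (l : ℝ) ^ 2 ≤ b := by
      obtain ⟨t, rfl⟩ : ∃ t, l = t + 20 := ⟨l - 20, by omega⟩
      rw [hbl]
      exact_mod_cast pm_sq_le t
    have hrl' : (r : ℝ) ≤ l := by exact_mod_cast hrl
    have hl20' : (20 : ℝ) ≤ l := by exact_mod_cast hl20
    have e3 : (((36 * (2 * r) + 1) * 2 : ℕ) : ℝ) * l ≤ 200 * (l : ℝ) ^ 2 := by
      push_cast
      nlinarith
    nlinarith
  calc (((b ^ (36 * (2 * r) + 1) : ℕ) : ℕ) : ℝ) ^ 2 * (2 : ℝ) ^ ((1 / (80 * (D : ℝ))) / 4 * ((b ^ 2 : ℕ) : ℝ)) *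
      (1 - (1 / (80 * (D : ℝ))) / 2) ^ (b ^ 2)
      ≤ Real.exp ((((36 * (2 * r) + 1) * 2 : ℕ) : ℝ) * l) * Real.exp ((1 / (80 * (D : ℝ))) / 4 * ((b ^ 2 : ℕ) : ℝ)) *
        Real.exp (-((1 / (80 * (D : ℝ))) / 2 * ((b ^ 2 : ℕ) : ℝ))) := by
        apply mul_le_mul _ h3 _ (by positivity)
        · apply mul_le_mul _ h2 (by positivity) (by positivity)
          exact_mod_cast h1
        · apply pow_nonneg
          have : (1 / (80 * (D : ℝ))) ≤ 1 := by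
            rw [div_le_one (by positivity)]
            linarith
          linarith
    _ = Real.exp ((((36 * (2 * r) + 1) * 2 : ℕ) : ℝ) * l + (1 / (80 * (D : ℝ))) / 4 * ((b ^ 2 : ℕ) : ℝ) +
      (-((1 / (80 * (D : ℝ))) / 2 * ((b ^ 2 : ℕ) : ℝ)))) := by
        rw [Real.exp_add, Real.exp_add]
    _ < Real.exp 0 := Real.exp_lt_exp.mpr hlt
    _ = 1 := Real.exp_zero


private lemma pm_cont (b Z K κ D : ℕ) (hb : 2 ^ 39 ≤ b) (hD : 1 ≤ D) (hDb : 8 * D ≤ b) (hZ : Z = 40 * K + κ)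
    (hMexp : ((10 * Z + 40 + 40 * K : ℕ) : ℝ) ≤ (b : ℝ) ^ 3) (N T₀ h₀ β : ℕ) (τ ε : ℝ)
    (hN : N = b ^ (10 * Z + 40 + 40 * K)) (hT₀ : T₀ = b ^ (10 * Z + 40))
    (hh₀ : h₀ = b ^ (6 * Z + 15)) (hβ : β = b ^ (4 * Z + 11))
    (hτ : τ = 1 / (b : ℝ) ^ (2 * Z + 5)) (hε : ε = 1 / (b : ℝ) ^ (2 * Z + 3)) :
    0 < h₀ ∧ h₀ + 1 ≤ N ∧ 0 < τ ∧ (β : ℝ) ≤ h₀ * ε / 4 ∧
    Real.exp (-(τ / 2)) + Real.exp (-(τ / 2) * β) ≤ 1 ∧
    (N : ℝ) ^ (h₀ + 1) * Real.exp (-τ * (ε * N / 16 - h₀)) ≤ 1 / 2 ∧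
    τ * (((8 * D : ℕ) : ℝ) ^ κ * N) < T₀ / D := by
  have hbig39r : (131072 : ℝ) ≤ b := by
    have : 131072 ≤ b := le_trans (by norm_num) hb
    exact_mod_cast this
  have hD1r : (1 : ℝ) ≤ D := by exact_mod_cast hD
  have hDbr : 8 * (D : ℝ) ≤ b := by exact_mod_cast hDb
  have hD0 : (0 : ℝ) < D := by linarith
  have hbr : (1 : ℝ) ≤ b := by linarith
  have hb0 : (0 : ℝ) < b := by linarith
  have hbpos : 0 < b := by exact_mod_cast hb0
  have hb1 : 1 < b := by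
    have : (1 : ℝ) < b := by linarith
    exact_mod_cast this
  clear hb
  have hτ0 : 0 < τ := by rw [hτ]; positivity
  have hε0 : 0 < ε := by rw [hε]; positivity
  have hh₀pos : 0 < h₀ := by rw [hh₀]; positivity
  have hT₀pos : 0 < T₀ := by rw [hT₀]; positivity
  have hh₀1 : (1 : ℝ) ≤ h₀ := by exact_mod_cast hh₀pos
  have hτ1 : τ ≤ 1 := by
    rw [hτ, div_le_one (by positivity)]
    exact one_le_pow₀ hbr
  refine ⟨hh₀pos, ?_, hτ0, ?_, ?_, ?_, ?_⟩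
  · have h1 : b ^ (6 * Z + 15) < b ^ (10 * Z + 40 + 40 * K) :=
      Nat.pow_lt_pow_right hb1 (by omega)
    rw [hh₀, hN]
    exact h1
  · rw [hε, hβ, hh₀]
    push_cast
    rw [mul_one_div, div_div, le_div_iff₀ (by positivity)]
    calc (b : ℝ) ^ (4 * Z + 11) * (b ^ (2 * Z + 3) * 4)
        ≤ (b : ℝ) ^ (4 * Z + 11) * (b ^ (2 * Z + 3) * b ^ 1) := by
          gcongr
          rw [pow_one]
          linarith only [hbig39r]
      _ = (b : ℝ) ^ (4 * Z + 11 + (2 * Z + 3) + 1) := by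
          rw [pow_add _ (4 * Z + 11 + (2 * Z + 3)) 1, pow_add _ (4 * Z + 11) (2 * Z + 3)]; ring
      _ ≤ (b : ℝ) ^ (6 * Z + 15) := powb_le hbr (by omega)
  · have h1 := exp_neg_le_half (x := τ / 2) (by positivity) (by linarith only [hτ1, hτ0])
    have hβ0 : (0 : ℝ) < β := by rw [hβ]; push_cast; positivity
    have h2 : Real.exp (-(τ / 2) * β) ≤ 1 / ((τ / 2) * β) := by
      rw [neg_mul]
      exact exp_neg_le_inv (by positivity)
    have h3 : 1 / ((τ / 2) * β) ≤ τ / 2 / 2 := by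
      rw [div_le_iff₀ (by positivity)]
      have h4 : 8 ≤ τ ^ 2 * β := by
        rw [hτ, hβ, one_div_pow, ← pow_mul]
        push_cast
        rw [one_div_mul_eq_div, le_div_iff₀ (by positivity)]
        calc (8 : ℝ) * (b : ℝ) ^ ((2 * Z + 5) * 2)
            ≤ (b : ℝ) ^ 1 * (b : ℝ) ^ ((2 * Z + 5) * 2) := by
              gcongr
              rw [pow_one]
              linarith only [hbig39r]
          _ = (b : ℝ) ^ (4 * Z + 11) := by
              rw [← pow_add]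
              congr 1
              ring
      have h5 : τ / 2 / 2 * (τ / 2 * β) = τ ^ 2 * β / 8 := by ring
      rw [h5]
      linarith only [h4]
    linarith only [h1, h2, h3]
  · have h1 : (N : ℝ) ≤ Real.exp ((b : ℝ) ^ 4) := by
      have h2 : (b : ℝ) ≤ Real.exp b := by linarith only [Real.add_one_le_exp (b : ℝ)]
      calc (N : ℝ) = (b : ℝ) ^ (10 * Z + 40 + 40 * K) := by rw [hN]; push_cast; rfl
        _ ≤ (Real.exp b) ^ (10 * Z + 40 + 40 * K) := pow_le_pow_left₀ hb0.le h2 _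
        _ = Real.exp (((10 * Z + 40 + 40 * K : ℕ) : ℝ) * b) := by
            rw [← Real.exp_nat_mul]
        _ ≤ Real.exp ((b : ℝ) ^ 4) := by
            rw [Real.exp_le_exp]
            calc ((10 * Z + 40 + 40 * K : ℕ) : ℝ) * b ≤ (b : ℝ) ^ 3 * b :=
                  mul_le_mul_of_nonneg_right hMexp hb0.le
              _ = (b : ℝ) ^ 4 := by ring
    have h2 : (N : ℝ) ^ (h₀ + 1) ≤ Real.exp ((b : ℝ) ^ 4 * (h₀ + 1)) := by
      calc (N : ℝ) ^ (h₀ + 1) ≤ (Real.exp ((b : ℝ) ^ 4)) ^ (h₀ + 1) :=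
            pow_le_pow_left₀ (Nat.cast_nonneg _) h1 _
        _ = Real.exp ((b : ℝ) ^ 4 * (h₀ + 1)) := by
            rw [← Real.exp_nat_mul]
            push_cast
            congr 1
            ring
    -- the exponent
    have h3 : τ * (ε * N) = (b : ℝ) ^ (6 * Z + 32 + 40 * K) := by
      have h30 : (N : ℝ) = (b : ℝ) ^ (2 * Z + 5) * (b : ℝ) ^ (2 * Z + 3) * (b : ℝ) ^ (6 * Z + 32 + 40 * K) := by
        rw [hN, ← pow_add, ← pow_add]
        push_cast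
        congr 1
        ring
      have h31 : (0 : ℝ) < (b : ℝ) ^ (2 * Z + 5) := by positivity
      have h32 : (0 : ℝ) < (b : ℝ) ^ (2 * Z + 3) := by positivity
      rw [h30, hτ, hε]
      generalize (b : ℝ) ^ (2 * Z + 5) = x at h31 ⊢
      generalize (b : ℝ) ^ (2 * Z + 3) = v at h32 ⊢
      generalize (b : ℝ) ^ (6 * Z + 32 + 40 * K) = w
      field_simp
    have h4 : (h₀ : ℝ) = (b : ℝ) ^ (6 * Z + 15) := by rw [hh₀]; push_cast; rfl
    have h5 : h₀ * (b : ℝ) ^ 7 ≤ (b : ℝ) ^ (6 * Z + 32 + 40 * K) := by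
      rw [h4, ← pow_add]
      exact powb_le hbr (by omega)
    have h6 : (b : ℝ) ^ 4 * (h₀ + 1) + 1 ≤ τ * (ε * N / 16 - h₀) := by
      have h7 : h₀ * (b : ℝ) ^ 7 / 16 - τ * h₀ ≤ τ * (ε * N / 16 - h₀) := by
        have : τ * (ε * N / 16 - h₀) = τ * (ε * N) / 16 - τ * h₀ := by ring
        rw [this, h3]
        linarith only [h5]
      have h8 : τ * h₀ ≤ h₀ := mul_le_of_le_one_left (by positivity) hτ1
      have h9 : (1 : ℝ) ≤ b ^ 4 := one_le_pow₀ hbr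
      have h10 : (b : ℝ) ^ 4 * (h₀ + 1) + 1 ≤ h₀ * (3 * b ^ 4) := by
        have h11 : (b : ℝ) ^ 4 * (h₀ + 1) ≤ b ^ 4 * (2 * h₀) := by
          gcongr
          linarith only [hh₀1]
        have h12 : (1 : ℝ) ≤ h₀ * b ^ 4 := one_le_mul_of_one_le_of_one_le hh₀1 h9
        have h13 : h₀ * (3 * (b : ℝ) ^ 4) = b ^ 4 * (2 * h₀) + h₀ * b ^ 4 := by ring
        rw [h13]
        linarith only [h11, h12]
      have h11 : 3 * (b : ℝ) ^ 4 + 1 ≤ b ^ 7 / 16 := by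
        have h12 : (64 : ℝ) ≤ b ^ 3 := by
          calc (64 : ℝ) ≤ (b : ℝ) := by linarith only [hbig39r]
            _ = (b : ℝ) ^ 1 := by rw [pow_one]
            _ ≤ (b : ℝ) ^ 3 := powb_le hbr (by norm_num)
        have h14 : (b : ℝ) ^ 7 = b ^ 4 * b ^ 3 := by ring
        rw [h14]
        have h15 : (b : ℝ) ^ 4 * 64 ≤ b ^ 4 * b ^ 3 := by gcongr
        linarith only [h15, h9]
      have h12 : (h₀ : ℝ) * (3 * b ^ 4 + 1) ≤ h₀ * (b ^ 7 / 16) :=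
        mul_le_mul_of_nonneg_left h11 (by positivity)
      linarith only [h7, h8, h10, h12]
    calc (N : ℝ) ^ (h₀ + 1) * Real.exp (-τ * (ε * N / 16 - h₀))
        ≤ Real.exp ((b : ℝ) ^ 4 * (h₀ + 1)) * Real.exp (-τ * (ε * N / 16 - h₀)) := by
          gcongr
      _ = Real.exp ((b : ℝ) ^ 4 * (h₀ + 1) - τ * (ε * N / 16 - h₀)) := by
          rw [← Real.exp_add]
          congr 1
          ring
      _ ≤ Real.exp (-1) := by
          rw [Real.exp_le_exp]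
          linarith only [h6]
      _ ≤ 1 / 2 := by
          have := exp_neg_le_half (x := 1) (by norm_num) le_rfl
          linarith only [this]
  · have hXκ : ((8 * D : ℕ) : ℝ) ^ κ ≤ (b : ℝ) ^ κ := by
      apply pow_le_pow_left₀ (by positivity)
      push_cast
      linarith only [hDbr]
    have h1 : (N : ℝ) = T₀ * (b : ℝ) ^ (40 * K) := by
      rw [hN, hT₀]
      push_cast
      rw [← pow_add]
    have hT : (0 : ℝ) < T₀ := by exact_mod_cast hT₀pos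
    have h2 : τ * (((8 * D : ℕ) : ℝ) ^ κ * N) ≤ τ * ((b : ℝ) ^ κ * N) := by
      apply mul_le_mul_of_nonneg_left _ hτ0.le
      exact mul_le_mul_of_nonneg_right hXκ (Nat.cast_nonneg _)
    have h3 : τ * ((b : ℝ) ^ κ * N) = T₀ / b ^ (Z + 5) := by
      rw [h1, hτ]
      have e1 : (b : ℝ) ^ (2 * Z + 5) = (b : ℝ) ^ κ * (b : ℝ) ^ (40 * K) * (b : ℝ) ^ (Z + 5) := by
        rw [← pow_add, ← pow_add]
        congr 1
        omega
      rw [e1]
      have e2 : (0 : ℝ) < (b : ℝ) ^ κ := by positivity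
      have e3 : (0 : ℝ) < (b : ℝ) ^ (40 * K) := by positivity
      have e4 : (0 : ℝ) < (b : ℝ) ^ (Z + 5) := by positivity
      generalize (b : ℝ) ^ κ = x at e2 ⊢
      generalize (b : ℝ) ^ (40 * K) = y at e3 ⊢
      generalize (b : ℝ) ^ (Z + 5) = z at e4 ⊢
      field_simp
    have h4 : (T₀ : ℝ) / b ^ (Z + 5) < T₀ / D := by
      apply div_lt_div_of_pos_left hT hD0
      calc (D : ℝ) < b := by linarith only [hDbr, hD0]
        _ = (b : ℝ) ^ 1 := (pow_one _).symm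
        _ ≤ (b : ℝ) ^ (Z + 5) := powb_le hbr (by omega)
    linarith only [h2, h3, h4]

private lemma pm_weights (D c l K : ℕ) (b : ℝ) (hD : 1 ≤ D) (hc : 1 ≤ c) (hK : K = 20000 * c * l)
    (hbl : b = 2 ^ l) (hDb : 2 ^ 19 * (D : ℝ) ≤ b) (G : ℝ) (hG : G = 1 + 1 / (20000 * c)) :
    1 ≤ G ∧ G ≤ 2 ∧ G ^ c ≤ 20000 / 19999 ∧ 600 * (c * D : ℝ) ≤ ∑ k ∈ range K, G ^ k := by
  have hcr : (1 : ℝ) ≤ c := by exact_mod_cast hc
  have hDr : (1 : ℝ) ≤ D := by exact_mod_cast hD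
  have hGle : 1 / (20000 * (c : ℝ)) ≤ 1 := by
    rw [div_le_one (by positivity)]; linarith
  have hGpos : 0 < 1 / (20000 * (c : ℝ)) := by positivity
  have hG1 : 1 ≤ G := by rw [hG]; linarith
  have hG2 : G ≤ 2 := by rw [hG]; linarith
  refine ⟨hG1, hG2, ?_, ?_⟩
  · have h1 : G ≤ Real.exp (1 / (20000 * c)) := by
      rw [hG]; linarith [Real.add_one_le_exp (1 / (20000 * (c : ℝ)))]
    calc G ^ c ≤ (Real.exp (1 / (20000 * c))) ^ c := pow_le_pow_left₀ (by linarith) h1 c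
      _ = Real.exp (1 / 20000) := by
          rw [← Real.exp_nat_mul]
          congr 1
          field_simp
      _ ≤ 1 / (1 - 1 / 20000) := pm_exp_le (by norm_num)
      _ = 20000 / 19999 := by norm_num
  · have hGne : G ≠ 1 := by rw [hG]; linarith
    rw [geom_sum_eq hGne]
    have h1 : (2 : ℝ) ≤ G ^ (20000 * c) := by
      have h2 := one_add_mul_le_pow (a := (1 / (20000 * (c : ℝ)))) (by linarith) (20000 * c)
      rw [← hG] at h2
      have h3 : (1 : ℝ) + ((20000 * c : ℕ) : ℝ) * (1 / (20000 * (c : ℝ))) = 2 := by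
        push_cast
        field_simp
        norm_num
      linarith only [h2, h3]
    have h2 : b ≤ G ^ K := by
      rw [hK, pow_mul, hbl]
      exact pow_le_pow_left₀ (by norm_num) h1 l
    have h3 : G - 1 = 1 / (20000 * c) := by rw [hG]; ring
    rw [h3, le_div_iff₀ hGpos]
    have h4 : 600 * (c * D : ℝ) * (1 / (20000 * c)) = 3 / 100 * D := by
      field_simp
      norm_num
    rw [h4]
    linarith only [h2, hDb, hDr]

theorem final_sets4 : ∃ C₀ : ℝ, ∃ D₀ : ℕ, ∀ D : ℕ, D₀ ≤ D →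
    ∃ A : Finset ℤ, (∀ a ∈ A, 0 < a) ∧ 0 < A.card ∧
      Real.log A.card ≤ C₀ * Real.log D ^ 2 * Real.log (Real.log D) ∧
      ∀ B ⊆ A, SumFree (B : Set ℤ) → (B.card : ℝ) ≤ (1 / 3 + 5 / D) * A.card := by
  refine ⟨20000000000, 2 ^ 20, fun D hD => ?_⟩
  have hD1 : 1 ≤ D := by omega
  have hDr : (2 ^ 20 : ℝ) ≤ D := by exact_mod_cast hD
  have hD0 : (0 : ℝ) < D := by linarith
  have hD1r : (1 : ℝ) ≤ D := by exact_mod_cast hD1
  obtain ⟨l, hl⟩ : ∃ l, l = Nat.log 2 D + 20 := ⟨_, rfl⟩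
  obtain ⟨b, hb⟩ : ∃ b, b = 2 ^ l := ⟨_, rfl⟩
  have hb1 : 2 ^ 19 * D ≤ b := by
    have h1 : D < 2 ^ (Nat.log 2 D + 1) := Nat.lt_pow_succ_log_self (by norm_num) D
    rw [hb, hl, pow_add]
    rw [pow_succ] at h1
    omega
  have hb2 : b ≤ 2 ^ 20 * D := by
    have h1 : 2 ^ Nat.log 2 D ≤ D := Nat.pow_log_le_self 2 (by omega)
    rw [hb, hl, pow_add]
    omega
  have hbr1 : 2 ^ 19 * (D : ℝ) ≤ b := by exact_mod_cast hb1
  have hbr2 : (b : ℝ) ≤ 2 ^ 20 * D := by exact_mod_cast hb2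
  have hbig39 : 2 ^ 39 ≤ b := by
    calc 2 ^ 39 = 2 ^ 19 * 2 ^ 20 := by norm_num
      _ ≤ 2 ^ 19 * D := Nat.mul_le_mul_left _ hD
      _ ≤ b := hb1
  have hbig39r : (2 : ℝ) ^ 39 ≤ b := by exact_mod_cast hbig39
  have hbr : (1 : ℝ) ≤ b := by linarith
  have hbr3 : (131072 : ℝ) ≤ b := by linarith
  have hb0 : (0 : ℝ) < b := by linarith
  have hl20 : 20 ≤ l := by omega
  have hlb : l ≤ b := by rw [hb]; exact Nat.lt_two_pow_self.le
  have hlbr : (l : ℝ) ≤ b := by exact_mod_cast hlb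
  have hl0 : 1 ≤ l := by omega
  have hl0r : (20 : ℝ) ≤ l := by exact_mod_cast hl20
  have hbl : (b : ℝ) = 2 ^ l := by rw [hb]; push_cast; rfl
  have hsq : l ^ 2 ≤ b := by
    obtain ⟨t, ht⟩ : ∃ t, l = t + 20 := ⟨l - 20, by omega⟩
    rw [hb, ht]
    exact pm_sq_le t
  have hsqr : (l : ℝ) ^ 2 ≤ b := by exact_mod_cast hsq
  obtain ⟨r, hr⟩ : ∃ r, r = Nat.clog 4 l := ⟨_, rfl⟩
  have hr4 : l ≤ 4 ^ r := by rw [hr]; exact Nat.le_pow_clog (by norm_num) l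
  have hrl : r ≤ l := by
    rw [hr]
    apply Nat.clog_le_of_le_pow
    exact (Nat.lt_pow_self (by norm_num)).le
  have hr0 : 0 < r := by
    rcases Nat.eq_zero_or_pos r with h | h
    · rw [h] at hr4; simp at hr4; omega
    · exact h
  have hr4' : 4 ^ (r - 1) < l := by
    rw [hr]
    exact Nat.pow_pred_clog_lt_self (by norm_num) (by omega)
  obtain ⟨R, hR⟩ : ∃ R, R = 2 * r := ⟨_, rfl⟩
  obtain ⟨n₀, hn₀⟩ : ∃ n₀, n₀ = 5 * (4 * R + 2) := ⟨_, rfl⟩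
  obtain ⟨c, hc⟩ : ∃ c, c = n₀ + R + 2 := ⟨_, rfl⟩
  have hc42 : c = 42 * r + 12 := by rw [hc, hn₀, hR]; ring
  have hc0 : 1 ≤ c := by omega
  have hcr : (1 : ℝ) ≤ c := by exact_mod_cast hc0
  obtain ⟨K, hK⟩ : ∃ K, K = 20000 * c * l := ⟨_, rfl⟩
  obtain ⟨κ, hκ⟩ : ∃ κ, κ = 20000 * l + 1 := ⟨_, rfl⟩
  obtain ⟨Z, hZ⟩ : ∃ Z, Z = 40 * K + κ := ⟨_, rfl⟩
  obtain ⟨ρ, hρ⟩ : ∃ ρ, ρ = b ^ 40 := ⟨_, rfl⟩
  obtain ⟨T₀, hT₀⟩ : ∃ T₀, T₀ = b ^ (10 * Z + 40) := ⟨_, rfl⟩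
  obtain ⟨N, hN⟩ : ∃ N, N = b ^ (10 * Z + 40 + 40 * K) := ⟨_, rfl⟩
  obtain ⟨h₀, hh₀⟩ : ∃ h₀, h₀ = b ^ (6 * Z + 15) := ⟨_, rfl⟩
  obtain ⟨β, hβ⟩ : ∃ β, β = b ^ (4 * Z + 11) := ⟨_, rfl⟩
  obtain ⟨τ, hτ⟩ : ∃ τ : ℝ, τ = 1 / (b : ℝ) ^ (2 * Z + 5) := ⟨_, rfl⟩
  obtain ⟨ε, hε⟩ : ∃ ε : ℝ, ε = 1 / (b : ℝ) ^ (2 * Z + 3) := ⟨_, rfl⟩
  have hbpos : 0 < b := by omega
  have hρK : ρ ^ K = b ^ (40 * K) := by
    rw [hρ, ← pow_mul]
  have hNeq : T₀ * ρ ^ K = N := by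
    rw [hρK, hT₀, hN, ← pow_add]
  have hT₀pos : 0 < T₀ := by rw [hT₀]; positivity
  have hτ0 : 0 < τ := by rw [hτ]; positivity
  have hε0 : 0 < ε := by rw [hε]; positivity
  have h8000 : 8000 * D ≤ b := by omega
  have hT₀D : 8000 * D ≤ T₀ := by
    rw [hT₀]
    calc 8000 * D ≤ b := h8000
      _ = b ^ 1 := (pow_one b).symm
      _ ≤ b ^ (10 * Z + 40) := Nat.pow_le_pow_right hbpos (by omega)
  have hXρ : 8 * D ≤ ρ := by
    rw [hρ]
    calc 8 * D ≤ b := by omega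
      _ = b ^ 1 := (pow_one b).symm
      _ ≤ b ^ 40 := Nat.pow_le_pow_right hbpos (by omega)
  have hρ2 : (4000 * D) ^ 2 ≤ ρ := by
    rw [hρ]
    calc (4000 * D) ^ 2 ≤ b ^ 2 := Nat.pow_le_pow_left (by omega) 2
      _ ≤ b ^ 40 := Nat.pow_le_pow_right hbpos (by omega)
  have hρM : 8000 * D * b ^ (36 * (2 * r) + 1) ≤ ρ ^ (R + 1) := by
    rw [hρ, ← pow_mul, hR]
    calc 8000 * D * b ^ (36 * (2 * r) + 1) ≤ b * b ^ (36 * (2 * r) + 1) := Nat.mul_le_mul_right _ h8000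
      _ = b ^ (36 * (2 * r) + 2) := by ring
      _ ≤ b ^ (40 * (2 * r + 1)) := Nat.pow_le_pow_right hbpos (by omega)
  have hηr : (1 / 2 : ℝ) ^ (4 ^ r) ≤ (1 / (80 * (D : ℝ))) / 16 := by
    calc (1 / 2 : ℝ) ^ (4 ^ r) ≤ (1 / 2 : ℝ) ^ l := pow_le_pow_of_le_one (by norm_num) (by norm_num) hr4
      _ = 1 / b := by rw [hbl, one_div_pow]
      _ ≤ 1 / (80 * D * 16) := by
          apply one_div_le_one_div_of_le (by positivity)
          linarith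
      _ = (1 / (80 * (D : ℝ))) / 16 := by rw [div_div]
  have hM : (b ^ 2 * R + 1) ^ (12 * R) < b ^ (36 * (2 * r) + 1) := by
    have h1 : b ^ 2 * R + 1 ≤ b ^ 3 := by
      have h2 : R + 1 ≤ b := by
        have : 2 * l + 1 ≤ l ^ 2 := by nlinarith
        omega
      have h3 : 1 ≤ b ^ 2 := Nat.one_le_pow _ _ hbpos
      calc b ^ 2 * R + 1 ≤ b ^ 2 * R + b ^ 2 := by omega
        _ = b ^ 2 * (R + 1) := by ring
        _ ≤ b ^ 2 * b := Nat.mul_le_mul_left _ h2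
        _ = b ^ 3 := by ring
    calc (b ^ 2 * R + 1) ^ (12 * R) ≤ (b ^ 3) ^ (12 * R) := Nat.pow_le_pow_left h1 _
      _ = b ^ (36 * (2 * r)) := by rw [← pow_mul, hR]; congr 1; ring
      _ < b ^ (36 * (2 * r) + 1) := Nat.pow_lt_pow_right (by omega) (by omega)
  have hmM := pm_hmM (D := D) (l := l) (b := b) (r := r) hD1 hb hl20 hb1 hrl
  have hεD : ε * (4 * 10 ^ 7 * D ^ 2 * (ρ : ℝ) ^ (2 * K)) ≤ 1 := by
    have h1 : (ρ : ℝ) ^ (2 * K) = (b : ℝ) ^ (80 * K) := by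
      have h2 : (ρ : ℝ) ^ K = (b : ℝ) ^ (40 * K) := by exact_mod_cast hρK
      rw [mul_comm 2 K, pow_mul, h2, ← pow_mul]
      congr 1
      ring
    rw [h1, hε, one_div_mul_eq_div, div_le_one (by positivity)]
    calc (4 : ℝ) * 10 ^ 7 * D ^ 2 * b ^ (80 * K) = (4 * 10 ^ 7 * D ^ 2) * b ^ (80 * K) := by ring
      _ ≤ (b : ℝ) ^ 3 * (b : ℝ) ^ (2 * Z) := by
          apply mul_le_mul _ (powb_le hbr (by omega)) (by positivity) (by positivity)
          calc (4 : ℝ) * 10 ^ 7 * (D : ℝ) ^ 2 ≤ (b : ℝ) * (b : ℝ) * b := by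
                have h3 : (D : ℝ) ^ 2 ≤ b * b := by nlinarith
                have h4 : (4 : ℝ) * 10 ^ 7 ≤ b := by linarith
                nlinarith [mul_nonneg hb0.le hb0.le]
            _ = (b : ℝ) ^ 3 := by ring
      _ = (b : ℝ) ^ (2 * Z + 3) := by rw [← pow_add, add_comm]
  have hPar : Par D R r (b ^ 2) (b ^ (36 * (2 * r) + 1)) (8 * D) N T₀ ρ K n₀ c (1 / (80 * (D : ℝ))) ε := by
    refine ⟨by omega, hr0, hR, le_rfl, hXρ, hT₀D, hNeq, hρ2, hρM, hn₀.ge, hc, by positivity, ?_, hηr, ?_, ?_,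
      hε0, hεD⟩
    · apply le_of_eq
      field_simp
    · exact hM
    · exact hmM
  -- the weights
  obtain ⟨G, hG⟩ : ∃ G : ℝ, G = 1 + 1 / (20000 * c) := ⟨_, rfl⟩
  obtain ⟨hG1, hG2, hGc, hΩ⟩ := pm_weights D c l K b hD1 hc0 hK hbl hbr1 G hG
  have hg2 : G ^ n₀ ≤ 2 := by
    calc G ^ n₀ ≤ G ^ c := pow_le_pow_right₀ hG1 (by omega)
      _ ≤ 20000 / 19999 := hGc
      _ ≤ 2 := by norm_num
  have hC : 280 * (G ^ c / (1 - 1 / 10000) - 1) + (G ^ c - 1) ≤ 1 / 8 := by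
    have h1 : G ^ c / (1 - 1 / 10000) ≤ (20000 / 19999) / (1 - 1 / 10000) := by
      apply div_le_div_of_nonneg_right hGc (by norm_num)
    have h2 : (20000 / 19999 : ℝ) / (1 - 1 / 10000) = 200000000 / 199970001 := by norm_num
    rw [h2] at h1
    linarith only [h1, hGc]
  have hu : 600 * (1 - 1 / 10000 : ℝ) ^ (κ - 1) ≤ 1 / D := by
    have h1 : κ - 1 = 20000 * l := by omega
    rw [h1]
    exact (mul_le_mul_of_nonneg_left (pm_r0 l) (by norm_num)).trans (by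
      rw [← hbl, mul_one_div, div_le_div_iff₀ (by positivity) hD0]
      nlinarith)
  -- the exponent of `N` is at most `b ^ 3`
  have hcl : (c : ℝ) ≤ 54 * l := by
    have h1 : c ≤ 54 * l := by omega
    exact_mod_cast h1
  have hMexp : ((10 * Z + 40 + 40 * K : ℕ) : ℝ) ≤ (b : ℝ) ^ 3 := by
    rw [hZ, hK, hκ]
    push_cast
    have h1 : (c : ℝ) * l ≤ 54 * b := by
      calc (c : ℝ) * l ≤ (54 * l) * l := by
            apply mul_le_mul_of_nonneg_right hcl (by positivity)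
        _ = 54 * (l : ℝ) ^ 2 := by ring
        _ ≤ 54 * b := by linarith only [hsqr]
    have h3 : (10 : ℝ) * (40 * (20000 * c * l) + (20000 * l + 1)) + 40 + 40 * (20000 * c * l)
        = 8800000 * (c * l) + 200000 * l + 50 := by ring
    rw [h3]
    have h4 : (475400050 : ℝ) ≤ b := by linarith only [hbig39r]
    calc 8800000 * ((c : ℝ) * l) + 200000 * l + 50 ≤ 8800000 * (54 * b) + 200000 * b + 50 * b := by
          linarith only [h1, hlbr, hbr]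
      _ = 475400050 * b := by ring
      _ ≤ b * b := mul_le_mul_of_nonneg_right h4 hb0.le
      _ ≤ b ^ 3 := by
          have : (b : ℝ) * b = b ^ 2 := by ring
          rw [this]
          exact powb_le hbr (by norm_num)
  have hXκ : ((8 * D : ℕ) : ℝ) ^ κ ≤ (b : ℝ) ^ κ := by
    apply pow_le_pow_left₀ (by positivity)
    push_cast
    linarith only [hbr1, hD0]
  obtain ⟨hh₀pos, hh₀N, _, hβ', hKW, hbig, hsmall⟩ := pm_cont b Z K κ D hbig39 hD1 (by omega) hZ hMexp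
    N T₀ h₀ β τ ε hN hT₀ hh₀ hβ hτ hε
  obtain ⟨A, hA1, hA2, hA3, hA4⟩ := assemble4 hPar (κ := κ) (by omega) hG1 hG2 hg2
    (r₀ := 1 - 1 / 10000) (by norm_num) (by norm_num) hC hΩ hu h₀ β τ hh₀pos hh₀N hτ0 hβ' hKW hbig
    hsmall
  refine ⟨A, hA1, hA2, ?_, hA4⟩
  have hAr : (0 : ℝ) < A.card := by exact_mod_cast hA2
  have h1 : (A.card : ℝ) ≤ (b : ℝ) ^ (11 * Z + 40) := by
    calc (A.card : ℝ) ≤ ((8 * D : ℕ) : ℝ) ^ κ * N := by exact_mod_cast hA3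
      _ ≤ (b : ℝ) ^ κ * (b : ℝ) ^ (10 * Z + 40 + 40 * K) := by
          rw [hN]
          push_cast
          apply mul_le_mul_of_nonneg_right _ (by positivity)
          exact_mod_cast hXκ
      _ = (b : ℝ) ^ (11 * Z + 40) := by
          rw [← pow_add]
          congr 1
          omega
  have h2 : Real.log b ≤ 2 * Real.log D := by
    have h3 : (b : ℝ) ≤ (D : ℝ) ^ 2 := by
      calc (b : ℝ) ≤ 2 ^ 20 * D := hbr2
        _ ≤ D * D := mul_le_mul_of_nonneg_right hDr hD0.le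
        _ = (D : ℝ) ^ 2 := by ring
    calc Real.log b ≤ Real.log ((D : ℝ) ^ 2) := Real.log_le_log hb0 h3
      _ = 2 * Real.log D := by rw [Real.log_pow]; push_cast; rfl
  have h5 : (l : ℝ) ≤ 4 * Real.log D := by
    have h6 : Real.log b = l * Real.log 2 := by rw [hbl, Real.log_pow]
    have h7 : (1 / 2 : ℝ) ≤ Real.log 2 := by
      have := Real.log_two_gt_d9
      linarith only [this]
    have h8 : (l : ℝ) * (1 / 2) ≤ l * Real.log 2 := mul_le_mul_of_nonneg_left h7 (by positivity)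
    linarith only [h2, h6, h8]
  have hL5 : 5 ≤ Real.log D := by linarith only [h5, hl0r]
  have hL0 : 0 < Real.log D := by linarith only [hL5]
  have hLL : 1 ≤ Real.log (Real.log D) := by
    rw [Real.le_log_iff_exp_le hL0]
    have := Real.exp_one_lt_d9
    linarith only [this, hL5]
  have hlogl : Real.log l ≤ 3 * Real.log (Real.log D) := by
    have e1 : Real.log l ≤ Real.log (4 * Real.log D) := Real.log_le_log (by linarith only [hl0r]) h5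
    rw [Real.log_mul (by norm_num) hL0.ne'] at e1
    have e2 : Real.log 4 ≤ 2 := by
      have : (4 : ℝ) = 2 ^ 2 := by norm_num
      rw [this, Real.log_pow]
      have := Real.log_two_lt_d9
      push_cast
      linarith only [this]
    linarith only [e1, e2, hLL]
  have hrr : (r : ℝ) ≤ 4 * Real.log (Real.log D) := by
    have e1 : ((4 : ℝ) ^ (r - 1)) ≤ l := by exact_mod_cast hr4'.le
    have e2 : Real.log ((4 : ℝ) ^ (r - 1)) ≤ Real.log l := Real.log_le_log (by positivity) e1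
    rw [Real.log_pow] at e2
    have e3 : (1 : ℝ) ≤ Real.log 4 := by
      have : (4 : ℝ) = 2 ^ 2 := by norm_num
      rw [this, Real.log_pow]
      have := Real.log_two_gt_d9
      push_cast
      linarith only [this]
    have e4 : ((r - 1 : ℕ) : ℝ) ≤ ((r - 1 : ℕ) : ℝ) * Real.log 4 :=
      le_mul_of_one_le_right (Nat.cast_nonneg _) e3
    have e5 : ((r - 1 : ℕ) : ℝ) = r - 1 := by
      rw [Nat.cast_sub (by omega)]; simp
    rw [e5] at e4 e2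
    linarith only [e2, e4, hlogl, hLL]
  have hcLL : (c : ℝ) ≤ 180 * Real.log (Real.log D) := by
    rw [hc42]
    push_cast
    linarith only [hrr, hLL]
  have h6 : ((11 * Z + 40 : ℕ) : ℝ) ≤ 10000000 * (c * l) := by
    rw [hZ, hK, hκ]
    push_cast
    have e1 : (l : ℝ) ≤ c * l := le_mul_of_one_le_left (by positivity) hcr
    have e2 : (11 : ℝ) * (40 * (20000 * c * l) + (20000 * l + 1)) + 40 = 8800000 * (c * l) + 220000 * l + 51 := by
      ring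
    rw [e2]
    linarith only [e1, hl0r]
  have hcl0 : (0 : ℝ) ≤ c * l := by positivity
  calc Real.log A.card ≤ Real.log ((b : ℝ) ^ (11 * Z + 40)) := Real.log_le_log hAr h1
    _ = ((11 * Z + 40 : ℕ) : ℝ) * Real.log b := by rw [Real.log_pow]
    _ ≤ (10000000 * (c * l)) * (2 * Real.log D) := by
        apply mul_le_mul h6 h2 (Real.log_nonneg hbr) (by positivity)
    _ ≤ (10000000 * ((180 * Real.log (Real.log D)) * (4 * Real.log D))) * (2 * Real.log D) := by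
        gcongr
    _ ≤ 20000000000 * Real.log D ^ 2 * Real.log (Real.log D) := by
        have e0 : 0 ≤ Real.log D ^ 2 * Real.log (Real.log D) := by positivity
        have e1 : (10000000 * ((180 * Real.log (Real.log D)) * (4 * Real.log D))) * (2 * Real.log D) =
          14400000000 * (Real.log D ^ 2 * Real.log (Real.log D)) := by ring
        have e2 : 20000000000 * Real.log D ^ 2 * Real.log (Real.log D) =
          20000000000 * (Real.log D ^ 2 * Real.log (Real.log D)) := by ring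
        rw [e1, e2]
        linarith only [e0]

end SF4
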