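import Mathlib

/-!
# Module QUART: the choice of a threshold

`a i` is the proportion of rows with value at most `i`.
Proof. Suppose `a i ^ (1/4) + (1 - a (i+1)) ^ (1/4) < 1` for all `i < 2 r`. As `x ≤ x ^ (1/4)` on `[0, 1]`,
`a i ^ (1/4) < 1 - (1 - a (i+1)) ^ (1/4) ≤ a (i+1)`, so `a i < a (i+1) ^ 4`; in the same way
`1 - a (i+1) < (1 - a i) ^ 4`. If `a r ≤ 1/2` then by downward induction `a (r - s) ≤ (1/2) ^ (4 ^ s)`, strict for
`s ≥ 1`, so `a 0 < (1/2) ^ (4 ^ r)`. If `a r > 1/2` then by upward induction `1 - a (r + s) ≤ (1/2) ^ (4 ^ s)` (strict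
for `s ≥ 1`) and `1 - a (2 r) < (1/2) ^ (4 ^ r)`. Both contradict the hypotheses.
-/

namespace SF4

theorem Quart_step {A B : ℝ} (hA0 : 0 ≤ A) (hA1 : A ≤ 1) (hB0 : 0 ≤ B) (hB1 : B ≤ 1)
    (h : A ^ (1 / 4 : ℝ) + (1 - B) ^ (1 / 4 : ℝ) < 1) : A < B ^ 4 ∧ 1 - B < (1 - A) ^ 4 := by
  have hroot : ∀ x : ℝ, 0 ≤ x → (x ^ (1 / 4 : ℝ)) ^ 4 = x := by
    intro x hx
    rw [← Real.rpow_natCast, ← Real.rpow_mul hx]
    norm_num
  set p : ℝ := A ^ (1 / 4 : ℝ) with hp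
  set q : ℝ := (1 - B) ^ (1 / 4 : ℝ) with hq
  have hp0 : 0 ≤ p := Real.rpow_nonneg hA0 _
  have hq0 : 0 ≤ q := Real.rpow_nonneg (by linarith) _
  have hp4 : p ^ 4 = A := hroot A hA0
  have hq4 : q ^ 4 = 1 - B := hroot (1 - B) (by linarith)
  have hp1 : p ≤ 1 := by linarith
  have hq1 : q ≤ 1 := by linarith
  have hpA : A ≤ p := by
    rw [← hp4]
    calc p ^ 4 ≤ p ^ 1 := pow_le_pow_of_le_one hp0 hp1 (by norm_num)
      _ = p := pow_one p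
  have hqB : 1 - B ≤ q := by
    rw [← hq4]
    calc q ^ 4 ≤ q ^ 1 := pow_le_pow_of_le_one hq0 hq1 (by norm_num)
      _ = q := pow_one q
  constructor
  · calc A = p ^ 4 := hp4.symm
      _ < (1 - q) ^ 4 := pow_lt_pow_left₀ (by linarith) hp0 (by norm_num)
      _ ≤ B ^ 4 := pow_le_pow_left₀ (by linarith) (by linarith) 4
  · calc 1 - B = q ^ 4 := hq4.symm
      _ < (1 - p) ^ 4 := pow_lt_pow_left₀ (by linarith) hq0 (by norm_num)
      _ ≤ (1 - A) ^ 4 := pow_le_pow_left₀ (by linarith) (by linarith) 4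

theorem split_exists {r : ℕ} (hr : 0 < r) (a : ℕ → ℝ) (ha0 : ∀ i ≤ 2 * r, 0 ≤ a i)
    (ha1 : ∀ i ≤ 2 * r, a i ≤ 1) (h0 : (1 / 2 : ℝ) ^ (4 ^ r) ≤ a 0)
    (h1 : (1 / 2 : ℝ) ^ (4 ^ r) ≤ 1 - a (2 * r)) :
    ∃ i < 2 * r, 1 ≤ (a i) ^ (1 / 4 : ℝ) + (1 - a (i + 1)) ^ (1 / 4 : ℝ) := by
  by_contra hcon
  push Not at hcon
  have hstep : ∀ i < 2 * r, a i < a (i + 1) ^ 4 ∧ 1 - a (i + 1) < (1 - a i) ^ 4 := fun i hi =>
    Quart_step (ha0 i hi.le) (ha1 i hi.le) (ha0 (i + 1) hi) (ha1 (i + 1) hi) (hcon i hi)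
  obtain ⟨r', rfl⟩ : ∃ r', r = r' + 1 := ⟨r - 1, by omega⟩
  have hpow : ((1 / 2 : ℝ) ^ (4 ^ r')) ^ 4 = (1 / 2 : ℝ) ^ (4 ^ (r' + 1)) := by
    rw [← pow_mul, pow_succ]
  rcases le_or_gt (a (r' + 1)) (1 / 2) with h | h
  · have hs : ∀ s, s ≤ r' → a (r' + 1 - s) ≤ (1 / 2 : ℝ) ^ (4 ^ s) := by
      intro s
      induction s with
      | zero => intro _; simpa using h
      | succ s ih =>
        intro hs
        have h2 := (hstep (r' + 1 - (s + 1)) (by omega)).1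
        have h3 : r' + 1 - (s + 1) + 1 = r' + 1 - s := by omega
        rw [h3] at h2
        have h4 : a (r' + 1 - s) ^ 4 ≤ ((1 / 2 : ℝ) ^ (4 ^ s)) ^ 4 :=
          pow_le_pow_left₀ (ha0 _ (by omega)) (ih (by omega)) 4
        rw [← pow_mul, ← pow_succ] at h4
        linarith
    have h5 := hs r' le_rfl
    have h6 : r' + 1 - r' = 1 := by omega
    rw [h6] at h5
    have h7 := (hstep 0 (by omega)).1
    have h8 : a (0 + 1) ^ 4 ≤ ((1 / 2 : ℝ) ^ (4 ^ r')) ^ 4 :=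
      pow_le_pow_left₀ (ha0 _ (by omega)) h5 4
    rw [hpow] at h8
    linarith
  · have hs : ∀ s, s ≤ r' → 1 - a (r' + 1 + s) ≤ (1 / 2 : ℝ) ^ (4 ^ s) := by
      intro s
      induction s with
      | zero => intro _; norm_num; linarith
      | succ s ih =>
        intro hs
        have h2 := (hstep (r' + 1 + s) (by omega)).2
        have h4 : (1 - a (r' + 1 + s)) ^ 4 ≤ ((1 / 2 : ℝ) ^ (4 ^ s)) ^ 4 :=
          pow_le_pow_left₀ (by have := ha1 (r' + 1 + s) (by omega); linarith) (ih (by omega)) 4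
        rw [← pow_mul, ← pow_succ] at h4
        have h5 : r' + 1 + (s + 1) = r' + 1 + s + 1 := by omega
        rw [h5]
        linarith
    have h5 := hs r' le_rfl
    have h7 := (hstep (r' + 1 + r') (by omega)).2
    have h8 : (1 - a (r' + 1 + r')) ^ 4 ≤ ((1 / 2 : ℝ) ^ (4 ^ r')) ^ 4 :=
      pow_le_pow_left₀ (by have := ha1 (r' + 1 + r') (by omega); linarith) h5 4
    rw [hpow] at h8
    have h9 : r' + 1 + r' + 1 = 2 * (r' + 1) := by omega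
    rw [h9] at h7
    linarith

end SF4
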