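import Mathlib

/-!
# Module SAMP: a random sample hits every large set often

Proof. `Ω = Fintype.piFinset (fun _ : Fin m => Z)`, `Ω.card = |Z| ^ m`. For `p ∈ I` let `hits ω` be the number of `j` with
`ω j ∈ b p`. `∑_{ω ∈ Ω} (1/2) ^ hits ω = (|Z| - |b p| / 2) ^ m ≤ |Z| ^ m * (1 - η / 2) ^ m`
(product over `j` of `∑_{z ∈ Z} (if z ∈ b p then 1/2 else 1)`, `Finset.prod_univ_sum` or `Finset.sum_prod_piFinset`;
`(1/2) ^ hits ω = ∏ j, if ω j ∈ b p then 1/2 else 1`). If `hits ω < η / 4 * m` then `(1/2) ^ hits ω ≥ 2 ^ (-(η / 4 * m))`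
(rpow), so the number of such `ω` is at most `2 ^ (η / 4 * m) * (1 - η / 2) ^ m * |Z| ^ m`. Sum over `p ∈ I`: fewer than
`|Z| ^ m` bad `ω`. See `Pool/Agent/SF2/Sample.lean` for a similar count.
-/

namespace SF4

open Finset

open Classical in
theorem sample4 {α ι : Type*} {Z : Finset α} (hZ : Z.Nonempty) (m : ℕ) (I : Finset ι)
    (b : ι → Finset α) (hb : ∀ p ∈ I, b p ⊆ Z) {η : ℝ} (hη0 : 0 ≤ η) (hη1 : η ≤ 1)
    (hbc : ∀ p ∈ I, η * Z.card ≤ ((b p).card : ℝ))
    (hI : (I.card : ℝ) * (2 : ℝ) ^ (η / 4 * m) * (1 - η / 2) ^ m < 1) :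
    ∃ ω : Fin m → α, (∀ j, ω j ∈ Z) ∧
      ∀ p ∈ I, η / 4 * m ≤ ((univ.filter (fun j => ω j ∈ b p)).card : ℝ) := by
  by_contra hno
  push Not at hno
  set Ω : Finset (Fin m → α) := Fintype.piFinset (fun _ : Fin m => Z) with hΩ
  have hΩc : Ω.card = Z.card ^ m := by
    rw [hΩ, Fintype.card_piFinset_const]
  have hZ0 : (0 : ℝ) < Z.card := by
    exact_mod_cast Finset.card_pos.2 hZ
  set B : ι → Finset (Fin m → α) := fun p =>
    Ω.filter (fun ω => ((univ.filter (fun j => ω j ∈ b p)).card : ℝ) < η / 4 * m) with hB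
  have hcover : Ω ⊆ I.biUnion B := by
    intro ω hω
    have h1 : ∀ j, ω j ∈ Z := by
      intro j
      exact (Fintype.mem_piFinset.1 hω) j
    obtain ⟨p, hp, hlt⟩ := hno ω h1
    rw [Finset.mem_biUnion]
    exact ⟨p, hp, Finset.mem_filter.2 ⟨hω, hlt⟩⟩
  have hbad : ∀ p ∈ I, ((B p).card : ℝ) ≤
      (2 : ℝ) ^ (η / 4 * m) * ((1 - η / 2) ^ m * (Z.card : ℝ) ^ m) := by
    intro p hp
    have hsum : ∑ ω ∈ Ω, (1 / 2 : ℝ) ^ (univ.filter (fun j => ω j ∈ b p)).card =
        (∑ z ∈ Z, (if z ∈ b p then (1 / 2 : ℝ) else 1)) ^ m := by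
      have h1 : ∀ ω : Fin m → α, (1 / 2 : ℝ) ^ (univ.filter (fun j => ω j ∈ b p)).card =
          ∏ j : Fin m, (if ω j ∈ b p then (1 / 2 : ℝ) else 1) := by
        intro ω
        rw [Finset.prod_ite, Finset.prod_const, Finset.prod_const_one, mul_one]
      rw [Finset.sum_congr rfl (fun ω _ => h1 ω)]
      have h2 := Finset.prod_univ_sum (fun _ : Fin m => Z)
        (fun (_ : Fin m) (z : α) => (if z ∈ b p then (1 / 2 : ℝ) else 1))
      rw [← hΩ] at h2
      rw [← h2, Finset.prod_const, Finset.card_univ, Fintype.card_fin]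
    have hZs : ∑ z ∈ Z, (if z ∈ b p then (1 / 2 : ℝ) else 1) = Z.card - (b p).card / 2 := by
      have h1 : ∀ z ∈ Z, (if z ∈ b p then (1 / 2 : ℝ) else 1) =
          1 - (if z ∈ b p then (1 / 2 : ℝ) else 0) := by
        intro z _
        split_ifs <;> norm_num
      rw [Finset.sum_congr rfl h1, Finset.sum_sub_distrib, Finset.sum_const, nsmul_eq_mul, mul_one,
        ← Finset.sum_filter, Finset.sum_const, nsmul_eq_mul]
      have h2 : Z.filter (fun z => z ∈ b p) = b p := by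
        ext z
        rw [Finset.mem_filter]
        exact ⟨fun h => h.2, fun h => ⟨hb p hp h, h⟩⟩
      rw [h2]
      ring
    have hle : (∑ z ∈ Z, (if z ∈ b p then (1 / 2 : ℝ) else 1)) ^ m ≤
        (1 - η / 2) ^ m * (Z.card : ℝ) ^ m := by
      rw [← mul_pow, hZs]
      apply pow_le_pow_left₀
      · have h1 : ((b p).card : ℝ) ≤ Z.card := by
          exact_mod_cast Finset.card_le_card (hb p hp)
        have h2 : (0 : ℝ) ≤ (b p).card := Nat.cast_nonneg _
        linarith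
      · have := hbc p hp
        linarith
    have hlow : ((B p).card : ℝ) * (2 : ℝ) ^ (-(η / 4 * m)) ≤
        ∑ ω ∈ Ω, (1 / 2 : ℝ) ^ (univ.filter (fun j => ω j ∈ b p)).card := by
      calc ((B p).card : ℝ) * (2 : ℝ) ^ (-(η / 4 * m))
          = ∑ ω ∈ B p, (2 : ℝ) ^ (-(η / 4 * m)) := by
            rw [Finset.sum_const, nsmul_eq_mul]
        _ ≤ ∑ ω ∈ B p, (1 / 2 : ℝ) ^ (univ.filter (fun j => ω j ∈ b p)).card := by
            apply Finset.sum_le_sum
            intro ω hω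
            have h1 := (Finset.mem_filter.1 hω).2
            have h2 : (1 / 2 : ℝ) ^ (univ.filter (fun j => ω j ∈ b p)).card =
                (2 : ℝ) ^ (-((univ.filter (fun j => ω j ∈ b p)).card : ℝ)) := by
              rw [Real.rpow_neg (by norm_num), Real.rpow_natCast, one_div, inv_pow]
            rw [h2]
            apply Real.rpow_le_rpow_of_exponent_le (by norm_num)
            linarith
        _ ≤ ∑ ω ∈ Ω, (1 / 2 : ℝ) ^ (univ.filter (fun j => ω j ∈ b p)).card := by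
            apply Finset.sum_le_sum_of_subset_of_nonneg (Finset.filter_subset _ _)
            intro ω _ _
            positivity
    rw [hsum] at hlow
    have h3 := le_trans hlow hle
    have hpos : (0 : ℝ) < (2 : ℝ) ^ (η / 4 * m) := Real.rpow_pos_of_pos (by norm_num) _
    have h4 : ((B p).card : ℝ) = (2 : ℝ) ^ (η / 4 * m) *
        (((B p).card : ℝ) * (2 : ℝ) ^ (-(η / 4 * m))) := by
      rw [Real.rpow_neg (by norm_num)]
      field_simp
    rw [h4]
    exact mul_le_mul_of_nonneg_left h3 hpos.le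
  have h5 : (Ω.card : ℝ) ≤ ∑ p ∈ I, ((B p).card : ℝ) := by
    have h6 : Ω.card ≤ ∑ p ∈ I, (B p).card :=
      le_trans (Finset.card_le_card hcover) Finset.card_biUnion_le
    exact_mod_cast h6
  have h7 : (Ω.card : ℝ) ≤ I.card * ((2 : ℝ) ^ (η / 4 * m) * ((1 - η / 2) ^ m *
      (Z.card : ℝ) ^ m)) := by
    refine le_trans h5 (le_trans (Finset.sum_le_sum hbad) ?_)
    rw [Finset.sum_const, nsmul_eq_mul]
  rw [hΩc] at h7
  push_cast at h7
  have hZm : (0 : ℝ) < (Z.card : ℝ) ^ m := pow_pos hZ0 m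
  have h8 : (I.card : ℝ) * (2 : ℝ) ^ (η / 4 * m) * (1 - η / 2) ^ m * (Z.card : ℝ) ^ m <
      1 * (Z.card : ℝ) ^ m := mul_lt_mul_of_pos_right hI hZm
  have h9 : (I.card : ℝ) * ((2 : ℝ) ^ (η / 4 * m) * ((1 - η / 2) ^ m * (Z.card : ℝ) ^ m)) =
      (I.card : ℝ) * (2 : ℝ) ^ (η / 4 * m) * (1 - η / 2) ^ m * (Z.card : ℝ) ^ m := by ring
  linarith

end SF4
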