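import Mathlib

/-!
# Module SUPP: number of partial functions with small support

Proof. Let `s` be the bound. Map `h : Fin s → Option (Fin m × Fin R)` to the partial function `g` with `g j = some i` for the
least index `t` with `h t = some (j, i)` (and `none` if there is none). Every `g` with at most `s` columns in its support
is in the image (list the support by `t < |supp|`, `none` for the other `t`). So the number is at most
`(m * R + 1) ^ s`. (Alternative: induction on `s`, or on `m`, or sum over supports.)
-/

namespace SF4

open Finset

open Classical in
theorem few_support (m R s : ℕ) :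
    ((univ : Finset (Fin m → Option (Fin R))).filter
      (fun g => (univ.filter (fun j => g j ≠ none)).card ≤ s)).card ≤ (m * R + 1) ^ s := by
  have hex : ∀ g : Fin m → Option (Fin R), (univ.filter (fun j => g j ≠ none)).card ≤ s →
      ∃ h : Fin s → Option (Fin m × Fin R), ∀ j i, g j = some i ↔ ∃ t, h t = some (j, i) := by
    intro g hg
    let P := {p : Fin m × Fin R // g p.1 = some p.2}
    have hP : Fintype.card P ≤ Fintype.card (Fin s) := by
      rw [Fintype.card_fin]
      refine le_trans ?_ hg
      rw [← Fintype.card_coe]
      refine Fintype.card_le_of_injective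
        (fun p : P => (⟨p.1.1, by
          rw [Finset.mem_filter]
          refine ⟨Finset.mem_univ _, ?_⟩
          rw [p.2]
          exact Option.some_ne_none _⟩ : {j // j ∈ univ.filter (fun j => g j ≠ none)})) ?_
      intro p q hpq
      have h1 : p.1.1 = q.1.1 := congrArg Subtype.val hpq
      have h2 : some p.1.2 = some q.1.2 := by rw [← p.2, ← q.2, h1]
      exact Subtype.ext (Prod.ext h1 (Option.some_injective _ h2))
    obtain ⟨e⟩ := Function.Embedding.nonempty_of_card_le hP
    refine ⟨fun t => if H : ∃ p : P, e p = t then some H.choose.1 else none, ?_⟩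
    intro j i
    constructor
    · intro hgi
      refine ⟨e ⟨(j, i), hgi⟩, ?_⟩
      have H : ∃ p : P, e p = e ⟨(j, i), hgi⟩ := ⟨_, rfl⟩
      have h1 : H.choose = ⟨(j, i), hgi⟩ := e.injective H.choose_spec
      show (if H : ∃ p : P, e p = e ⟨(j, i), hgi⟩ then some H.choose.1 else none) = some (j, i)
      rw [dif_pos H, h1]
    · rintro ⟨t, ht⟩
      change (if H : ∃ p : P, e p = t then some H.choose.1 else none) = some (j, i) at ht
      by_cases H : ∃ p : P, e p = t
      · rw [dif_pos H] at ht
        have h1 : H.choose.1 = (j, i) := Option.some_injective _ ht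
        have h2 := H.choose.2
        rw [h1] at h2
        exact h2
      · rw [dif_neg H] at ht
        exact absurd ht.symm (Option.some_ne_none _)
  choose! F hF using hex
  have hcard : (univ : Finset (Fin s → Option (Fin m × Fin R))).card = (m * R + 1) ^ s := by
    rw [Finset.card_univ, Fintype.card_fun, Fintype.card_option, Fintype.card_prod,
      Fintype.card_fin, Fintype.card_fin, Fintype.card_fin]
  rw [← hcard]
  apply Finset.card_le_card_of_injOn F (fun _ _ => Finset.mem_coe.2 (Finset.mem_univ _))
  intro g hg g' hg' hgg
  have h1 := hF g (Finset.mem_filter.1 (Finset.mem_coe.1 hg)).2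
  have h2 := hF g' (Finset.mem_filter.1 (Finset.mem_coe.1 hg')).2
  funext j
  apply Option.ext
  intro i
  rw [h1, h2, hgg]

end SF4
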