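import Pool.Agent.SF4.Shat
import Pool.Agent.SF4.Supp
import Pool.Agent.SF4.Samp

/-!
# Module ROWS: two of the rows `v 0, ..., v (M - 1)` are nearly compatible

Proof. `R = 2 r`. Suppose not: `η |Z| ≤ |b (k, k')|` for all `k < k' < M`, where `b (k, k')` is the filtered set of the
conclusion. `sample4` with `I` = the pairs `k < k'` in `range M` (`I.card ≤ M ^ 2`, `hmM`) gives `ω : Fin m → ℤ`.
(`m > 0`: if `m = 0` then `hmM` says `M ^ 2 < 1`, so `M = 0`, but `hM` gives `0 < M`.)
Let `f k j = #{i ∈ range (R + 1) : ω j - v k ∉ A i}`. As `A 0 ⊆ A 1 ⊆ ... ⊆ A R` (hA):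
 `f k j ≤ i → ω j - v k ∈ A i` for `i ≤ R` (otherwise `0, ..., i` are all counted), `i + 1 < f k j → ω j - v k ∉ A (i + 1)`
 (otherwise only `0, ..., i` can be counted); `f = 0` if `ω j - v k ∈ A 0`, `f = R + 1` if `∉ A R`.
So `shat_count` applies to `V = range M` with `η / 16` (`4 * (η / 16) * m = η / 4 * m`): `M ≤ |G| ^ 4`.
Every shattered `g` has at most `3 R` columns in its support: otherwise by pigeonhole four columns `j 0, ..., j 3` have the same
threshold `i < R`; let `y l` be `v k` for the row `k` of the pattern `B = {j l}`: `x l = ω (j l)` satisfies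
`x l - y l ∈ A i` and `x k - y l ∉ A (i + 1)` for `k ≠ l`, against `hQ` (with the roles: `hQ` is about `x l - y k`).
By `few_support`, `M ≤ ((m * R + 1) ^ (3 * R)) ^ 4 = (m * R + 1) ^ (12 * R) < M`.
-/

namespace SF4

open Finset

open Classical in
theorem few_rows {R r m M : ℕ} (hr : 0 < r) (hR : R = 2 * r) (Z : Finset ℤ) (hZ : Z.Nonempty)
    (v : ℕ → ℤ) (A : ℕ → Set ℤ) (hA : ∀ i < R, A i ⊆ A (i + 1))
    (hQ : ∀ i < R, ∀ x y : Fin 4 → ℤ, (∀ l, x l ∈ Z) → (∀ l, ∃ k < M, y l = v k) →
      (∀ l, x l - y l ∈ A i) → ¬ (∀ l k, l ≠ k → x l - y k ∉ A (i + 1)))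
    {η : ℝ} (hη0 : 0 < η) (hη1 : η ≤ 1) (hηr : (1 / 2 : ℝ) ^ (4 ^ r) ≤ η / 16)
    (hM : (m * R + 1) ^ (12 * R) < M)
    (hmM : (M : ℝ) ^ 2 * (2 : ℝ) ^ (η / 4 * m) * (1 - η / 2) ^ m < 1) :
    ∃ k k', k < k' ∧ k' < M ∧
      ((Z.filter (fun z => z - v k ∈ A 0 ∧ z - v k' ∉ A R)).card : ℝ) < η * Z.card := by
  subst hR
  by_contra hno
  push Not at hno
  have hM0 : 0 < M := by omega
  have hm : 0 < m := by
    rcases Nat.eq_zero_or_pos m with h | h
    · exfalso
      subst h
      have h1 : (1 : ℝ) ≤ M := by exact_mod_cast hM0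
      simp at hmM
      nlinarith
    · exact h
  -- monotone
  have hmono : ∀ i j, i ≤ j → j ≤ 2 * r → A i ⊆ A j := by
    intro i j hij
    induction hij with
    | refl => intro _; exact Set.Subset.rfl
    | step h ih => intro hj; exact (ih (by omega)).trans (hA _ (by omega))
  set b : ℕ × ℕ → Finset ℤ := fun p =>
    Z.filter (fun z => z - v p.1 ∈ A 0 ∧ z - v p.2 ∉ A (2 * r)) with hb
  set I : Finset (ℕ × ℕ) := (range M ×ˢ range M).filter (fun p => p.1 < p.2) with hI
  have hIc : (I.card : ℝ) ≤ (M : ℝ) ^ 2 := by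
    have h1 : I.card ≤ M * M := by
      refine (card_filter_le _ _).trans ?_
      rw [card_product, card_range]
    have h2 : (I.card : ℝ) ≤ ((M * M : ℕ) : ℝ) := by exact_mod_cast h1
    rw [Nat.cast_mul] at h2
    nlinarith
  have h1η : (0 : ℝ) ≤ 1 - η / 2 := by linarith
  obtain ⟨ω, hωZ, hω⟩ := sample4 hZ m I b (fun p _ => filter_subset _ _) hη0.le hη1
    (by
      intro p hp
      rw [hI, mem_filter, mem_product, mem_range, mem_range] at hp
      exact hno p.1 p.2 hp.2 hp.1.2)
    (by
      refine lt_of_le_of_lt ?_ hmM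
      gcongr)
  set f : ℕ → Fin m → ℕ := fun k j =>
    ((range (2 * r + 1)).filter (fun i => ω j - v k ∉ A i)).card with hf
  have f1 : ∀ k j i, i ≤ 2 * r → f k j ≤ i → ω j - v k ∈ A i := by
    intro k j i hi hfi
    by_contra hn
    have hsub : range (i + 1) ⊆ (range (2 * r + 1)).filter (fun i => ω j - v k ∉ A i) := by
      intro i' hi'
      rw [mem_range] at hi'
      rw [mem_filter, mem_range]
      exact ⟨by omega, fun h => hn (hmono i' i (by omega) hi h)⟩
    have h2 := card_le_card hsub
    rw [card_range] at h2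
    have h3 : f k j = ((range (2 * r + 1)).filter (fun i => ω j - v k ∉ A i)).card := rfl
    omega
  have f2 : ∀ k j i, i + 1 ≤ 2 * r → i + 1 < f k j → ω j - v k ∉ A (i + 1) := by
    intro k j i hi hfi hn
    have hsub : (range (2 * r + 1)).filter (fun i => ω j - v k ∉ A i) ⊆ range (i + 1) := by
      intro i' hi'
      rw [mem_filter, mem_range] at hi'
      rw [mem_range]
      by_contra hc
      exact hi'.2 (hmono (i + 1) i' (by omega) (by omega) hn)
    have h2 := card_le_card hsub
    rw [card_range] at h2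
    have h3 : f k j = ((range (2 * r + 1)).filter (fun i => ω j - v k ∉ A i)).card := rfl
    omega
  have f3 : ∀ k j, ω j - v k ∈ A 0 → f k j = 0 := by
    intro k j h
    have h3 : f k j = ((range (2 * r + 1)).filter (fun i => ω j - v k ∉ A i)).card := rfl
    rw [h3, card_eq_zero, filter_eq_empty_iff]
    intro i hi hn
    rw [mem_range] at hi
    exact hn (hmono 0 i (by omega) (by omega) h)
  have f4 : ∀ k j, ω j - v k ∉ A (2 * r) → f k j = 2 * r + 1 := by
    intro k j h
    have h3 : f k j = ((range (2 * r + 1)).filter (fun i => ω j - v k ∉ A i)).card := rfl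
    rw [h3, filter_true_of_mem, card_range]
    intro i hi hn
    rw [mem_range] at hi
    exact h (hmono i (2 * r) (by omega) le_rfl hn)
  have f5 : ∀ k j, f k j ≤ 2 * r + 1 := by
    intro k j
    have h3 : f k j = ((range (2 * r + 1)).filter (fun i => ω j - v k ∉ A i)).card := rfl
    rw [h3]
    refine (card_filter_le _ _).trans ?_
    rw [card_range]
  have hsep' : ∀ k ∈ range M, ∀ k' ∈ range M, k < k' → 4 * (η / 16) * m ≤
      ((univ.filter (fun j => (f k j = 0 ∧ f k' j = 2 * r + 1))).card : ℝ) := by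
    intro k hk k' hk' hlt
    have h1 := hω (k, k') (by
      rw [hI, mem_filter]
      exact ⟨mem_product.2 ⟨hk, hk'⟩, hlt⟩)
    have h5 : 4 * (η / 16) * (m : ℝ) = η / 4 * m := by ring
    rw [h5]
    refine h1.trans (Nat.cast_le.2 (card_le_card ?_))
    intro j hj
    have hj2 := ((@mem_filter _ _ (_) _ _).1 hj).2
    have h3 := (mem_filter.1 hj2).2
    exact mem_filter.2 ⟨mem_univ _, f3 k j h3.1, f4 k' j h3.2⟩
  have hG := shat_count hm hr f (η / 16) hηr (range M) (by rw [nonempty_range_iff]; omega)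
    (fun k _ j => f5 k j)
    (by
      intro k hk k' hk' hne
      rcases Nat.lt_or_ge k k' with hlt | hge
      · refine (hsep' k hk k' hk' hlt).trans ?_
        have : (univ.filter (fun j => (f k j = 0 ∧ f k' j = 2 * r + 1))) ⊆
          (univ.filter (fun j => (f k j = 0 ∧ f k' j = 2 * r + 1) ∨
            (f k' j = 0 ∧ f k j = 2 * r + 1))) := by
          intro j hj
          rw [mem_filter] at hj ⊢
          exact ⟨hj.1, Or.inl hj.2⟩
        exact_mod_cast card_le_card this
      · refine (hsep' k' hk' k hk (by omega)).trans ?_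
        have : (univ.filter (fun j => (f k' j = 0 ∧ f k j = 2 * r + 1))) ⊆
          (univ.filter (fun j => (f k j = 0 ∧ f k' j = 2 * r + 1) ∨
            (f k' j = 0 ∧ f k j = 2 * r + 1))) := by
          intro j hj
          rw [mem_filter] at hj ⊢
          exact ⟨hj.1, Or.inr hj.2⟩
        exact_mod_cast card_le_card this)
  rw [card_range] at hG
  have hsub : (univ : Finset (Fin m → Option (Fin (2 * r)))).filter
      (fun g => Shat f (range M) g) ⊆
      (univ : Finset (Fin m → Option (Fin (2 * r)))).filter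
      (fun g => (univ.filter (fun j => g j ≠ none)).card ≤ 3 * (2 * r)) := by
    intro g hg
    rw [mem_filter] at hg ⊢
    refine ⟨mem_univ _, ?_⟩
    by_contra hc
    push Not at hc
    have hg2 := hg.2
    obtain ⟨i, _, hi⟩ := exists_lt_card_fiber_of_mul_lt_card_of_maps_to
      (s := univ.filter (fun j => g j ≠ none)) (t := (univ : Finset (Fin (2 * r))).image some)
      (f := g) (n := 3)
      (by
        intro j hj
        rw [mem_filter] at hj
        obtain ⟨a, ha⟩ := Option.ne_none_iff_exists.1 hj.2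
        rw [mem_image]
        exact ⟨a, mem_univ _, ha⟩)
      (by
        rw [card_image_of_injective _ (Option.some_injective _), card_univ, Fintype.card_fin]
        omega)
    have hi0 : ∃ i0 : Fin (2 * r), i = some i0 := by
      have hne : ((univ.filter (fun j => g j ≠ none)).filter (fun j => g j = i)).Nonempty := by
        rw [← card_pos]; omega
      obtain ⟨j, hj⟩ := hne
      rw [mem_filter, mem_filter] at hj
      obtain ⟨a, ha⟩ := Option.ne_none_iff_exists.1 hj.1.2
      exact ⟨a, by rw [← hj.2, ha]⟩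
    obtain ⟨i0, rfl⟩ := hi0
    set F := (univ.filter (fun j => g j ≠ none)).filter (fun j => g j = some i0) with hF
    obtain ⟨F', hF', hF'c⟩ := exists_subset_card_eq (show 4 ≤ F.card by omega)
    set e := F'.orderEmbOfFin hF'c with he
    have heg : ∀ l, g (e l) = some i0 := by
      intro l
      have := hF' (F'.orderEmbOfFin_mem hF'c l)
      rw [hF, mem_filter] at this
      exact this.2
    choose kk hkk using fun l : Fin 4 => hg2 {e l}
    have hi0' : (i0 : ℕ) < 2 * r := i0.2
    refine hQ i0 hi0' (fun l => ω (e l)) (fun l => v (kk l)) (fun l => hωZ _)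
      (fun l => ⟨kk l, mem_range.1 (hkk l).1, rfl⟩) ?_ ?_
    · intro l
      exact f1 _ _ _ hi0'.le (((hkk l).2 (e l) i0 (heg l)).1 (mem_singleton_self _))
    · intro l k hlk
      exact f2 _ _ _ (by omega) (((hkk k).2 (e l) i0 (heg l)).2
        (fun h => hlk (e.injective (mem_singleton.1 h))))
  have hG2 := (card_le_card hsub).trans (few_support m (2 * r) (3 * (2 * r)))
  have hG3 := hG.trans (Nat.pow_le_pow_left hG2 4)
  rw [← pow_mul] at hG3
  have h12 : 3 * (2 * r) * 4 = 12 * (2 * r) := by ring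
  rw [h12] at hG3
  omega

end SF4
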