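import Pool.Agent.SF4.Quart

/-!
# Module SHAT: separated rows shatter many patterns

`f v j ∈ {0, ..., 2 r + 1}` is the value of row `v` at column `j`. A partial threshold function `g` (column `j` has
threshold `i` when `g j = some i`) is shattered by `V` when every pattern is realised: columns of `B` have value
`≤ i`, the other columns in the support have value `> i + 1`.

Proof of `shat_count` (strong induction on `V.card`). If `V.card = 1`, `g = fun _ => none` is shattered, `1 ≤ 1 ^ 4`.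
Let `n = V.card ≥ 2`, `n₀ j = #{v ∈ V : f v j = 0}`, `n₁ j = #{v ∈ V : f v j = 2 r + 1}`. Counting ordered pairs `(v, w)`,
`v ≠ w`, and columns with `f v j = 0`, `f w j = 2 r + 1`: `∑ j, n₀ j * n₁ j ≥ (n choose 2) * 4 η m ≥ η n² m`
(each unordered pair is counted with at least `4 η m` columns), so some column has `n₀ j * n₁ j ≥ η n²`, hence
`n₀ j ≥ η n`, `n₁ j ≥ η n`. (If `m = 0` then ... `hm : 0 < m` is assumed.)
Apply `split_exists` to `a i = #{v ∈ V : f v j ≤ i} / n` (`a 0 = n₀ / n ≥ η`, `1 - a (2 r) = n₁ / n ≥ η`): there is `i < 2 r`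
with `|Vl| ^ (1/4) + |Vh| ^ (1/4) ≥ |V| ^ (1/4)`, `Vl = {f v j ≤ i}`, `Vh = {f v j > i + 1}`
(`1 - a (i + 1) = |Vh| / n`). Both are nonempty (contain the values 0 and 2 r + 1) and proper subsets.
Let `Gl`, `Gh`, `G` be the sets of shattered `g`. `Gl ∪ Gh ⊆ G`. If `g ∈ Gl ∩ Gh` then `g j = none` (if
`g j = some i'`, `Gh` with `j ∈ B` gives a value `> i + 1` and `≤ i'`, `Gl` with `j ∉ B` gives a value `≤ i` and `> i' + 1`),
and `update g j (some i)` is in `G`, and neither in `Gl` (no value `> i + 1`) nor in `Gh` (no value `≤ i`).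
So `|G| ≥ |Gl ∪ Gh| + |Gl ∩ Gh| = |Gl| + |Gh| ≥ |Vl| ^ (1/4) + |Vh| ^ (1/4) ≥ |V| ^ (1/4)`.
-/

namespace SF4

open Finset

/-- `V` shatters the partial threshold function `g`. -/
def Shat {ι : Type*} {m R : ℕ} (f : ι → Fin m → ℕ) (V : Finset ι) (g : Fin m → Option (Fin R)) :
    Prop :=
  ∀ B : Finset (Fin m), ∃ v ∈ V, ∀ j, ∀ i : Fin R, g j = some i →
    (j ∈ B → f v j ≤ i) ∧ (j ∉ B → (i : ℕ) + 1 < f v j)

open Classical in
private theorem exists_col {ι : Type*} {m r : ℕ} (f : ι → Fin m → ℕ)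
    (η : ℝ) (hη : 0 < η) (hm : 0 < m) (V : Finset ι) (hV : 2 ≤ V.card)
    (hsep : ∀ v ∈ V, ∀ w ∈ V, v ≠ w → 4 * η * m ≤
      ((univ.filter (fun j => (f v j = 0 ∧ f w j = 2 * r + 1) ∨
        (f w j = 0 ∧ f v j = 2 * r + 1))).card : ℝ)) :
    ∃ j : Fin m, η * (V.card : ℝ) ^ 2 ≤ ((V.filter (fun v => f v j = 0)).card : ℝ) *
      ((V.filter (fun v => f v j = 2 * r + 1)).card : ℝ) := by
  set c : ι → ι → ℝ := fun v w => ∑ j : Fin m, if f v j = 0 ∧ f w j = 2 * r + 1 then 1 else 0
    with hc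
  have h1 : ∀ p ∈ V.offDiag, 4 * η * m ≤ c p.1 p.2 + c p.2 p.1 := by
    intro p hp
    rw [mem_offDiag] at hp
    refine (hsep p.1 hp.1 p.2 hp.2.1 hp.2.2).trans ?_
    rw [hc]
    simp only [sum_boole]
    rw [filter_or]
    exact_mod_cast card_union_le _ _
  have hsymm : ∑ p ∈ V.offDiag, c p.2 p.1 = ∑ p ∈ V.offDiag, c p.1 p.2 := by
    refine sum_bij (fun p _ => (p.2, p.1)) ?_ ?_ ?_ ?_
    · intro p hp
      rw [mem_offDiag] at hp ⊢
      exact ⟨hp.2.1, hp.1, hp.2.2.symm⟩
    · rintro ⟨a, b⟩ _ ⟨c, d⟩ _ h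
      simp only [Prod.mk.injEq] at h ⊢
      exact ⟨h.2, h.1⟩
    · rintro ⟨a, b⟩ hp
      refine ⟨(b, a), ?_, rfl⟩
      rw [mem_offDiag] at hp ⊢
      exact ⟨hp.2.1, hp.1, hp.2.2.symm⟩
    · intro p _
      rfl
  have hcard : (V.offDiag.card : ℝ) = V.card * V.card - V.card := by
    rw [offDiag_card, Nat.cast_sub (Nat.le_mul_self _), Nat.cast_mul]
  have h2 : (V.offDiag.card : ℝ) * (4 * η * m) ≤ 2 * ∑ p ∈ V.offDiag, c p.1 p.2 := by
    have := sum_le_sum h1
    rw [sum_const, nsmul_eq_mul, sum_add_distrib, hsymm] at this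
    linarith
  have hcnn : ∀ v w, 0 ≤ c v w := by
    intro v w
    rw [hc]
    exact sum_nonneg (fun j _ => by split_ifs <;> norm_num)
  have h3 : ∑ p ∈ V.offDiag, c p.1 p.2 ≤ ∑ j : Fin m,
      ((V.filter (fun v => f v j = 0)).card : ℝ) *
      ((V.filter (fun v => f v j = 2 * r + 1)).card : ℝ) := by
    calc ∑ p ∈ V.offDiag, c p.1 p.2 ≤ ∑ p ∈ V ×ˢ V, c p.1 p.2 := by
          apply sum_le_sum_of_subset_of_nonneg
          · intro p hp
            rw [mem_offDiag] at hp
            rw [mem_product]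
            exact ⟨hp.1, hp.2.1⟩
          · intro p _ _
            exact hcnn _ _
      _ = ∑ j : Fin m, ∑ p ∈ V ×ˢ V, (if f p.1 j = 0 ∧ f p.2 j = 2 * r + 1 then (1 : ℝ) else 0) := by
          rw [hc, sum_comm]
      _ = _ := by
          apply sum_congr rfl
          intro j _
          rw [sum_boole, ← Nat.cast_mul, ← card_product]
          congr 2
          ext p
          simp only [mem_filter, mem_product]
          tauto
  have hn : (2 : ℝ) ≤ V.card := by exact_mod_cast hV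
  have hmr : (0 : ℝ) < m := by exact_mod_cast hm
  by_contra hcon
  push Not at hcon
  have h4 : ∑ j : Fin m, ((V.filter (fun v => f v j = 0)).card : ℝ) *
      ((V.filter (fun v => f v j = 2 * r + 1)).card : ℝ) < ∑ _j : Fin m, η * (V.card : ℝ) ^ 2 := by
    apply sum_lt_sum_of_nonempty
    · exact ⟨⟨0, hm⟩, mem_univ _⟩
    · intro j _
      exact hcon j
  rw [sum_const, card_univ, Fintype.card_fin, nsmul_eq_mul] at h4
  rw [hcard] at h2
  have h5 : (V.card : ℝ) * V.card ≤ 2 * (V.card * V.card - V.card) := by nlinarith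
  have h6 : (V.card : ℝ) * V.card * (2 * η * m) ≤ 2 * (V.card * V.card - V.card) * (2 * η * m) :=
    mul_le_mul_of_nonneg_right h5 (by positivity)
  nlinarith

open Classical in
private theorem shat_real {ι : Type*} {m r : ℕ} (hm : 0 < m) (hr : 0 < r) (f : ι → Fin m → ℕ)
    (η : ℝ) (hη : (1 / 2 : ℝ) ^ (4 ^ r) ≤ η) (V : Finset ι) : V.Nonempty →
    (∀ v ∈ V, ∀ j, f v j ≤ 2 * r + 1) →
    (∀ v ∈ V, ∀ w ∈ V, v ≠ w → 4 * η * m ≤
      ((univ.filter (fun j => (f v j = 0 ∧ f w j = 2 * r + 1) ∨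
        (f w j = 0 ∧ f v j = 2 * r + 1))).card : ℝ)) →
    (V.card : ℝ) ^ (1 / 4 : ℝ) ≤ (((univ : Finset (Fin m → Option (Fin (2 * r)))).filter
      (fun g => Shat f V g)).card : ℝ) := by
  have hη0 : 0 < η := lt_of_lt_of_le (by positivity) hη
  induction V using Finset.strongInduction with
  | H V ih =>
  intro hV hf hsep
  by_cases hV1 : V.card ≤ 1
  · have hc : V.card = 1 := le_antisymm hV1 hV.card_pos
    rw [hc, Nat.cast_one, Real.one_rpow]
    obtain ⟨v, hv⟩ := hV
    have : (fun _ => none) ∈ ((univ : Finset (Fin m → Option (Fin (2 * r)))).filter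
        (fun g => Shat f V g)) := by
      rw [mem_filter]
      refine ⟨mem_univ _, fun B => ⟨v, hv, fun j i h => ?_⟩⟩
      simp at h
    exact_mod_cast card_pos.mpr ⟨_, this⟩
  push Not at hV1
  obtain ⟨j, hj⟩ := exists_col f η hη0 hm V hV1 hsep
  set n₀ : ℝ := ((V.filter (fun v => f v j = 0)).card : ℝ) with hn₀
  set n₁ : ℝ := ((V.filter (fun v => f v j = 2 * r + 1)).card : ℝ) with hn₁
  have hn : (2 : ℝ) ≤ V.card := by exact_mod_cast hV1
  have hn0 : (0 : ℝ) < V.card := by linarith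
  have hn₀le : n₀ ≤ V.card := by
    rw [hn₀]; exact_mod_cast card_filter_le _ _
  have hn₁le : n₁ ≤ V.card := by
    rw [hn₁]; exact_mod_cast card_filter_le _ _
  have hn₀0 : 0 ≤ n₀ := Nat.cast_nonneg _
  have hn₁0 : 0 ≤ n₁ := Nat.cast_nonneg _
  have hA : η * V.card ≤ n₀ := by
    by_contra h
    push Not at h
    have : n₀ * n₁ ≤ n₀ * V.card := mul_le_mul_of_nonneg_left hn₁le hn₀0
    nlinarith
  have hB : η * V.card ≤ n₁ := by
    by_contra h
    push Not at h
    have : n₀ * n₁ ≤ V.card * n₁ := mul_le_mul_of_nonneg_right hn₀le hn₁0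
    nlinarith
  set a : ℕ → ℝ := fun i => ((V.filter (fun v => f v j ≤ i)).card : ℝ) / V.card with ha
  have ha0 : ∀ i ≤ 2 * r, 0 ≤ a i := fun i _ => by positivity
  have ha1 : ∀ i ≤ 2 * r, a i ≤ 1 := by
    intro i _
    rw [ha]
    simp only
    rw [div_le_one hn0]
    exact_mod_cast card_filter_le _ _
  have hcompl : ∀ i, (1 - a i) * V.card = ((V.filter (fun v => i < f v j)).card : ℝ) := by
    intro i
    rw [ha]
    simp only
    rw [sub_mul, one_mul, div_mul_cancel₀ _ hn0.ne']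
    have := card_filter_add_card_filter_not (s := V) (fun v => f v j ≤ i)
    simp only [not_le] at this
    rw [← this]
    push_cast
    ring
  have h0 : (1 / 2 : ℝ) ^ (4 ^ r) ≤ a 0 := by
    refine hη.trans ?_
    rw [ha]
    simp only [nonpos_iff_eq_zero]
    rw [le_div_iff₀ hn0]
    exact hA
  have h1 : (1 / 2 : ℝ) ^ (4 ^ r) ≤ 1 - a (2 * r) := by
    refine hη.trans ?_
    have h : (V.filter (fun v => 2 * r < f v j)) = V.filter (fun v => f v j = 2 * r + 1) := by
      apply filter_congr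
      intro v hv
      have := hf v hv j
      omega
    have h2 := hcompl (2 * r)
    rw [h, ← hn₁] at h2
    by_contra h3
    push Not at h3
    have := mul_lt_mul_of_pos_right h3 hn0
    linarith
  obtain ⟨i, hi, hsplit⟩ := split_exists hr a ha0 ha1 h0 h1
  set Vl := V.filter (fun v => f v j ≤ i) with hVl
  set Vh := V.filter (fun v => i + 1 < f v j) with hVh
  have hcl : (Vl.card : ℝ) = a i * V.card := by
    rw [ha]
    simp only
    rw [div_mul_cancel₀ _ hn0.ne']
  have hch : (Vh.card : ℝ) = (1 - a (i + 1)) * V.card := (hcompl (i + 1)).symm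
  have hsum : (V.card : ℝ) ^ (1 / 4 : ℝ) ≤
      (Vl.card : ℝ) ^ (1 / 4 : ℝ) + (Vh.card : ℝ) ^ (1 / 4 : ℝ) := by
    rw [hcl, hch, Real.mul_rpow (ha0 i hi.le) hn0.le,
      Real.mul_rpow (by linarith [ha1 (i + 1) (by omega)]) hn0.le, ← add_mul]
    exact le_mul_of_one_le_left (Real.rpow_nonneg hn0.le _) hsplit
  have hVlne : Vl.Nonempty := by
    have h : 0 < (V.filter (fun v => f v j = 0)).card := by
      have : (0 : ℝ) < n₀ := lt_of_lt_of_le (mul_pos hη0 hn0) hA
      rw [hn₀] at this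
      exact_mod_cast this
    obtain ⟨v, hv⟩ := card_pos.mp h
    rw [mem_filter] at hv
    exact ⟨v, mem_filter.mpr ⟨hv.1, by omega⟩⟩
  have hVhne : Vh.Nonempty := by
    have h : 0 < (V.filter (fun v => f v j = 2 * r + 1)).card := by
      have : (0 : ℝ) < n₁ := lt_of_lt_of_le (mul_pos hη0 hn0) hB
      rw [hn₁] at this
      exact_mod_cast this
    obtain ⟨v, hv⟩ := card_pos.mp h
    rw [mem_filter] at hv
    exact ⟨v, mem_filter.mpr ⟨hv.1, by omega⟩⟩
  have hlV : Vl ⊆ V := filter_subset _ _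
  have hhV : Vh ⊆ V := filter_subset _ _
  have hlss : Vl ⊂ V := by
    rw [ssubset_iff_of_subset hlV]
    obtain ⟨v, hv⟩ := hVhne
    refine ⟨v, hhV hv, ?_⟩
    rw [hVh, mem_filter] at hv
    rw [hVl, mem_filter]
    omega
  have hhss : Vh ⊂ V := by
    rw [ssubset_iff_of_subset hhV]
    obtain ⟨v, hv⟩ := hVlne
    refine ⟨v, hlV hv, ?_⟩
    rw [hVl, mem_filter] at hv
    rw [hVh, mem_filter]
    omega
  have ihl := ih Vl hlss hVlne (fun v hv => hf v (hlV hv))
    (fun v hv w hw => hsep v (hlV hv) w (hlV hw))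
  have ihh := ih Vh hhss hVhne (fun v hv => hf v (hhV hv))
    (fun v hv w hw => hsep v (hhV hv) w (hhV hw))
  set Gl := (univ : Finset (Fin m → Option (Fin (2 * r)))).filter (fun g => Shat f Vl g) with hGl
  set Gh := (univ : Finset (Fin m → Option (Fin (2 * r)))).filter (fun g => Shat f Vh g) with hGh
  set G := (univ : Finset (Fin m → Option (Fin (2 * r)))).filter (fun g => Shat f V g) with hG
  have hGlG : Gl ⊆ G := by
    intro g hg
    rw [hGl, mem_filter] at hg
    rw [hG, mem_filter]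
    refine ⟨mem_univ _, fun B => ?_⟩
    obtain ⟨v, hv, h⟩ := hg.2 B
    exact ⟨v, hlV hv, h⟩
  have hGhG : Gh ⊆ G := by
    intro g hg
    rw [hGh, mem_filter] at hg
    rw [hG, mem_filter]
    refine ⟨mem_univ _, fun B => ?_⟩
    obtain ⟨v, hv, h⟩ := hg.2 B
    exact ⟨v, hhV hv, h⟩
  have hnone : ∀ g ∈ Gl ∩ Gh, g j = none := by
    intro g hg
    rw [mem_inter, hGl, hGh, mem_filter, mem_filter] at hg
    by_contra hne
    obtain ⟨i', hi'⟩ := Option.ne_none_iff_exists'.mp hne
    obtain ⟨v, hv, h⟩ := hg.2.2 {j}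
    have h3 := (h j i' hi').1 (mem_singleton_self _)
    rw [hVh, mem_filter] at hv
    obtain ⟨w, hw, h'⟩ := hg.1.2 ∅
    have h4 := (h' j i' hi').2 (notMem_empty _)
    rw [hVl, mem_filter] at hw
    omega
  set U := (Gl ∩ Gh).image (fun g => Function.update g j (some (⟨i, hi⟩ : Fin (2 * r)))) with hU
  have hUcard : U.card = (Gl ∩ Gh).card := by
    rw [hU]
    apply card_image_of_injOn
    intro g hg g' hg' h
    funext l
    by_cases hl : l = j
    · subst hl
      rw [hnone g hg, hnone g' hg']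
    · have := congrFun h l
      simpa [Function.update_of_ne hl] using this
  have hUG : U ⊆ G := by
    intro g' hg'
    rw [hU, mem_image] at hg'
    obtain ⟨g, hg, rfl⟩ := hg'
    rw [mem_inter, hGl, hGh, mem_filter, mem_filter] at hg
    rw [hG, mem_filter]
    refine ⟨mem_univ _, fun B => ?_⟩
    by_cases hjB : j ∈ B
    · obtain ⟨v, hv, h⟩ := hg.1.2 B
      refine ⟨v, hlV hv, fun l k hk => ?_⟩
      by_cases hl : l = j
      · subst hl
        rw [Function.update_self, Option.some.injEq] at hk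
        subst hk
        rw [hVl, mem_filter] at hv
        exact ⟨fun _ => hv.2, fun h => absurd hjB h⟩
      · rw [Function.update_of_ne hl] at hk
        exact h l k hk
    · obtain ⟨v, hv, h⟩ := hg.2.2 B
      refine ⟨v, hhV hv, fun l k hk => ?_⟩
      by_cases hl : l = j
      · subst hl
        rw [Function.update_self, Option.some.injEq] at hk
        subst hk
        rw [hVh, mem_filter] at hv
        exact ⟨fun h => absurd h hjB, fun _ => hv.2⟩
      · rw [Function.update_of_ne hl] at hk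
        exact h l k hk
  have hUl : Disjoint U (Gl ∪ Gh) := by
    rw [disjoint_left]
    intro g' hg' hmem
    rw [hU, mem_image] at hg'
    obtain ⟨g, hg, rfl⟩ := hg'
    rw [mem_union, hGl, hGh, mem_filter, mem_filter] at hmem
    rcases hmem with h | h
    · obtain ⟨v, hv, h'⟩ := h.2 ∅
      have := (h' j ⟨i, hi⟩ (Function.update_self _ _ _)).2 (notMem_empty _)
      rw [hVl, mem_filter] at hv
      simp only at this
      omega
    · obtain ⟨v, hv, h'⟩ := h.2 {j}
      have := (h' j ⟨i, hi⟩ (Function.update_self _ _ _)).1 (mem_singleton_self _)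
      rw [hVh, mem_filter] at hv
      simp only at this
      omega
  have hcardG : Gl.card + Gh.card ≤ G.card := by
    rw [← card_union_add_card_inter, ← hUcard, add_comm, ← card_union_of_disjoint hUl]
    exact card_le_card (union_subset hUG (union_subset hGlG hGhG))
  have hcardG' : (Gl.card : ℝ) + Gh.card ≤ G.card := by exact_mod_cast hcardG
  linarith

open Classical in
theorem shat_count {ι : Type*} {m r : ℕ} (hm : 0 < m) (hr : 0 < r) (f : ι → Fin m → ℕ)
    (η : ℝ) (hη : (1 / 2 : ℝ) ^ (4 ^ r) ≤ η) (V : Finset ι) (hV : V.Nonempty)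
    (hf : ∀ v ∈ V, ∀ j, f v j ≤ 2 * r + 1)
    (hsep : ∀ v ∈ V, ∀ w ∈ V, v ≠ w → 4 * η * m ≤
      ((univ.filter (fun j => (f v j = 0 ∧ f w j = 2 * r + 1) ∨
        (f w j = 0 ∧ f v j = 2 * r + 1))).card : ℝ)) :
    V.card ≤ ((univ : Finset (Fin m → Option (Fin (2 * r)))).filter
      (fun g => Shat f V g)).card ^ 4 := by
  have h := shat_real hm hr f η hη V hV hf hsep
  have h2 : ((V.card : ℝ) ^ (1 / 4 : ℝ)) ^ 4 ≤
      (((univ : Finset (Fin m → Option (Fin (2 * r)))).filter
      (fun g => Shat f V g)).card : ℝ) ^ 4 :=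
    pow_le_pow_left₀ (Real.rpow_nonneg (Nat.cast_nonneg _) _) h 4
  rw [← Real.rpow_natCast, ← Real.rpow_mul (Nat.cast_nonneg _)] at h2
  norm_num at h2
  exact_mod_cast h2

end SF4
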