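import Mathlib

/-!
# Module SPEC: a special element

Proof. Suppose not. For `w ∈ W \ X` let `a = {i : w ∈ A i}`, `b = {i : w ∈ B i}`, `c = {i : w ∈ C i}`. `c` is disjoint from
`a` and from `b`, and `i ∈ a`, `j ∈ b` imply `i = j`. If `a = ∅` or `b = ∅` then `|a| + |b| + |c| ≤ k`. Otherwise
`a = b = {i}`, `|c| ≤ k - 1`, and `c ≠` all the others (else `w` is special), so `|c| ≤ k - 2` and
`|a| + |b| + |c| ≤ k`. So (all sets are subsets of `W`) `∑ i (|A i| + |B i| + |C i|) = ∑_{w ∈ W} (|a| + |b| + |c|)
≤ k |W| + 3 k |X|`.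
-/

namespace SF4

open Finset

theorem special {k : ℕ} {W X : Finset ℤ} (A B C : Fin k → Finset ℤ) (hA : ∀ i, A i ⊆ W)
    (hB : ∀ i, B i ⊆ W) (hC : ∀ i, C i ⊆ W) (hAB : ∀ i j, i ≠ j → A i ∩ B j ⊆ X)
    (hAC : ∀ i, A i ∩ C i ⊆ X) (hBC : ∀ i, B i ∩ C i ⊆ X)
    (hcard : k * W.card + 3 * k * X.card < ∑ i, ((A i).card + (B i).card + (C i).card)) :
    ∃ w ∈ W, w ∉ X ∧ ∃ i, w ∈ A i ∧ w ∈ B i ∧ ∀ j, j ≠ i → w ∈ C j := by
  classical
  by_contra hno
  push Not at hno
  have hcardA : ∀ (D : Finset ℤ), D ⊆ W → D.card = ∑ w ∈ W, (if w ∈ D then 1 else 0) := by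
    intro D hD
    rw [← Finset.sum_filter, ← Finset.card_eq_sum_ones]
    congr 1
    ext w
    simp only [Finset.mem_filter]
    exact ⟨fun h => ⟨hD h, h⟩, fun h => h.2⟩
  have key : ∀ w ∈ W, ∑ i : Fin k, ((if w ∈ A i then 1 else 0) + (if w ∈ B i then 1 else 0) +
      (if w ∈ C i then 1 else 0)) ≤ k + (if w ∈ X then 3 * k else 0) := by
    intro w hw
    by_cases hX : w ∈ X
    · rw [if_pos hX]
      have h1 : ∑ i : Fin k, ((if w ∈ A i then 1 else 0) + (if w ∈ B i then 1 else 0) +
          (if w ∈ C i then 1 else 0)) ≤ ∑ i : Fin k, 3 := by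
        apply Finset.sum_le_sum
        intro i _
        split_ifs <;> omega
      have h2 : ∑ i : Fin k, 3 = k * 3 := by simp
      omega
    · rw [if_neg hX, Nat.add_zero]
      by_cases hex : ∃ i, w ∈ A i ∧ w ∈ B i
      · obtain ⟨i0, hA0, hB0⟩ := hex
        obtain ⟨j0, hj0, hCj0⟩ := hno w hw hX i0 hA0 hB0
        have h1 : ∀ j : Fin k, ((if w ∈ A j then 1 else 0) + (if w ∈ B j then 1 else 0) +
            (if w ∈ C j then 1 else 0)) + (if j = j0 then 1 else 0) ≤
            1 + (if j = i0 then 1 else 0) := by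
          intro j
          by_cases hji : j = i0
          · subst hji
            have hc : w ∉ C j := fun h => hX (hAC j (Finset.mem_inter.2 ⟨hA0, h⟩))
            have : j ≠ j0 := fun h => hj0 h.symm
            simp [hA0, hB0, hc, this]
          · have ha : w ∉ A j := fun h => hX (hAB j i0 hji (Finset.mem_inter.2 ⟨h, hB0⟩))
            have hb : w ∉ B j := fun h => hX (hAB i0 j (fun h => hji h.symm)
              (Finset.mem_inter.2 ⟨hA0, h⟩))
            by_cases hjj : j = j0
            · subst hjj
              simp [ha, hb, hCj0, hji]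
            · simp only [if_neg ha, if_neg hb, if_neg hjj, if_neg hji]
              split_ifs <;> omega
        have h2 := Finset.sum_le_sum (fun j (_ : j ∈ (Finset.univ : Finset (Fin k))) => h1 j)
        have h3 : ∀ l : Fin k, ∑ j : Fin k, (if j = l then 1 else 0) = 1 := by
          intro l
          rw [Finset.sum_ite_eq' Finset.univ l (fun _ => 1), if_pos (Finset.mem_univ _)]
        have h4 : ∑ j : Fin k, (1 + (if j = i0 then 1 else 0)) = k + 1 := by
          rw [Finset.sum_add_distrib, h3]
          simp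
        rw [h4, Finset.sum_add_distrib, h3] at h2
        omega
      · push Not at hex
        have h1 : ∑ i : Fin k, ((if w ∈ A i then 1 else 0) + (if w ∈ B i then 1 else 0) +
            (if w ∈ C i then 1 else 0)) ≤ ∑ i : Fin k, 1 := by
          apply Finset.sum_le_sum
          intro i _
          by_cases ha : w ∈ A i
          · have hb := hex i ha
            have hc : w ∉ C i := fun h => hX (hAC i (Finset.mem_inter.2 ⟨ha, h⟩))
            simp [ha, hb, hc]
          · by_cases hb : w ∈ B i
            · have hc : w ∉ C i := fun h => hX (hBC i (Finset.mem_inter.2 ⟨hb, h⟩))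
              simp [ha, hb, hc]
            · simp only [if_neg ha, if_neg hb]
              split_ifs <;> omega
        simpa using h1
  have htot : ∑ i, ((A i).card + (B i).card + (C i).card) ≤ k * W.card + 3 * k * X.card := by
    calc ∑ i, ((A i).card + (B i).card + (C i).card)
        = ∑ i : Fin k, ∑ w ∈ W, ((if w ∈ A i then 1 else 0) + (if w ∈ B i then 1 else 0) +
          (if w ∈ C i then 1 else 0)) := by
          apply Finset.sum_congr rfl
          intro i _
          rw [Finset.sum_add_distrib, Finset.sum_add_distrib, ← hcardA _ (hA i),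
            ← hcardA _ (hB i), ← hcardA _ (hC i)]
      _ = ∑ w ∈ W, ∑ i : Fin k, ((if w ∈ A i then 1 else 0) + (if w ∈ B i then 1 else 0) +
          (if w ∈ C i then 1 else 0)) := Finset.sum_comm
      _ ≤ ∑ w ∈ W, (k + (if w ∈ X then 3 * k else 0)) := Finset.sum_le_sum key
      _ = k * W.card + ∑ w ∈ W, (if w ∈ X then 3 * k else 0) := by
          rw [Finset.sum_add_distrib, Finset.sum_const, smul_eq_mul, mul_comm]
      _ ≤ k * W.card + 3 * k * X.card := by
          apply Nat.add_le_add_left
          rw [← Finset.sum_filter, Finset.sum_const, smul_eq_mul, mul_comm]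
          apply Nat.mul_le_mul_left
          apply Finset.card_le_card
          intro w hw
          exact (Finset.mem_filter.1 hw).2
  omega

end SF4
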