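import Pool.Agent.SF4.Spec
import Pool.Agent.SF3.Window

/-!
# Module STEP: improving the common neighbours

Proof. `W = Ioc (a - Q) a`, `W.card = Q`. `A i = nw S a Q (x (j i))`, `B i = nw S a Q (y (j i))`, `C i = mw S a Q (z (j i))`
for an enumeration `j : Fin k → Fin 4` of `J` (`k = J.card`, 3 or 4; `J.orderEmbOfFin`).
`X` = the union of all `A i ∩ B i'` (`i ≠ i'`), `A i ∩ C i`, `B i ∩ C i`, and of all `C i ∩ C i'` with `z l' - z l ∈ S`
(`l = j i`, `l' = j i'`). Each has at most `E` elements.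
-/

namespace SF4

open Finset SFree SF2 SF3

theorem Step_mw_mw {S : Finset ℤ} {a t : ℕ} {v z : ℤ} :
    (mw S a t v ∩ mw S a t z).card ≤ rep S (z - v) := by
  unfold rep
  rw [← card_rf (mw S a t v ∩ mw S a t z) v]
  apply card_le_card
  intro w hw
  rw [mem_rf, mem_inter, mem_mw, mem_mw] at hw
  rw [mem_filter]
  have e1 : v - (v - w) = w := by ring
  have e2 : z - (v - w) = w + (z - v) := by ring
  rw [e1, e2] at hw
  exact ⟨hw.1.2, hw.2.2⟩

theorem step {D : ℕ} (hD : 100 ≤ D) (S : Finset ℤ) (hpos : ∀ s ∈ S, 0 < s) (E : ℕ)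
    (hE1 : ∀ s ∈ S, rep S s ≤ E) (hE2 : ∀ a ∈ S, (S.filter (fun s => a - s ∈ S)).card ≤ E)
    (α β : ℝ) (hαβ : 1 + 1 / (D : ℝ) ≤ 2 * α + β) (a t B Q : ℕ) (hQ0 : 0 < Q)
    (hQα : α * Q ≤ ((win S a Q).card : ℝ)) (hQβ : β * Q ≤ ((lev S Q).card : ℝ))
    (hQ : 1000 * D * (t + B) ≤ Q) (hE : 1000 * D * E ≤ Q)
    (x y z : Fin 4 → ℤ) (J : Finset (Fin 4)) (hJ : 3 ≤ J.card)
    (hx : ∀ i, 0 ≤ x i ∧ x i ≤ B) (hy : ∀ i, 0 ≤ y i ∧ y i ≤ B)
    (hz : ∀ i, (a : ℤ) - t < z i ∧ z i ≤ a + B)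
    (hzx : ∀ i, z i - x i ∈ S) (hzy : ∀ i, z i - y i ∈ S)
    (hadj : ∀ i j, i ≠ j → (nw S a Q (x i) ∩ nw S a Q (y j)).card ≤ E) :
    ∃ i ∈ J, ∃ w : ℤ, ((a : ℤ) - Q < w ∧ w ≤ a) ∧ w - x i ∈ S ∧ w - y i ∈ S ∧
      (∀ j ∈ J, j ≠ i → z j - w ∈ S) ∧
      ∀ j ∈ J, ∀ l ∈ J, j ≠ i → l ≠ i → z l - z j ∉ S := by
  classical
  have hD0 : (0 : ℝ) < D := by exact_mod_cast (by omega : 0 < D)
  have hQr : (0 : ℝ) < Q := by exact_mod_cast hQ0
  set W : Finset ℤ := Ioc ((a : ℤ) - Q) a with hW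
  have hWc : W.card = Q := by rw [hW, Int.card_Ioc]; omega
  set X1 : Finset ℤ := ((J ×ˢ J).filter (fun p => p.1 ≠ p.2)).biUnion
    (fun p => nw S a Q (x p.1) ∩ nw S a Q (y p.2)) with hX1
  set X2 : Finset ℤ := J.biUnion (fun i => nw S a Q (x i) ∩ mw S a Q (z i)) with hX2
  set X3 : Finset ℤ := J.biUnion (fun i => nw S a Q (y i) ∩ mw S a Q (z i)) with hX3
  set X4 : Finset ℤ := ((J ×ˢ J).filter (fun p => z p.2 - z p.1 ∈ S)).biUnion
    (fun p => mw S a Q (z p.1) ∩ mw S a Q (z p.2)) with hX4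
  have hJ4 : J.card ≤ 4 := by simpa using card_le_univ J
  have hJJ : (J ×ˢ J).card ≤ 16 := by
    rw [card_product]; exact Nat.mul_le_mul hJ4 hJ4
  have b1 : X1.card ≤ 16 * E := by
    refine (card_biUnion_le_card_mul _ _ E ?_).trans
      (Nat.mul_le_mul_right _ ((card_filter_le _ _).trans hJJ))
    intro p hp
    exact hadj _ _ (mem_filter.1 hp).2
  have b2 : X2.card ≤ 4 * E := by
    refine (card_biUnion_le_card_mul _ _ E ?_).trans (Nat.mul_le_mul_right _ hJ4)
    intro i _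
    exact nw_mw hE2 (hzx i)
  have b3 : X3.card ≤ 4 * E := by
    refine (card_biUnion_le_card_mul _ _ E ?_).trans (Nat.mul_le_mul_right _ hJ4)
    intro i _
    exact nw_mw hE2 (hzy i)
  have b4 : X4.card ≤ 16 * E := by
    refine (card_biUnion_le_card_mul _ _ E ?_).trans
      (Nat.mul_le_mul_right _ ((card_filter_le _ _).trans hJJ))
    intro p hp
    exact Step_mw_mw.trans (hE1 _ (mem_filter.1 hp).2)
  set X : Finset ℤ := X1 ∪ X2 ∪ X3 ∪ X4 with hX
  have hXc : X.card ≤ 40 * E := by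
    rw [hX]
    have c1 := card_union_le (X1 ∪ X2 ∪ X3) X4
    have c2 := card_union_le (X1 ∪ X2) X3
    have c3 := card_union_le X1 X2
    omega
  set e := J.orderEmbOfFin rfl with he
  have hem : ∀ i, e i ∈ J := fun i => J.orderEmbOfFin_mem rfl i
  have hes : ∀ j ∈ J, ∃ i, e i = j := by
    intro j hj
    have h := Finset.range_orderEmbOfFin J (rfl : J.card = J.card)
    have h' : j ∈ Set.range (J.orderEmbOfFin rfl) := by rw [h]; exact hj
    exact h'
  have hterm : ∀ i : Fin 4, Q + 120 * E <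
      (nw S a Q (x i)).card + (nw S a Q (y i)).card + (mw S a Q (z i)).card := by
    intro i
    have c1 := card_nw (S := S) (a := a) (t := Q) (B := B) (hx i).1 (hx i).2
    have c2 := card_nw (S := S) (a := a) (t := Q) (B := B) (hy i).1 (hy i).2
    have c3 := card_mw (S := S) hpos (a := a) (t := Q) (u := t) (c := B) (hz i).1 (hz i).2
    have c4 : 2 * (win S a Q).card + (lev S Q).card ≤
      (nw S a Q (x i)).card + (nw S a Q (y i)).card + (mw S a Q (z i)).card + (3 * B + t) := by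
      omega
    have c4r : 2 * ((win S a Q).card : ℝ) + (lev S Q).card ≤
      (nw S a Q (x i)).card + (nw S a Q (y i)).card + (mw S a Q (z i)).card + (3 * B + t) := by
      exact_mod_cast c4
    have hQ' : 1000 * (D : ℝ) * (t + B) ≤ Q := by exact_mod_cast hQ
    have hE' : 1000 * (D : ℝ) * E ≤ Q := by exact_mod_cast hE
    have e1 : (t : ℝ) + B ≤ Q / D / 1000 := by
      rw [div_div, le_div_iff₀ (by positivity)]; linarith
    have e2 : (E : ℝ) ≤ Q / D / 1000 := by
      rw [div_div, le_div_iff₀ (by positivity)]; linarith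
    have e4 : (0 : ℝ) < Q / D := by positivity
    have e5 : (1 + 1 / (D : ℝ)) * Q ≤ (2 * α + β) * Q := by gcongr
    have e6 : (1 + 1 / (D : ℝ)) * Q = Q + Q / D := by ring
    have e7 : (2 * α + β) * (Q : ℝ) = 2 * (α * Q) + β * Q := by ring
    rw [e6, e7] at e5
    have hB0 : (0 : ℝ) ≤ B := Nat.cast_nonneg _
    have ht0 : (0 : ℝ) ≤ t := Nat.cast_nonneg _
    have : (Q : ℝ) + 120 * E <
      (nw S a Q (x i)).card + (nw S a Q (y i)).card + (mw S a Q (z i)).card := by
      linarith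
    exact_mod_cast this
  have hWn : ∀ v, nw S a Q v ⊆ W := fun v => filter_subset _ _
  have hWm : ∀ v, mw S a Q v ⊆ W := fun v => filter_subset _ _
  obtain ⟨w, hwW, hwX, i, hA, hB, hC⟩ := special (W := W) (X := X)
    (fun i => nw S a Q (x (e i))) (fun i => nw S a Q (y (e i))) (fun i => mw S a Q (z (e i)))
    (fun i => hWn _) (fun i => hWn _) (fun i => hWm _)
    (by
      intro i j hij w hw
      rw [hX, mem_union, mem_union, mem_union]
      left; left; left
      rw [hX1, mem_biUnion]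
      exact ⟨(e i, e j), mem_filter.2 ⟨mem_product.2 ⟨hem i, hem j⟩,
        fun h => hij (e.injective h)⟩, hw⟩)
    (by
      intro i w hw
      rw [hX, mem_union, mem_union, mem_union]
      left; left; right
      rw [hX2, mem_biUnion]
      exact ⟨e i, hem i, hw⟩)
    (by
      intro i w hw
      rw [hX, mem_union, mem_union, mem_union]
      left; right
      rw [hX3, mem_biUnion]
      exact ⟨e i, hem i, hw⟩)
    (by
      have h1 : ∑ _i : Fin J.card, (Q + 120 * E) < ∑ i : Fin J.card,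
          ((nw S a Q (x (e i))).card + (nw S a Q (y (e i))).card + (mw S a Q (z (e i))).card) :=
        sum_lt_sum_of_nonempty ⟨⟨0, by omega⟩, mem_univ _⟩ (fun i _ => hterm (e i))
      rw [sum_const, card_univ, Fintype.card_fin, smul_eq_mul] at h1
      rw [hWc]
      refine lt_of_le_of_lt ?_ h1
      have h2 : J.card * X.card ≤ J.card * (40 * E) := Nat.mul_le_mul_left _ hXc
      have h3 : 3 * J.card * X.card = 3 * (J.card * X.card) := by ring
      have h4 : J.card * (Q + 120 * E) = J.card * Q + 3 * (J.card * (40 * E)) := by ring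
      rw [h3, h4]
      omega)
  have hwW' : (a : ℤ) - Q < w ∧ w ≤ a := mem_Ioc.1 hwW
  refine ⟨e i, hem i, w, hwW', (mem_nw.1 hA).2, (mem_nw.1 hB).2, ?_, ?_⟩
  · intro j hj hji
    obtain ⟨j', rfl⟩ := hes j hj
    exact (mem_mw.1 (hC j' (fun h => hji (by rw [h])))).2
  · intro j hj l hl hji hli hS
    obtain ⟨j', rfl⟩ := hes j hj
    obtain ⟨l', rfl⟩ := hes l hl
    have h1 := hC j' (fun h => hji (by rw [h]))
    have h2 := hC l' (fun h => hli (by rw [h]))
    apply hwX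
    rw [hX, mem_union, mem_union, mem_union]
    right
    rw [hX4, mem_biUnion]
    exact ⟨(e j', e l'), mem_filter.2 ⟨mem_product.2 ⟨hem j', hem l'⟩, hS⟩, mem_inter.2 ⟨h1, h2⟩⟩

end SF4
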